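import Mathlib

/-!
Explicit polynomial inequalities for class (iii) of note 1070.
-/

set_option autoImplicit false
set_option maxRecDepth 20000

namespace Pool.Agent.Helper66.SW

/-- (E2), two parts above `y` -/
theorem E2a {x σ y lam g : ℝ} (hg : g = x + σ) (hy : 0 < y) (hσ : y ≤ σ) (hx : σ + y ≤ x)
    (hl : 0 < lam) (H : (σ + y) * x + y * lam ≤ lam ^ 2) :
    y * ((2 * x * σ - y * g) * (2 * x * σ + y * g)) * ((lam + x) * (lam + σ)) ≤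
      σ ^ 2 * (x - y) * (lam * (lam + y) * (lam ^ 2 + 2 * x * lam + x * σ)) := by
  subst hg
  obtain ⟨r, rfl⟩ : ∃ r, σ = y + r := ⟨σ - y, by ring⟩
  obtain ⟨m, rfl⟩ : ∃ m, x = 2 * y + r + m := ⟨x - (2 * y + r), by ring⟩
  obtain ⟨d, hd⟩ : ∃ d, lam ^ 2 = (y + r + y) * (2 * y + r + m) + y * lam + d :=
    ⟨lam ^ 2 - ((y + r + y) * (2 * y + r + m) + y * lam), by ring⟩
  have hr : 0 ≤ r := by linarith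
  have hm : 0 ≤ m := by linarith
  have hd0 : 0 ≤ d := by linarith
  have key : (y + r) ^ 2 * (2 * y + r + m - y) * (lam * (lam + y) * (lam ^ 2 +
      2 * (2 * y + r + m) * lam + (2 * y + r + m) * (y + r))) -
      y * ((2 * (2 * y + r + m) * (y + r) - y * (2 * y + r + m + (y + r))) *
      (2 * (2 * y + r + m) * (y + r) + y * (2 * y + r + m + (y + r)))) *
      ((lam + (2 * y + r + m)) * (lam + (y + r))) =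
      (((22 * y ^ 7 + 35 * y ^ 6 * r + 43 * y ^ 6 * m + 30 * y ^ 5 * r ^ 2 + 82 * y ^ 5 * r * m) +
      (26 * y ^ 5 * m ^ 2 + 13 * y ^ 5 * d + 59 * y ^ 4 * r ^ 3 + 100 * y ^ 4 * r ^ 2 * m + 50 * y ^ 4 * r * m ^ 2) +
      (39 * y ^ 4 * r * d + 5 * y ^ 4 * m ^ 3 + 19 * y ^ 4 * m * d + 83 * y ^ 3 * r ^ 4 + 127 * y ^ 3 * r ^ 3 * m) +
      (61 * y ^ 3 * r ^ 2 * m ^ 2 + 60 * y ^ 3 * r ^ 2 * d + 9 * y ^ 3 * r * m ^ 3 + 49 * y ^ 3 * r * m * d + 6 * y ^ 3 * m ^ 2 * d) +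
      (y ^ 3 * d ^ 2 + 55 * y ^ 2 * r ^ 5 + 104 * y ^ 2 * r ^ 4 * m + 59 * y ^ 2 * r ^ 3 * m ^ 2 + 50 * y ^ 2 * r ^ 3 * d)) +
      ((10 * y ^ 2 * r ^ 2 * m ^ 3 + 57 * y ^ 2 * r ^ 2 * m * d + 13 * y ^ 2 * r * m ^ 2 * d + 3 * y ^ 2 * r * d ^ 2 + y ^ 2 * m * d ^ 2) +
      (17 * y * r ^ 6 + 41 * y * r ^ 5 * m + 31 * y * r ^ 4 * m ^ 2 + 20 * y * r ^ 4 * d + 7 * y * r ^ 3 * m ^ 3) +
      (31 * y * r ^ 3 * m * d + 11 * y * r ^ 2 * m ^ 2 * d + 3 * y * r ^ 2 * d ^ 2 + 2 * y * r * m * d ^ 2 + 2 * r ^ 7) +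
      (6 * r ^ 6 * m + 6 * r ^ 5 * m ^ 2 + 3 * r ^ 5 * d + 2 * r ^ 4 * m ^ 3 + 6 * r ^ 4 * m * d) +
      (3 * r ^ 3 * m ^ 2 * d + r ^ 3 * d ^ 2 + r ^ 2 * m * d ^ 2))) +
      (((14 * y ^ 6 + 14 * y ^ 5 * r + 23 * y ^ 5 * m + 17 * y ^ 4 * r ^ 2 + 35 * y ^ 4 * r * m) +
      (10 * y ^ 4 * m ^ 2 + 7 * y ^ 4 * d + 41 * y ^ 3 * r ^ 3 + 54 * y ^ 3 * r ^ 2 * m + 17 * y ^ 3 * r * m ^ 2) +
      (23 * y ^ 3 * r * d + y ^ 3 * m ^ 3 + 9 * y ^ 3 * m * d + 39 * y ^ 2 * r ^ 4 + 65 * y ^ 2 * r ^ 3 * m) +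
      (28 * y ^ 2 * r ^ 2 * m ^ 2 + 27 * y ^ 2 * r ^ 2 * d + 2 * y ^ 2 * r * m ^ 3 + 22 * y ^ 2 * r * m * d + 2 * y ^ 2 * m ^ 2 * d) +
      (15 * y * r ^ 5 + 34 * y * r ^ 4 * m + 23 * y * r ^ 3 * m ^ 2 + 13 * y * r ^ 3 * d + 4 * y * r ^ 2 * m ^ 3)) +
      ((17 * y * r ^ 2 * m * d + 4 * y * r * m ^ 2 * d + 2 * r ^ 6 + 6 * r ^ 5 * m + 6 * r ^ 4 * m ^ 2) +
      (2 * r ^ 4 * d + 2 * r ^ 3 * m ^ 3 + 4 * r ^ 3 * m * d + 2 * r ^ 2 * m ^ 2 * d))) * lam := by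
    linear_combination ((y + r) ^ 2 * (2 * y + r + m - y) * lam ^ 2 +
      (y + r) ^ 2 * (2 * y + r + m - y) * (2 * (2 * y + r + m) + 2 * y) * lam +
      ((y + r) ^ 2 * (2 * y + r + m - y) * ((2 * y + r + m) * (y + r) +
        2 * (2 * y + r + m) * y) -
      y * ((2 * (2 * y + r + m) * (y + r) - y * (2 * y + r + m + (y + r))) *
      (2 * (2 * y + r + m) * (y + r) + y * (2 * y + r + m + (y + r)))) +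
      y * ((y + r) ^ 2 * (2 * y + r + m - y)) * (2 * (2 * y + r + m) + 2 * y) +
      ((y + r + y) * (2 * y + r + m) + d) * ((y + r) ^ 2 * (2 * y + r + m - y)))) * hd
  have h0 : 0 ≤ (((22 * y ^ 7 + 35 * y ^ 6 * r + 43 * y ^ 6 * m + 30 * y ^ 5 * r ^ 2 + 82 * y ^ 5 * r * m) +
      (26 * y ^ 5 * m ^ 2 + 13 * y ^ 5 * d + 59 * y ^ 4 * r ^ 3 + 100 * y ^ 4 * r ^ 2 * m + 50 * y ^ 4 * r * m ^ 2) +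
      (39 * y ^ 4 * r * d + 5 * y ^ 4 * m ^ 3 + 19 * y ^ 4 * m * d + 83 * y ^ 3 * r ^ 4 + 127 * y ^ 3 * r ^ 3 * m) +
      (61 * y ^ 3 * r ^ 2 * m ^ 2 + 60 * y ^ 3 * r ^ 2 * d + 9 * y ^ 3 * r * m ^ 3 + 49 * y ^ 3 * r * m * d + 6 * y ^ 3 * m ^ 2 * d) +
      (y ^ 3 * d ^ 2 + 55 * y ^ 2 * r ^ 5 + 104 * y ^ 2 * r ^ 4 * m + 59 * y ^ 2 * r ^ 3 * m ^ 2 + 50 * y ^ 2 * r ^ 3 * d)) +
      ((10 * y ^ 2 * r ^ 2 * m ^ 3 + 57 * y ^ 2 * r ^ 2 * m * d + 13 * y ^ 2 * r * m ^ 2 * d + 3 * y ^ 2 * r * d ^ 2 + y ^ 2 * m * d ^ 2) +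
      (17 * y * r ^ 6 + 41 * y * r ^ 5 * m + 31 * y * r ^ 4 * m ^ 2 + 20 * y * r ^ 4 * d + 7 * y * r ^ 3 * m ^ 3) +
      (31 * y * r ^ 3 * m * d + 11 * y * r ^ 2 * m ^ 2 * d + 3 * y * r ^ 2 * d ^ 2 + 2 * y * r * m * d ^ 2 + 2 * r ^ 7) +
      (6 * r ^ 6 * m + 6 * r ^ 5 * m ^ 2 + 3 * r ^ 5 * d + 2 * r ^ 4 * m ^ 3 + 6 * r ^ 4 * m * d) +
      (3 * r ^ 3 * m ^ 2 * d + r ^ 3 * d ^ 2 + r ^ 2 * m * d ^ 2))) +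
      (((14 * y ^ 6 + 14 * y ^ 5 * r + 23 * y ^ 5 * m + 17 * y ^ 4 * r ^ 2 + 35 * y ^ 4 * r * m) +
      (10 * y ^ 4 * m ^ 2 + 7 * y ^ 4 * d + 41 * y ^ 3 * r ^ 3 + 54 * y ^ 3 * r ^ 2 * m + 17 * y ^ 3 * r * m ^ 2) +
      (23 * y ^ 3 * r * d + y ^ 3 * m ^ 3 + 9 * y ^ 3 * m * d + 39 * y ^ 2 * r ^ 4 + 65 * y ^ 2 * r ^ 3 * m) +
      (28 * y ^ 2 * r ^ 2 * m ^ 2 + 27 * y ^ 2 * r ^ 2 * d + 2 * y ^ 2 * r * m ^ 3 + 22 * y ^ 2 * r * m * d + 2 * y ^ 2 * m ^ 2 * d) +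
      (15 * y * r ^ 5 + 34 * y * r ^ 4 * m + 23 * y * r ^ 3 * m ^ 2 + 13 * y * r ^ 3 * d + 4 * y * r ^ 2 * m ^ 3)) +
      ((17 * y * r ^ 2 * m * d + 4 * y * r * m ^ 2 * d + 2 * r ^ 6 + 6 * r ^ 5 * m + 6 * r ^ 4 * m ^ 2) +
      (2 * r ^ 4 * d + 2 * r ^ 3 * m ^ 3 + 4 * r ^ 3 * m * d + 2 * r ^ 2 * m ^ 2 * d))) * lam := by
    positivity
  linarith

/-- (E2), at least three parts above `y` -/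
theorem E2b {x σ y lam g : ℝ} (hg : g = x + σ) (hy : 0 < y) (hσ : 2 * y ≤ σ) (hx : σ + y ≤ x)
    (hl : 0 < lam) (H : (σ + y) * x + y * lam ≤ lam ^ 2) :
    y * (y * g + x * σ + σ * (g - y)) * (x * (x - y) * σ ^ 2 +
      (σ - 2 * y) * (σ - y) * (x + y) * (g - y)) * ((lam + x) * (lam + σ)) ≤
      σ * (x * (x - y) * σ ^ 2) * (lam * (lam + y) * (lam ^ 2 + 2 * x * lam + x * σ)) := by
  subst hg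
  obtain ⟨r, rfl⟩ : ∃ r, σ = 2 * y + r := ⟨σ - 2 * y, by ring⟩
  obtain ⟨m, rfl⟩ : ∃ m, x = 3 * y + r + m := ⟨x - (3 * y + r), by ring⟩
  obtain ⟨d, hd⟩ : ∃ d, lam ^ 2 = (2 * y + r + y) * (3 * y + r + m) + y * lam + d :=
    ⟨lam ^ 2 - ((2 * y + r + y) * (3 * y + r + m) + y * lam), by ring⟩
  have hr : 0 ≤ r := by linarith
  have hm : 0 ≤ m := by linarith
  have hd0 : 0 ≤ d := by linarith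
  set X := 3 * y + r + m with hX
  set S := 2 * y + r with hS
  have key : S * (X * (X - y) * S ^ 2) * (lam * (lam + y) * (lam ^ 2 + 2 * X * lam + X * S)) -
      y * (y * (X + S) + X * S + S * (X + S - y)) * (X * (X - y) * S ^ 2 +
      (S - 2 * y) * (S - y) * (X + y) * (X + S - y)) * ((lam + X) * (lam + S)) =
      (((5688 * y ^ 9 + 16548 * y ^ 8 * r + 8724 * y ^ 8 * m + 19806 * y ^ 7 * r ^ 2 + 24128 * y ^ 7 * r * m) +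
      (4964 * y ^ 7 * m ^ 2 + 1368 * y ^ 7 * d + 13185 * y ^ 6 * r ^ 3 + 27886 * y ^ 6 * r ^ 2 * m + 12735 * y ^ 6 * r * m ^ 2) +
      (3764 * y ^ 6 * r * d + 1244 * y ^ 6 * m ^ 3 + 1596 * y ^ 6 * m * d + 5926 * y ^ 5 * r ^ 4 + 18476 * y ^ 5 * r ^ 3 * m) +
      (13576 * y ^ 5 * r ^ 2 * m ^ 2 + 4374 * y ^ 5 * r ^ 2 * d + 2894 * y ^ 5 * r * m ^ 3 + 3884 * y ^ 5 * r * m * d + 116 * y ^ 5 * m ^ 4) +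
      (608 * y ^ 5 * m ^ 2 * d + 48 * y ^ 5 * d ^ 2 + 2248 * y ^ 4 * r ^ 5 + 8337 * y ^ 4 * r ^ 4 * m + 8238 * y ^ 4 * r ^ 3 * m ^ 2)) +
      ((2857 * y ^ 4 * r ^ 3 * d + 2736 * y ^ 4 * r ^ 2 * m ^ 3 + 3886 * y ^ 4 * r ^ 2 * m * d + 239 * y ^ 4 * r * m ^ 4 + 1281 * y ^ 4 * r * m ^ 2 * d) +
      (112 * y ^ 4 * r * d ^ 2 + 76 * y ^ 4 * m ^ 3 * d + 40 * y ^ 4 * m * d ^ 2 + 779 * y ^ 3 * r ^ 6 + 2850 * y ^ 3 * r ^ 5 * m) +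
      (3286 * y ^ 3 * r ^ 4 * m ^ 2 + 1162 * y ^ 3 * r ^ 4 * d + 1431 * y ^ 3 * r ^ 3 * m ^ 3 + 2102 * y ^ 3 * r ^ 3 * m * d + 192 * y ^ 3 * r ^ 2 * m ^ 4) +
      (1063 * y ^ 3 * r ^ 2 * m ^ 2 * d + 104 * y ^ 3 * r ^ 2 * d ^ 2 + 135 * y ^ 3 * r * m ^ 3 * d + 76 * y ^ 3 * r * m * d ^ 2 + 8 * y ^ 3 * m ^ 2 * d ^ 2) +
      (203 * y ^ 2 * r ^ 7 + 721 * y ^ 2 * r ^ 6 * m + 900 * y ^ 2 * r ^ 5 * m ^ 2 + 299 * y ^ 2 * r ^ 5 * d + 463 * y ^ 2 * r ^ 4 * m ^ 3)) +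
      ((663 * y ^ 2 * r ^ 4 * m * d + 81 * y ^ 2 * r ^ 3 * m ^ 4 + 448 * y ^ 2 * r ^ 3 * m ^ 2 * d + 48 * y ^ 2 * r ^ 3 * d ^ 2 + 88 * y ^ 2 * r ^ 2 * m ^ 3 * d) +
      (54 * y ^ 2 * r ^ 2 * m * d ^ 2 + 12 * y ^ 2 * r * m ^ 2 * d ^ 2 + 31 * y * r ^ 8 + 114 * y * r ^ 7 * m + 154 * y * r ^ 6 * m ^ 2) +
      (45 * y * r ^ 6 * d + 90 * y * r ^ 5 * m ^ 3 + 117 * y * r ^ 5 * m * d + 19 * y * r ^ 4 * m ^ 4 + 98 * y * r ^ 4 * m ^ 2 * d) +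
      (11 * y * r ^ 4 * d ^ 2 + 26 * y * r ^ 3 * m ^ 3 * d + 17 * y * r ^ 3 * m * d ^ 2 + 6 * y * r ^ 2 * m ^ 2 * d ^ 2 + 2 * r ^ 9) +
      (8 * r ^ 8 * m + 12 * r ^ 7 * m ^ 2 + 3 * r ^ 7 * d + 8 * r ^ 6 * m ^ 3 + 9 * r ^ 6 * m * d)) +
      ((2 * r ^ 5 * m ^ 4 + 9 * r ^ 5 * m ^ 2 * d + r ^ 5 * d ^ 2 + 3 * r ^ 4 * m ^ 3 * d + 2 * r ^ 4 * m * d ^ 2) +
      (r ^ 3 * m ^ 2 * d ^ 2))) +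
      (((2400 * y ^ 8 + 6200 * y ^ 7 * r + 3368 * y ^ 7 * m + 6420 * y ^ 6 * r ^ 2 + 8408 * y ^ 6 * r * m) +
      (1708 * y ^ 6 * m ^ 2 + 432 * y ^ 6 * d + 3682 * y ^ 5 * r ^ 3 + 8652 * y ^ 5 * r ^ 2 * m + 3994 * y ^ 5 * r * m ^ 2) +
      (1104 * y ^ 5 * r * d + 368 * y ^ 5 * m ^ 3 + 456 * y ^ 5 * m * d + 1491 * y ^ 4 * r ^ 4 + 5116 * y ^ 4 * r ^ 3 * m) +
      (3814 * y ^ 4 * r ^ 2 * m ^ 2 + 1160 * y ^ 4 * r ^ 2 * d + 791 * y ^ 4 * r * m ^ 3 + 988 * y ^ 4 * r * m * d + 28 * y ^ 4 * m ^ 4) +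
      (152 * y ^ 4 * m ^ 2 * d + 529 * y ^ 3 * r ^ 5 + 2049 * y ^ 3 * r ^ 4 * m + 2046 * y ^ 3 * r ^ 3 * m ^ 2 + 640 * y ^ 3 * r ^ 3 * d)) +
      ((671 * y ^ 3 * r ^ 2 * m ^ 3 + 846 * y ^ 3 * r ^ 2 * m * d + 55 * y ^ 3 * r * m ^ 4 + 276 * y ^ 3 * r * m ^ 2 * d + 16 * y ^ 3 * m ^ 3 * d) +
      (153 * y ^ 2 * r ^ 6 + 579 * y ^ 2 * r ^ 5 * m + 685 * y ^ 2 * r ^ 4 * m ^ 2 + 195 * y ^ 2 * r ^ 4 * d + 303 * y ^ 2 * r ^ 3 * m ^ 3) +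
      (357 * y ^ 2 * r ^ 3 * m * d + 40 * y ^ 2 * r ^ 2 * m ^ 4 + 186 * y ^ 2 * r ^ 2 * m ^ 2 * d + 24 * y ^ 2 * r * m ^ 3 * d + 27 * y * r ^ 7) +
      (102 * y * r ^ 6 * m + 136 * y * r ^ 5 * m ^ 2 + 31 * y * r ^ 5 * d + 75 * y * r ^ 4 * m ^ 3 + 74 * y * r ^ 4 * m * d) +
      (14 * y * r ^ 3 * m ^ 4 + 55 * y * r ^ 3 * m ^ 2 * d + 12 * y * r ^ 2 * m ^ 3 * d + 2 * r ^ 8 + 8 * r ^ 7 * m)) +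
      ((12 * r ^ 6 * m ^ 2 + 2 * r ^ 6 * d + 8 * r ^ 5 * m ^ 3 + 6 * r ^ 5 * m * d + 2 * r ^ 4 * m ^ 4) +
      (6 * r ^ 4 * m ^ 2 * d + 2 * r ^ 3 * m ^ 3 * d))) * lam := by
    have e1 : S * (X * (X - y) * S ^ 2) * (lam * (lam + y) * (lam ^ 2 + 2 * X * lam + X * S)) -
      y * (y * (X + S) + X * S + S * (X + S - y)) * (X * (X - y) * S ^ 2 +
      (S - 2 * y) * (S - y) * (X + y) * (X + S - y)) * ((lam + X) * (lam + S)) =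
      (S * (X * (X - y) * S ^ 2) * (((S + y) * X + d) ^ 2 + y ^ 2 * ((S + y) * X + d) +
        (2 * X + y) * y * ((S + y) * X + d) + (X * S + 2 * X * y) * ((S + y) * X + d)) -
      y * (y * (X + S) + X * S + S * (X + S - y)) * (X * (X - y) * S ^ 2 +
      (S - 2 * y) * (S - y) * (X + y) * (X + S - y)) * (((S + y) * X + d) + X * S)) +
      (S * (X * (X - y) * S ^ 2) * (2 * ((S + y) * X + d) * y + y ^ 3 +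
        (2 * X + y) * (((S + y) * X + d) + y ^ 2) + (X * S + 2 * X * y) * y + X * y * S) -
      y * (y * (X + S) + X * S + S * (X + S - y)) * (X * (X - y) * S ^ 2 +
      (S - 2 * y) * (S - y) * (X + y) * (X + S - y)) * (y + (X + S))) * lam := by
      linear_combination (S * (X * (X - y) * S ^ 2) * lam ^ 2 +
        S * (X * (X - y) * S ^ 2) * (2 * X + 2 * y) * lam +
        (S * (X * (X - y) * S ^ 2) * (X * S + 2 * X * y) -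
        y * (y * (X + S) + X * S + S * (X + S - y)) * (X * (X - y) * S ^ 2 +
        (S - 2 * y) * (S - y) * (X + y) * (X + S - y)) +
        y * (S * (X * (X - y) * S ^ 2)) * (2 * X + 2 * y) +
        ((S + y) * X + d) * (S * (X * (X - y) * S ^ 2)))) * hd
    rw [e1, hX, hS]
    ring
  have h0 : 0 ≤ (((5688 * y ^ 9 + 16548 * y ^ 8 * r + 8724 * y ^ 8 * m + 19806 * y ^ 7 * r ^ 2 + 24128 * y ^ 7 * r * m) +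
      (4964 * y ^ 7 * m ^ 2 + 1368 * y ^ 7 * d + 13185 * y ^ 6 * r ^ 3 + 27886 * y ^ 6 * r ^ 2 * m + 12735 * y ^ 6 * r * m ^ 2) +
      (3764 * y ^ 6 * r * d + 1244 * y ^ 6 * m ^ 3 + 1596 * y ^ 6 * m * d + 5926 * y ^ 5 * r ^ 4 + 18476 * y ^ 5 * r ^ 3 * m) +
      (13576 * y ^ 5 * r ^ 2 * m ^ 2 + 4374 * y ^ 5 * r ^ 2 * d + 2894 * y ^ 5 * r * m ^ 3 + 3884 * y ^ 5 * r * m * d + 116 * y ^ 5 * m ^ 4) +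
      (608 * y ^ 5 * m ^ 2 * d + 48 * y ^ 5 * d ^ 2 + 2248 * y ^ 4 * r ^ 5 + 8337 * y ^ 4 * r ^ 4 * m + 8238 * y ^ 4 * r ^ 3 * m ^ 2)) +
      ((2857 * y ^ 4 * r ^ 3 * d + 2736 * y ^ 4 * r ^ 2 * m ^ 3 + 3886 * y ^ 4 * r ^ 2 * m * d + 239 * y ^ 4 * r * m ^ 4 + 1281 * y ^ 4 * r * m ^ 2 * d) +
      (112 * y ^ 4 * r * d ^ 2 + 76 * y ^ 4 * m ^ 3 * d + 40 * y ^ 4 * m * d ^ 2 + 779 * y ^ 3 * r ^ 6 + 2850 * y ^ 3 * r ^ 5 * m) +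
      (3286 * y ^ 3 * r ^ 4 * m ^ 2 + 1162 * y ^ 3 * r ^ 4 * d + 1431 * y ^ 3 * r ^ 3 * m ^ 3 + 2102 * y ^ 3 * r ^ 3 * m * d + 192 * y ^ 3 * r ^ 2 * m ^ 4) +
      (1063 * y ^ 3 * r ^ 2 * m ^ 2 * d + 104 * y ^ 3 * r ^ 2 * d ^ 2 + 135 * y ^ 3 * r * m ^ 3 * d + 76 * y ^ 3 * r * m * d ^ 2 + 8 * y ^ 3 * m ^ 2 * d ^ 2) +
      (203 * y ^ 2 * r ^ 7 + 721 * y ^ 2 * r ^ 6 * m + 900 * y ^ 2 * r ^ 5 * m ^ 2 + 299 * y ^ 2 * r ^ 5 * d + 463 * y ^ 2 * r ^ 4 * m ^ 3)) +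
      ((663 * y ^ 2 * r ^ 4 * m * d + 81 * y ^ 2 * r ^ 3 * m ^ 4 + 448 * y ^ 2 * r ^ 3 * m ^ 2 * d + 48 * y ^ 2 * r ^ 3 * d ^ 2 + 88 * y ^ 2 * r ^ 2 * m ^ 3 * d) +
      (54 * y ^ 2 * r ^ 2 * m * d ^ 2 + 12 * y ^ 2 * r * m ^ 2 * d ^ 2 + 31 * y * r ^ 8 + 114 * y * r ^ 7 * m + 154 * y * r ^ 6 * m ^ 2) +
      (45 * y * r ^ 6 * d + 90 * y * r ^ 5 * m ^ 3 + 117 * y * r ^ 5 * m * d + 19 * y * r ^ 4 * m ^ 4 + 98 * y * r ^ 4 * m ^ 2 * d) +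
      (11 * y * r ^ 4 * d ^ 2 + 26 * y * r ^ 3 * m ^ 3 * d + 17 * y * r ^ 3 * m * d ^ 2 + 6 * y * r ^ 2 * m ^ 2 * d ^ 2 + 2 * r ^ 9) +
      (8 * r ^ 8 * m + 12 * r ^ 7 * m ^ 2 + 3 * r ^ 7 * d + 8 * r ^ 6 * m ^ 3 + 9 * r ^ 6 * m * d)) +
      ((2 * r ^ 5 * m ^ 4 + 9 * r ^ 5 * m ^ 2 * d + r ^ 5 * d ^ 2 + 3 * r ^ 4 * m ^ 3 * d + 2 * r ^ 4 * m * d ^ 2) +
      (r ^ 3 * m ^ 2 * d ^ 2))) +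
      (((2400 * y ^ 8 + 6200 * y ^ 7 * r + 3368 * y ^ 7 * m + 6420 * y ^ 6 * r ^ 2 + 8408 * y ^ 6 * r * m) +
      (1708 * y ^ 6 * m ^ 2 + 432 * y ^ 6 * d + 3682 * y ^ 5 * r ^ 3 + 8652 * y ^ 5 * r ^ 2 * m + 3994 * y ^ 5 * r * m ^ 2) +
      (1104 * y ^ 5 * r * d + 368 * y ^ 5 * m ^ 3 + 456 * y ^ 5 * m * d + 1491 * y ^ 4 * r ^ 4 + 5116 * y ^ 4 * r ^ 3 * m) +
      (3814 * y ^ 4 * r ^ 2 * m ^ 2 + 1160 * y ^ 4 * r ^ 2 * d + 791 * y ^ 4 * r * m ^ 3 + 988 * y ^ 4 * r * m * d + 28 * y ^ 4 * m ^ 4) +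
      (152 * y ^ 4 * m ^ 2 * d + 529 * y ^ 3 * r ^ 5 + 2049 * y ^ 3 * r ^ 4 * m + 2046 * y ^ 3 * r ^ 3 * m ^ 2 + 640 * y ^ 3 * r ^ 3 * d)) +
      ((671 * y ^ 3 * r ^ 2 * m ^ 3 + 846 * y ^ 3 * r ^ 2 * m * d + 55 * y ^ 3 * r * m ^ 4 + 276 * y ^ 3 * r * m ^ 2 * d + 16 * y ^ 3 * m ^ 3 * d) +
      (153 * y ^ 2 * r ^ 6 + 579 * y ^ 2 * r ^ 5 * m + 685 * y ^ 2 * r ^ 4 * m ^ 2 + 195 * y ^ 2 * r ^ 4 * d + 303 * y ^ 2 * r ^ 3 * m ^ 3) +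
      (357 * y ^ 2 * r ^ 3 * m * d + 40 * y ^ 2 * r ^ 2 * m ^ 4 + 186 * y ^ 2 * r ^ 2 * m ^ 2 * d + 24 * y ^ 2 * r * m ^ 3 * d + 27 * y * r ^ 7) +
      (102 * y * r ^ 6 * m + 136 * y * r ^ 5 * m ^ 2 + 31 * y * r ^ 5 * d + 75 * y * r ^ 4 * m ^ 3 + 74 * y * r ^ 4 * m * d) +
      (14 * y * r ^ 3 * m ^ 4 + 55 * y * r ^ 3 * m ^ 2 * d + 12 * y * r ^ 2 * m ^ 3 * d + 2 * r ^ 8 + 8 * r ^ 7 * m)) +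
      ((12 * r ^ 6 * m ^ 2 + 2 * r ^ 6 * d + 8 * r ^ 5 * m ^ 3 + 6 * r ^ 5 * m * d + 2 * r ^ 4 * m ^ 4) +
      (6 * r ^ 4 * m ^ 2 * d + 2 * r ^ 3 * m ^ 3 * d))) * lam := by
    positivity
  linarith

end Pool.Agent.Helper66.SW
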