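import Mathlib

/-!
Explicit polynomial inequalities (E3) for class (iii) of note 1070.
-/

set_option autoImplicit false
set_option maxRecDepth 20000

namespace Pool.Agent.Helper66.SW

theorem E3K0 {x σ y g : ℝ} (hg : g = x + σ) (hy : 0 < y) (hσ : y ≤ σ) (hx : σ + y ≤ x) :
    (x + g) * y * (σ - y) ≤ (x - y) * σ * (σ + y) := by
  subst hg
  obtain ⟨r, rfl⟩ : ∃ r, σ = y + r := ⟨σ - y, by ring⟩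
  obtain ⟨m, rfl⟩ : ∃ m, x = 2 * y + r + m := ⟨x - (2 * y + r), by ring⟩
  have hr : 0 ≤ r := by linarith
  have hm : 0 ≤ m := by linarith
  have key : (2 * y + r + m - y) * (y + r) * (y + r + y) -
      (2 * y + r + m + (2 * y + r + m + (y + r))) * y * (y + r - y) =
      2 * y ^ 3 + 2 * y ^ 2 * m + y * r ^ 2 + y * r * m + r ^ 3 + r ^ 2 * m := by ring
  have h0 : 0 ≤ 2 * y ^ 3 + 2 * y ^ 2 * m + y * r ^ 2 + y * r * m + r ^ 3 + r ^ 2 * m := by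
    positivity
  linarith

theorem E3a {x σ y g : ℝ} (hg : g = x + σ) (hy : 0 < y) (hσ : y ≤ σ) (hx : σ + y ≤ x) :
    (x + g) * y * (σ - y) * (x - y) * σ * (2 * σ + y) +
      (x + g) * (σ - y) * (σ + y) * (x * y * (2 * σ + y) - σ ^ 2 * (σ + 2 * y)) ≤
      (x - y) ^ 2 * σ ^ 2 * (σ + y) * (2 * σ + y) := by
  subst hg
  obtain ⟨r, rfl⟩ : ∃ r, σ = y + r := ⟨σ - y, by ring⟩
  obtain ⟨m, rfl⟩ : ∃ m, x = 2 * y + r + m := ⟨x - (2 * y + r), by ring⟩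
  have hr : 0 ≤ r := by linarith
  have hm : 0 ≤ m := by linarith
  have key : (2 * y + r + m - y) ^ 2 * (y + r) ^ 2 * (y + r + y) * (2 * (y + r) + y) -
      ((2 * y + r + m + (2 * y + r + m + (y + r))) * y * (y + r - y) * (2 * y + r + m - y) *
        (y + r) * (2 * (y + r) + y) +
      (2 * y + r + m + (2 * y + r + m + (y + r))) * (y + r - y) * (y + r + y) *
        ((2 * y + r + m) * y * (2 * (y + r) + y) - (y + r) ^ 2 * (y + r + 2 * y))) =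
      1 / 96 * y ^ 2 * (24 * y ^ 2 - 28 * y * r - 49 * r ^ 2 + 24 * y * m) ^ 2 +
      1 / 3 * y ^ 4 * r ^ 2 + y ^ 2 * r * m * ((y - 5 / 4 * r) ^ 2 + 103 / 16 * r ^ 2) +
      89 / 12 * y ^ 3 * r ^ 3 + y * r * m ^ 2 * ((y - r) ^ 2 + 2 * r ^ 2) +
      3167 / 96 * y ^ 2 * r ^ 4 + 29 * y * r ^ 5 + 20 * y * r ^ 4 * m + 5 * r ^ 6 +
      6 * r ^ 5 * m + 2 * r ^ 4 * m ^ 2 := by ring
  have h0 : 0 ≤ 1 / 96 * y ^ 2 * (24 * y ^ 2 - 28 * y * r - 49 * r ^ 2 + 24 * y * m) ^ 2 +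
      1 / 3 * y ^ 4 * r ^ 2 + y ^ 2 * r * m * ((y - 5 / 4 * r) ^ 2 + 103 / 16 * r ^ 2) +
      89 / 12 * y ^ 3 * r ^ 3 + y * r * m ^ 2 * ((y - r) ^ 2 + 2 * r ^ 2) +
      3167 / 96 * y ^ 2 * r ^ 4 + 29 * y * r ^ 5 + 20 * y * r ^ 4 * m + 5 * r ^ 6 +
      6 * r ^ 5 * m + 2 * r ^ 4 * m ^ 2 := by positivity
  linarith

theorem E3b {x σ y g z : ℝ} (hg : g = x + σ) (hy : 0 < y) (hz : y ≤ z) (hzσ : z + y ≤ σ)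
    (hx : σ + y ≤ x) :
    (x + g) * y * (σ - 2 * y) * (x - y) * x * σ * (2 * σ + y) +
      (x + g) * (z - y) * (σ + y) * (y * (g - z) ^ 2 * (2 * σ + y) -
        x * σ ^ 2 * (σ + 2 * y)) ≤
      (x - y) ^ 2 * x * σ ^ 2 * (σ + y) * (2 * σ + y) := by
  subst hg
  obtain ⟨r, rfl⟩ : ∃ r, z = y + r := ⟨z - y, by ring⟩
  obtain ⟨e, rfl⟩ : ∃ e, σ = 2 * y + r + e := ⟨σ - (2 * y + r), by ring⟩
  obtain ⟨m, rfl⟩ : ∃ m, x = 3 * y + r + e + m := ⟨x - (3 * y + r + e), by ring⟩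
  have hr : 0 ≤ r := by linarith
  have he : 0 ≤ e := by linarith
  have hm : 0 ≤ m := by linarith
  have key : (3 * y + r + e + m - y) ^ 2 * (3 * y + r + e + m) * (2 * y + r + e) ^ 2 *
      (2 * y + r + e + y) * (2 * (2 * y + r + e) + y) -
      ((3 * y + r + e + m + (3 * y + r + e + m + (2 * y + r + e))) * y *
        (2 * y + r + e - 2 * y) * (3 * y + r + e + m - y) * (3 * y + r + e + m) *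
        (2 * y + r + e) * (2 * (2 * y + r + e) + y) +
      (3 * y + r + e + m + (3 * y + r + e + m + (2 * y + r + e))) * (y + r - y) *
        (2 * y + r + e + y) * (y * (3 * y + r + e + m + (2 * y + r + e) - (y + r)) ^ 2 *
        (2 * (2 * y + r + e) + y) -
        (3 * y + r + e + m) * (2 * y + r + e) ^ 2 * (2 * y + r + e + 2 * y))) =
      ((720 * y ^ 7 + 960 * y ^ 6 * r + 1728 * y ^ 6 * e + 960 * y ^ 6 * m + 1428 * y ^ 5 * r ^ 2) +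
      (2344 * y ^ 5 * r * e + 1216 * y ^ 5 * r * m + 1876 * y ^ 5 * e ^ 2 + 1984 * y ^ 5 * e * m + 420 * y ^ 5 * m ^ 2) +
      (1764 * y ^ 4 * r ^ 3 + 3464 * y ^ 4 * r ^ 2 * e + 1238 * y ^ 4 * r ^ 2 * m + 2820 * y ^ 4 * r * e ^ 2 + 2588 * y ^ 4 * r * e * m) +
      (464 * y ^ 4 * r * m ^ 2 + 1240 * y ^ 4 * e ^ 3 + 1830 * y ^ 4 * e ^ 2 * m + 728 * y ^ 4 * e * m ^ 2 + 60 * y ^ 4 * m ^ 3) +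
      (1167 * y ^ 3 * r ^ 4 + 3391 * y ^ 3 * r ^ 3 * e + 1069 * y ^ 3 * r ^ 3 * m + 3696 * y ^ 3 * r ^ 2 * e ^ 2 + 2637 * y ^ 3 * r ^ 2 * e * m)) +
      ((332 * y ^ 3 * r ^ 2 * m ^ 2 + 2020 * y ^ 3 * r * e ^ 3 + 2539 * y ^ 3 * r * e ^ 2 * m + 821 * y ^ 3 * r * e * m ^ 2 + 54 * y ^ 3 * r * m ^ 3) +
      (548 * y ^ 3 * e ^ 4 + 1001 * y ^ 3 * e ^ 3 * m + 549 * y ^ 3 * e ^ 2 * m ^ 2 + 84 * y ^ 3 * e * m ^ 3 + 405 * y ^ 2 * r ^ 5) +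
      (1633 * y ^ 2 * r ^ 4 * e + 519 * y ^ 2 * r ^ 4 * m + 2579 * y ^ 2 * r ^ 3 * e ^ 2 + 1728 * y ^ 2 * r ^ 3 * e * m + 198 * y ^ 2 * r ^ 3 * m ^ 2) +
      (2038 * y ^ 2 * r ^ 2 * e ^ 3 + 2222 * y ^ 2 * r ^ 2 * e ^ 2 * m + 587 * y ^ 2 * r ^ 2 * e * m ^ 2 + 27 * y ^ 2 * r ^ 2 * m ^ 3 + 846 * y ^ 2 * r * e ^ 4) +
      (1358 * y ^ 2 * r * e ^ 3 * m + 624 * y ^ 2 * r * e ^ 2 * m ^ 2 + 76 * y ^ 2 * r * e * m ^ 3 + 159 * y ^ 2 * e ^ 5 + 345 * y ^ 2 * e ^ 4 * m)) +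
      ((235 * y ^ 2 * e ^ 3 * m ^ 2 + 49 * y ^ 2 * e ^ 2 * m ^ 3 + 71 * y * r ^ 6 + 370 * y * r ^ 5 * e + 122 * y * r ^ 5 * m) +
      (791 * y * r ^ 4 * e ^ 2 + 537 * y * r ^ 4 * e * m + 65 * y * r ^ 4 * m ^ 2 + 890 * y * r ^ 3 * e ^ 3 + 944 * y * r ^ 3 * e ^ 2 * m) +
      (244 * y * r ^ 3 * e * m ^ 2 + 11 * y * r ^ 3 * m ^ 3 + 559 * y * r ^ 2 * e ^ 4 + 834 * y * r ^ 2 * e ^ 3 * m + 350 * y * r ^ 2 * e ^ 2 * m ^ 2) +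
      (37 * y * r ^ 2 * e * m ^ 3 + 188 * y * r * e ^ 5 + 374 * y * r * e ^ 4 * m + 228 * y * r * e ^ 3 * m ^ 2 + 41 * y * r * e ^ 2 * m ^ 3) +
      (27 * y * e ^ 6 + 69 * y * e ^ 5 * m + 57 * y * e ^ 4 * m ^ 2 + 15 * y * e ^ 3 * m ^ 3 + 5 * r ^ 7)) +
      ((32 * r ^ 6 * e + 11 * r ^ 6 * m + 87 * r ^ 5 * e ^ 2 + 61 * r ^ 5 * e * m + 8 * r ^ 5 * m ^ 2) +
      (130 * r ^ 4 * e ^ 3 + 140 * r ^ 4 * e ^ 2 * m + 38 * r ^ 4 * e * m ^ 2 + 2 * r ^ 4 * m ^ 3 + 115 * r ^ 3 * e ^ 4) +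
      (170 * r ^ 3 * e ^ 3 * m + 72 * r ^ 3 * e ^ 2 * m ^ 2 + 8 * r ^ 3 * e * m ^ 3 + 60 * r ^ 2 * e ^ 5 + 115 * r ^ 2 * e ^ 4 * m) +
      (68 * r ^ 2 * e ^ 3 * m ^ 2 + 12 * r ^ 2 * e ^ 2 * m ^ 3 + 17 * r * e ^ 6 + 41 * r * e ^ 5 * m + 32 * r * e ^ 4 * m ^ 2) +
      (8 * r * e ^ 3 * m ^ 3 + 2 * e ^ 7 + 6 * e ^ 6 * m + 6 * e ^ 5 * m ^ 2 + 2 * e ^ 4 * m ^ 3)) := by ring
  have h0 : 0 ≤ ((720 * y ^ 7 + 960 * y ^ 6 * r + 1728 * y ^ 6 * e + 960 * y ^ 6 * m + 1428 * y ^ 5 * r ^ 2) +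
      (2344 * y ^ 5 * r * e + 1216 * y ^ 5 * r * m + 1876 * y ^ 5 * e ^ 2 + 1984 * y ^ 5 * e * m + 420 * y ^ 5 * m ^ 2) +
      (1764 * y ^ 4 * r ^ 3 + 3464 * y ^ 4 * r ^ 2 * e + 1238 * y ^ 4 * r ^ 2 * m + 2820 * y ^ 4 * r * e ^ 2 + 2588 * y ^ 4 * r * e * m) +
      (464 * y ^ 4 * r * m ^ 2 + 1240 * y ^ 4 * e ^ 3 + 1830 * y ^ 4 * e ^ 2 * m + 728 * y ^ 4 * e * m ^ 2 + 60 * y ^ 4 * m ^ 3) +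
      (1167 * y ^ 3 * r ^ 4 + 3391 * y ^ 3 * r ^ 3 * e + 1069 * y ^ 3 * r ^ 3 * m + 3696 * y ^ 3 * r ^ 2 * e ^ 2 + 2637 * y ^ 3 * r ^ 2 * e * m)) +
      ((332 * y ^ 3 * r ^ 2 * m ^ 2 + 2020 * y ^ 3 * r * e ^ 3 + 2539 * y ^ 3 * r * e ^ 2 * m + 821 * y ^ 3 * r * e * m ^ 2 + 54 * y ^ 3 * r * m ^ 3) +
      (548 * y ^ 3 * e ^ 4 + 1001 * y ^ 3 * e ^ 3 * m + 549 * y ^ 3 * e ^ 2 * m ^ 2 + 84 * y ^ 3 * e * m ^ 3 + 405 * y ^ 2 * r ^ 5) +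
      (1633 * y ^ 2 * r ^ 4 * e + 519 * y ^ 2 * r ^ 4 * m + 2579 * y ^ 2 * r ^ 3 * e ^ 2 + 1728 * y ^ 2 * r ^ 3 * e * m + 198 * y ^ 2 * r ^ 3 * m ^ 2) +
      (2038 * y ^ 2 * r ^ 2 * e ^ 3 + 2222 * y ^ 2 * r ^ 2 * e ^ 2 * m + 587 * y ^ 2 * r ^ 2 * e * m ^ 2 + 27 * y ^ 2 * r ^ 2 * m ^ 3 + 846 * y ^ 2 * r * e ^ 4) +
      (1358 * y ^ 2 * r * e ^ 3 * m + 624 * y ^ 2 * r * e ^ 2 * m ^ 2 + 76 * y ^ 2 * r * e * m ^ 3 + 159 * y ^ 2 * e ^ 5 + 345 * y ^ 2 * e ^ 4 * m)) +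
      ((235 * y ^ 2 * e ^ 3 * m ^ 2 + 49 * y ^ 2 * e ^ 2 * m ^ 3 + 71 * y * r ^ 6 + 370 * y * r ^ 5 * e + 122 * y * r ^ 5 * m) +
      (791 * y * r ^ 4 * e ^ 2 + 537 * y * r ^ 4 * e * m + 65 * y * r ^ 4 * m ^ 2 + 890 * y * r ^ 3 * e ^ 3 + 944 * y * r ^ 3 * e ^ 2 * m) +
      (244 * y * r ^ 3 * e * m ^ 2 + 11 * y * r ^ 3 * m ^ 3 + 559 * y * r ^ 2 * e ^ 4 + 834 * y * r ^ 2 * e ^ 3 * m + 350 * y * r ^ 2 * e ^ 2 * m ^ 2) +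
      (37 * y * r ^ 2 * e * m ^ 3 + 188 * y * r * e ^ 5 + 374 * y * r * e ^ 4 * m + 228 * y * r * e ^ 3 * m ^ 2 + 41 * y * r * e ^ 2 * m ^ 3) +
      (27 * y * e ^ 6 + 69 * y * e ^ 5 * m + 57 * y * e ^ 4 * m ^ 2 + 15 * y * e ^ 3 * m ^ 3 + 5 * r ^ 7)) +
      ((32 * r ^ 6 * e + 11 * r ^ 6 * m + 87 * r ^ 5 * e ^ 2 + 61 * r ^ 5 * e * m + 8 * r ^ 5 * m ^ 2) +
      (130 * r ^ 4 * e ^ 3 + 140 * r ^ 4 * e ^ 2 * m + 38 * r ^ 4 * e * m ^ 2 + 2 * r ^ 4 * m ^ 3 + 115 * r ^ 3 * e ^ 4) +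
      (170 * r ^ 3 * e ^ 3 * m + 72 * r ^ 3 * e ^ 2 * m ^ 2 + 8 * r ^ 3 * e * m ^ 3 + 60 * r ^ 2 * e ^ 5 + 115 * r ^ 2 * e ^ 4 * m) +
      (68 * r ^ 2 * e ^ 3 * m ^ 2 + 12 * r ^ 2 * e ^ 2 * m ^ 3 + 17 * r * e ^ 6 + 41 * r * e ^ 5 * m + 32 * r * e ^ 4 * m ^ 2) +
      (8 * r * e ^ 3 * m ^ 3 + 2 * e ^ 7 + 6 * e ^ 6 * m + 6 * e ^ 5 * m ^ 2 + 2 * e ^ 4 * m ^ 3)) := by
    positivity
  linarith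

end Pool.Agent.Helper66.SW
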