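import Pool.Agent.Helper66.SW.Sub
import Pool.Agent.Helper66.SW.Ineq
import Pool.Agent.Helper66.SW.Ineq2

/-!
S-world: the slope inequality (B_w) for even legs (note 1070).
-/

set_option autoImplicit false

namespace Pool.Agent.Helper66.SW

open Pool.Agent.Helper4.SW Pool.Agent.Helper31.SW
open Finset

variable {q : ℕ} {w : Fin q → ℝ} {y : ℝ}

/-- two parts, or at least three -/
theorem two_or (h : Hyp w y) (t : Fin q) : (∀ j, j ≠ t → w j = 1 - w t) ∨
    ((∀ j, j ≠ t → w j + y ≤ 1 - w t) ∧ ∑ j ∈ univ.erase t, (w j - y) ≤ (1 - w t) - 2 * y ∧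
      2 * y ≤ 1 - w t) := by
  have hc : (univ.erase t).card = q - 1 := by
    rw [card_erase_of_mem (mem_univ t), card_univ, Fintype.card_fin]
  rcases Nat.lt_or_ge q 3 with hq | hq
  · left
    intro j hj
    have h2 := h.two
    have h1 : (univ.erase t).card = 1 := by omega
    obtain ⟨k, hk⟩ := card_eq_one.1 h1
    have hjk : j ∈ univ.erase t := mem_erase.2 ⟨hj, mem_univ j⟩
    rw [hk, mem_singleton] at hjk
    have := sum_erase h t
    rw [hk, sum_singleton] at this
    rw [hjk, this]
  · right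
    have hy := h.hy
    have hsum : ∑ j ∈ univ.erase t, (w j - y) ≤ (1 - w t) - 2 * y := by
      rw [sum_sub_distrib, sum_erase h t, sum_const, hc, nsmul_eq_mul]
      have : (2 : ℝ) ≤ ((q - 1 : ℕ) : ℝ) := by exact_mod_cast (by omega : 2 ≤ q - 1)
      have := mul_le_mul_of_nonneg_right this hy.le
      linarith
    refine ⟨fun j hj => ?_, hsum, ?_⟩
    · have hjk : j ∈ univ.erase t := mem_erase.2 ⟨hj, mem_univ j⟩
      have h1 : 1 < (univ.erase t).card := by omega
      obtain ⟨k, hk, hkj⟩ := exists_mem_ne h1 j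
      have h3 : w j + w k ≤ ∑ i ∈ univ.erase t, w i := by
        have := sum_le_sum_of_subset_of_nonneg
          (show ({j, k} : Finset (Fin q)) ⊆ univ.erase t from by
            intro i hi
            rw [mem_insert, mem_singleton] at hi
            rcases hi with rfl | rfl
            · exact hjk
            · exact hk) (f := w) fun i _ _ => h.nn i
        rwa [sum_pair hkj.symm] at this
      rw [sum_erase h t] at h3
      have := (h.lt k).le
      linarith
    · have h0 : 0 ≤ ∑ j ∈ univ.erase t, (w j - y) :=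
        sum_nonneg fun j _ => sub_nonneg.2 (h.lt j).le
      linarith

theorem top_half (h : Hyp w y) {t : Fin q} (ht : Top w t) : (1 - w t) + y ≤ w t := by
  obtain ⟨i, hi⟩ := h.half
  have := ht i
  linarith

/-- (E2) in terms of the parts -/
theorem E2h (h : Hyp w y) {lam : ℝ} (hp : PerA w y lam) {t : Fin q} (ht : Top w t) :
    y * l w y 2 * (w t * (w t - y) * (1 - w t) ^ 2 +
      ∑ j ∈ univ.erase t, w j * (w j - y) * (1 - w j) ^ 2) *
      ((lam + w t) * (lam + (1 - w t))) ≤
    (w t - y) * w t * (1 - w t) ^ 3 *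
      (lam * (lam + y) * (lam ^ 2 + 2 * w t * lam + w t * (1 - w t))) := by
  have hy := h.hy
  have hl := hp.1
  have hx := h.pos t
  have hσ := y_le_sig h t
  have hh := top_half h ht
  have hsq := lam_sq h hp t
  have hu : 0 < w t - y := sub_pos.2 (h.lt t)
  have hσ0 : 0 < 1 - w t := hy.trans_le hσ
  have hl2 := l_two h
  rw [sum_split _ t] at hl2
  have hpos : 0 ≤ (lam + w t) * (lam + (1 - w t)) := by positivity
  rcases two_or h t with h2 | ⟨h2, h3, h4⟩
  · have e1 : ∑ j ∈ univ.erase t, w j * (w j - y) * (1 - w j) ^ 2 =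
        (1 - w t) * ((1 - w t) - y) * w t ^ 2 := by
      have : ∀ j ∈ univ.erase t, w j * (w j - y) * (1 - w j) ^ 2 =
          w j * (((1 - w t) - y) * w t ^ 2) := by
        intro j hj
        have := h2 j (ne_of_mem_erase hj)
        nth_rw 2 [this]
        nth_rw 2 [this]
        ring
      rw [sum_congr rfl this, ← sum_mul, sum_erase h t]
      ring
    have e2 : ∑ j ∈ univ.erase t, w j * (1 - w j) = (1 - w t) * w t := by
      have : ∀ j ∈ univ.erase t, w j * (1 - w j) = w j * w t := by
        intro j hj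
        have := h2 j (ne_of_mem_erase hj)
        nth_rw 2 [this]
        ring
      rw [sum_congr rfl this, ← sum_mul, sum_erase h t]
    rw [e2] at hl2
    have key := E2a (x := w t) (σ := 1 - w t) (y := y) (lam := lam) (g := 1) (by ring) hy hσ hh
      hl hsq
    have hk := mul_le_mul_of_nonneg_left key (mul_nonneg hx.le hσ0.le)
    rw [e1, hl2]
    refine le_trans (le_of_eq ?_) (hk.trans (le_of_eq ?_))
    · ring
    · ring
  · have e1 : ∑ j ∈ univ.erase t, w j * (w j - y) * (1 - w j) ^ 2 ≤
        ((1 - w t) - 2 * y) * ((1 - w t) - y) * (w t + y) * (1 - y) := by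
      have hb : ∀ j ∈ univ.erase t, w j * (w j - y) * (1 - w j) ^ 2 ≤
          (w j - y) * (((1 - w t) - y) * (w t + y) * (1 - y)) := by
        intro j hj
        have a1 := h2 j (ne_of_mem_erase hj)
        have a2 := h.lt j
        have a3 : w j * (1 - w j) ≤ ((1 - w t) - y) * (w t + y) := by
          have e3 : ((1 - w t) - y) * (w t + y) - w j * (1 - w j) =
              ((1 - w t) - y - w j) * (w t + y - w j) := by ring
          have := mul_nonneg (by linarith : 0 ≤ (1 - w t) - y - w j)
            (by have := ht j; linarith : 0 ≤ w t + y - w j)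
          linarith
        have a4 : 0 ≤ w j * (1 - w j) := mul_nonneg (h.nn j) (by linarith)
        have a5 : w j * (1 - w j) * (1 - w j) ≤ ((1 - w t) - y) * (w t + y) * (1 - y) :=
          mul_le_mul a3 (by linarith) (by linarith) (a4.trans a3)
        have a6 := mul_le_mul_of_nonneg_left a5 (sub_nonneg.2 a2.le)
        calc _ = (w j - y) * (w j * (1 - w j) * (1 - w j)) := by ring
          _ ≤ _ := a6
      refine (sum_le_sum hb).trans ?_
      rw [← sum_mul]
      have a7 : 0 ≤ ((1 - w t) - y) * (w t + y) * (1 - y) :=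
        mul_nonneg (mul_nonneg (by linarith) (by linarith)) (by linarith)
      calc _ ≤ ((1 - w t) - 2 * y) * (((1 - w t) - y) * (w t + y) * (1 - y)) :=
            mul_le_mul_of_nonneg_right h3 a7
        _ = _ := by ring
    have e2 : ∑ j ∈ univ.erase t, w j * (1 - w j) ≤ (1 - w t) * (1 - y) := by
      rw [← sum_erase h t, sum_mul]
      refine sum_le_sum fun j _ => mul_le_mul_of_nonneg_left ?_ (h.nn j)
      have := (h.lt j).le
      linarith
    have hl2' : l w y 2 ≤ y * 1 + w t * (1 - w t) + (1 - w t) * (1 - y) := by linarith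
    have key := E2b (x := w t) (σ := 1 - w t) (y := y) (lam := lam) (g := 1) (by ring) hy h4 hh
      hl hsq
    have s0 : 0 ≤ ∑ j ∈ univ.erase t, w j * (w j - y) * (1 - w j) ^ 2 := sum_nonneg fun j _ =>
      mul_nonneg (mul_nonneg (h.nn j) (sub_nonneg.2 (h.lt j).le)) (sq_nonneg _)
    have s1 : 0 ≤ w t * (w t - y) * (1 - w t) ^ 2 := by positivity
    have hl20 : 0 ≤ l w y 2 := l_nonneg h.nn hy.le 2
    calc _ ≤ y * (y * 1 + w t * (1 - w t) + (1 - w t) * (1 - y)) * (w t * (w t - y) *
          (1 - w t) ^ 2 + ((1 - w t) - 2 * y) * ((1 - w t) - y) * (w t + y) * (1 - y)) *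
          ((lam + w t) * (lam + (1 - w t))) := by
          refine mul_le_mul_of_nonneg_right ?_ hpos
          refine mul_le_mul (mul_le_mul_of_nonneg_left hl2' hy.le) ?_ (add_nonneg s1 s0)
            (mul_nonneg hy.le (hl20.trans hl2'))
          linarith
      _ ≤ _ := key
      _ = _ := by ring

/-- (A1) -/
theorem A1_even (h : Hyp w y) {a b c : ℕ} (ha : Even a) (ha0 : a ≠ 0) (hb : Even b)
    (hb0 : b ≠ 0) (hc : Even c) (hc0 : c ≠ 0) :
    y * l w y c * E w (th w y a b) ≤ E w (wf w y c (a + b)) := by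
  obtain ⟨lam, hp⟩ := exists_perA h
  obtain ⟨t, ht⟩ := exists_top h
  have hy := h.hy
  have hl := hp.1
  have hx := h.pos t
  have hσ := y_le_sig h t
  have hσ0 : 0 < 1 - w t := hy.trans_le hσ
  have hu : 0 < w t - y := sub_pos.2 (h.lt t)
  have hlc := l_pos h c
  have hl2 := l_pos h 2
  -- the right side
  have hr : w t * th w y c (a + b + 1) t ≤ E w (wf w y c (a + b)) := by
    have h1 := E_wf_ge h NN.one c (a + b)
    rw [hat_one] at h1
    simp only [mul_one] at h1
    refine le_trans ?_ h1
    exact le_E h.nn (f := fun i => th w y c (a + b + 1) i) (fun i => th_nn h _ _ i) t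
  refine le_trans ?_ hr
  -- the left side
  set P := ch w y a t * ch w y b t with hP
  have hP0 : 0 ≤ P := mul_nonneg ((Cone.ch h.nn hy.le a).nn t) ((Cone.ch h.nn hy.le b).nn t)
  set Sg := ∑ j ∈ univ.erase t, w j * (w j - y) * (1 - w j) ^ 2 with hSg
  have hE : (1 - w t) ^ 2 * E w (th w y a b) ≤ P * (w t * (w t - y) * (1 - w t) ^ 2 + Sg) := by
    rw [E, sum_split _ t, mul_add, mul_add]
    refine add_le_add (le_of_eq ?_) ?_
    · simp only [th, hP]; ring
    · rw [hSg, mul_sum, mul_sum]
      refine sum_le_sum fun j _ => ?_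
      have a1 := ch_even_le h ht ha ha0 j
      have a2 := ch_even_le h ht hb hb0 j
      have a3 := mul_le_mul a1 a2 (mul_nonneg hσ0.le ((Cone.ch h.nn hy.le b).nn j))
        (mul_nonneg (by
          have := le_E h.nn (f := fun _ => (1 : ℝ)) (fun _ => zero_le_one) j
          rw [E_one h] at this
          linarith) ((Cone.ch h.nn hy.le a).nn t))
      have a4 := mul_le_mul_of_nonneg_left a3
        (mul_nonneg (h.nn j) (sub_nonneg.2 (h.lt j).le))
      simp only [th]
      calc _ = w j * (w j - y) * ((1 - w t) * ch w y a j * ((1 - w t) * ch w y b j)) := by ring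
        _ ≤ _ := a4
        _ = _ := by rw [hP]; ring
  have h2 := ch_mul_le h hp ht ha hb
  have h3 := ch_even_ge h ht hc hc0
  have h4 := E2h h hp ht
  set M := (lam + w t) * (lam + (1 - w t)) with hM
  have hM0 : 0 < M := by positivity
  set Q := lam * (lam + y) * (lam ^ 2 + 2 * w t * lam + w t * (1 - w t)) with hQ
  have hS0 : 0 ≤ Sg := sum_nonneg fun j _ =>
      mul_nonneg (mul_nonneg (h.nn j) (sub_nonneg.2 (h.lt j).le)) (sq_nonneg _)
  have hn0 : 0 ≤ ch w y (a + b + 1) t := (Cone.ch h.nn hy.le _).nn t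
  set n1 := ch w y (a + b + 1) t
  set c1 := ch w y c t
  set D := w t * (w t - y) * (1 - w t) ^ 2 + Sg with hD
  have c1' : (1 - w t) ^ 2 * l w y 2 * M * (y * l w y c * E w (th w y a b)) ≤
      (1 - w t) ^ 2 * l w y 2 * M * (w t * ((w t - y) * c1 * n1)) := by
    have s1 := mul_le_mul_of_nonneg_left hE
      (by positivity : 0 ≤ y * l w y c * l w y 2 * M)
    have s2 := mul_le_mul_of_nonneg_left h4 (mul_nonneg hlc.le hP0)
    have s3 := mul_le_mul_of_nonneg_left h2
      (by positivity : 0 ≤ l w y c * ((w t - y) * w t * (1 - w t) ^ 3))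
    have s4 := mul_le_mul_of_nonneg_left h3
      (by positivity : 0 ≤ (w t - y) * w t * (1 - w t) ^ 2 * M * n1)
    calc _ = y * l w y c * l w y 2 * M * ((1 - w t) ^ 2 * E w (th w y a b)) := by ring
      _ ≤ y * l w y c * l w y 2 * M * (P * D) := s1
      _ = l w y c * P * (y * l w y 2 * D * M) := by ring
      _ ≤ l w y c * P * ((w t - y) * w t * (1 - w t) ^ 3 * Q) := s2
      _ = l w y c * ((w t - y) * w t * (1 - w t) ^ 3) * (Q * P) := by ring
      _ ≤ l w y c * ((w t - y) * w t * (1 - w t) ^ 3) * (M * n1) := s3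
      _ = (w t - y) * w t * (1 - w t) ^ 2 * M * n1 * ((1 - w t) * l w y c) := by ring
      _ ≤ (w t - y) * w t * (1 - w t) ^ 2 * M * n1 * (c1 * l w y 2) := s4
      _ = _ := by ring
  exact le_of_mul_le_mul_left c1' (by positivity)

/-- (B_w) from (A1), one of the merged legs even -/
theorem Bw_of_A1 (h : Hyp w y) {a b c : ℕ} (ha : Even a)
    (hA : y * l w y (c + 1) * E w (th w y a (b + 1)) ≤ E w (wf w y (c + 1) (a + (b + 1))))
    {φ : Fin q → ℝ} (h0 : ∀ i, 0 ≤ φ i) (hφ : ∀ i j, w i ≤ w j → φ j ≤ φ i) :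
    y * l w y (c + 1) * E w (fun i => th w y a (b + 1) i * φ i) ≤
      E w (fun i => wf w y (c + 1) (a + (b + 1)) i * φ i) := by
  obtain ⟨t, ht⟩ := exists_top h
  have e1 : E w (fun i => wf w y (c + 1) (a + (b + 1)) i * φ i) -
      y * l w y (c + 1) * E w (fun i => th w y a (b + 1) i * φ i) =
      φ t * (E w (wf w y (c + 1) (a + (b + 1))) - y * l w y (c + 1) * E w (th w y a (b + 1))) +
      E w (fun i => (wf w y (c + 1) (a + (b + 1)) i - y * l w y (c + 1) * th w y a (b + 1) i) *
        (φ i - φ t)) := by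
    rw [mul_sub, ← E_const_mul, ← E_const_mul, ← E_const_mul, ← E_const_mul, ← E_sub, ← E_sub,
      ← E_add']
    congr 1
    funext i
    ring
  have h1 : 0 ≤ E w (fun i => (wf w y (c + 1) (a + (b + 1)) i -
      y * l w y (c + 1) * th w y a (b + 1) i) * (φ i - φ t)) := by
    refine E_nonneg h.nn fun i => ?_
    rcases eq_or_ne i t with hi | hi
    · subst hi
      rw [sub_self, mul_zero]
    · exact mul_nonneg (sub_nonneg.2 (PW h ha hi ht)) (sub_nonneg.2 (hφ i t (ht i)))
  have h2 := mul_nonneg (h0 t) (sub_nonneg.2 hA)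
  linarith

end Pool.Agent.Helper66.SW
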