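import Pool.Agent.Helper66.SW.TopPart

/-!
S-world, case (L): all legs of the terminal spider `w` and the leg at `g` have even sizes
(class (iii), note 1070).
-/

set_option autoImplicit false

namespace Pool.Agent.Helper66.SW

open Pool.Agent.Helper4.SW Pool.Agent.Helper31.SW
open Pool.Agent.Helper6.HL hiding X
open Finset Polynomial

variable {q : ℕ} {w : Fin q → ℝ} {y : ℝ}

theorem w_th (h : Hyp w y) (a b : ℕ) (i : Fin q) :
    w i * th w y a b i = l w y a * l w y b * (vv w y i * (tau w y a i * tau w y b i)) := by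
  have h1 := tau_mul h a i
  have h2 := tau_mul h b i
  have h3 := w_vv h i
  have h1' : tau w y a i * l w y a = w i * ch w y a i := h1
  have h2' : tau w y b i * l w y b = w i * ch w y b i := h2
  unfold th
  rw [← h3]
  calc _ = vv w y i * (w i * ch w y a i) * (w i * ch w y b i) := by ring
    _ = _ := by rw [← h1', ← h2']; ring

theorem E_th (h : Hyp w y) (a b : ℕ) (φ : Fin q → ℝ) :
    E w (fun i => th w y a b i * φ i) =
      l w y a * l w y b * ∑ i, vv w y i * (tau w y a i * tau w y b i) * φ i := by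
  rw [E, mul_sum]
  refine sum_congr rfl fun i _ => ?_
  calc _ = (w i * th w y a b i) * φ i := by ring
    _ = _ := by rw [w_th h]; ring

theorem E_wth (h : Hyp w y) (a b c : ℕ) (γ : Fin q → ℝ) :
    E w (fun i => γ i * hat w (psi w y c) i * (w i * th w y a b i)) =
      l w y a * l w y b * l w y c * ∑ i, vv w y i * (tau w y a i * tau w y b i) *
        (w i - (w i - y) * tau w y c i) * γ i := by
  rw [E, mul_sum]
  refine sum_congr rfl fun i _ => ?_
  have h1 : tau w y c i * l w y c = w i * ch w y c i := tau_mul h c i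
  have h2 : w i * hat w (psi w y c) i = l w y c * (w i - (w i - y) * tau w y c i) := by
    rw [hat_psi]
    linear_combination (w i - y) * h1
  calc _ = (w i * th w y a b i) * (w i * hat w (psi w y c) i) * γ i := by ring
    _ = _ := by rw [w_th h, h2]; ring

theorem lam_ge (h : Hyp w y) {lam : ℝ} (hp : PerA w y lam) {t : Fin q} (ht : Top w t) :
    (1 - w t) + y ≤ lam := by
  have h1 := lam_sq h hp t
  have h2 := top_half h ht
  have h3 := y_le_sig h t
  have hy := h.hy
  have hl := hp.1
  by_contra hc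
  rw [not_le] at hc
  have h4 : lam ^ 2 < ((1 - w t) + y) ^ 2 := by
    have := mul_lt_mul'' hc hc hl.le hl.le
    nlinarith
  have h5 : ((1 - w t) + y) * ((1 - w t) + y) ≤ ((1 - w t) + y) * w t :=
    mul_le_mul_of_nonneg_left h2 (by linarith)
  have h6 : 0 ≤ y * lam := mul_nonneg hy.le hl.le
  nlinarith

/-- the terms with the largest part -/
theorem top_part (h : Hyp w y) {lam : ℝ} (hp : PerA w y lam) {t : Fin q} (ht : Top w t)
    {a b c : ℕ} (ha : Even a) (ha0 : a ≠ 0) (hb : Even b) (hb0 : b ≠ 0) (hc : Even c)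
    (hc0 : c ≠ 0) {φ γ : Fin q → ℝ} (hφ : Cone w φ) (hγ : Cone w γ)
    (hPHI : K' w φ t ≤ lam * φ t) :
    0 ≤ cx w y (fun i => vv w y i * (tau w y a i * tau w y b i))
        (fun i => vv w y i * (tau w y c i * tau w y (a + b + 1) i)) (tau w y c) φ γ t t +
      ∑ j ∈ univ.erase t, (cx w y (fun i => vv w y i * (tau w y a i * tau w y b i))
        (fun i => vv w y i * (tau w y c i * tau w y (a + b + 1) i)) (tau w y c) φ γ t j +
        cx w y (fun i => vv w y i * (tau w y a i * tau w y b i))
        (fun i => vv w y i * (tau w y c i * tau w y (a + b + 1) i)) (tau w y c) φ γ j t) := by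
  have hy := h.hy
  have hl := hp.1
  have hx := h.pos t
  have hσ := y_le_sig h t
  have hh := top_half h ht
  have hσ0 : 0 < 1 - w t := hy.trans_le hσ
  have hu : 0 < w t - y := sub_pos.2 (h.lt t)
  have hsq := lam_sq h hp t
  have hlg := lam_ge h hp ht
  have hl1 := lam_le_one h hp
  obtain ⟨K, s0, hK0, hs1, hs0, hKs, hK⟩ := K_exists h ht
  set Cn := l w y a * l w y b * (l w y c * l w y (a + b + 1)) with hCn
  have hCn0 : 0 < Cn := mul_pos (mul_pos (l_pos h _) (l_pos h _)) (mul_pos (l_pos h _) (l_pos h _))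
  set α : Fin q → ℝ := fun i => vv w y i * (tau w y a i * tau w y b i) with hα
  set β : Fin q → ℝ := fun i => vv w y i * (tau w y c i * tau w y (a + b + 1) i) with hβ
  have hcx : ∀ i j, Cn * cx w y α β (tau w y c) φ γ i j =
      (w i * th w y a b i) * (w j * th w y c (a + b + 1) j) *
        ((w i - (w i - y) * tau w y c i) * γ i * φ j - y * φ i * γ j) := by
    intro i j
    rw [w_th h, w_th h]
    simp only [cx, hα, hβ, hCn]
    ring
  set B := ch w y a t * ch w y b t * (ch w y c t * ch w y (a + b + 1) t) with hB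
  have pa := (Cone.ch h.nn hy.le a).nn
  have pb := (Cone.ch h.nn hy.le b).nn
  have pc := (Cone.ch h.nn hy.le c).nn
  have pn := (Cone.ch h.nn hy.le (a + b + 1)).nn
  have hB0 : 0 ≤ B := mul_nonneg (mul_nonneg (pa t) (pb t)) (mul_nonneg (pc t) (pn t))
  have hodd : Odd (a + b + 1) := (ha.add hb).add_one
  set Xt := w t - (w t - y) * tau w y c t with hXt
  have hXt1 : w t * (lam + y) / (lam + w t) ≤ Xt := by
    have h1 := T_lim_even h hp ht hc
    rw [div_le_iff₀ (by positivity), hXt]
    have := mul_le_mul_of_nonneg_left h1 hu.le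
    nlinarith
  -- pairs
  have hpair : ∀ j ∈ univ.erase t, -(w t ^ 2 * (w t - y) ^ 2 * B * γ t * y * (φ t * (lam *
      ((w j - y) / ((1 - w t) * ((1 - w t) + y)))) + K * (w j * φ j))) ≤
      Cn * (cx w y α β (tau w y c) φ γ t j + cx w y α β (tau w y c) φ γ j t) := by
    intro j hj
    have hjt := ne_of_mem_erase hj
    have hz := (h.lt j).le
    have hzs := le_sig h hjt
    have hwj := h.pos j
    set e := (lam + w t) / (lam + w j) with he
    set tj := (1 - w j) / (1 - w t) with htj
    have he0 : 0 < e := by rw [he]; positivity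
    have lowE : ∀ k, Even k → e * ch w y k t ≤ ch w y k j := by
      intro k hk
      have h1 := ((lim_alt h hp ht k).2 hk).1 j
      rw [he, div_mul_eq_mul_div, div_le_iff₀ (by positivity)]
      linarith
    have upE : ∀ k, Even k → k ≠ 0 → ch w y k j ≤ tj * ch w y k t := by
      intro k hk hk0
      have h1 := ch_even_le h ht hk hk0 j
      rw [htj, div_mul_eq_mul_div, le_div_iff₀ hσ0]
      linarith
    have upO : ch w y (a + b + 1) j ≤ e * ch w y (a + b + 1) t := by
      have h1 := ((lim_alt h hp ht (a + b + 1)).1 hodd).1 j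
      rw [he, div_mul_eq_mul_div, le_div_iff₀ (by positivity)]
      linarith
    have lowO : ch w y (a + b + 1) t ≤ ch w y (a + b + 1) j :=
      (Cone.ch h.nn hy.le _).anti j t (ht j)
    have htj0 : 0 ≤ tj := div_nonneg (by linarith) hσ0.le
    have hM1 : e * B ≤ ch w y a t * ch w y b t * (ch w y c j * ch w y (a + b + 1) j) := by
      have h1 : e * ch w y c t * ch w y (a + b + 1) t ≤ ch w y c j * ch w y (a + b + 1) j :=
        mul_le_mul (lowE c hc) lowO (pn t) (pc j)
      have := mul_le_mul_of_nonneg_left h1 (mul_nonneg (pa t) (pb t))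
      calc _ = ch w y a t * ch w y b t * (e * ch w y c t * ch w y (a + b + 1) t) := by
            rw [hB]; ring
        _ ≤ _ := this
    have hM1' : ch w y a t * ch w y b t * (ch w y c j * ch w y (a + b + 1) j) ≤ tj * e * B := by
      have h1 : ch w y c j * ch w y (a + b + 1) j ≤
          tj * ch w y c t * (e * ch w y (a + b + 1) t) :=
        mul_le_mul (upE c hc hc0) upO (pn j) (mul_nonneg htj0 (pc t))
      have := mul_le_mul_of_nonneg_left h1 (mul_nonneg (pa t) (pb t))
      calc _ ≤ _ := this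
        _ = _ := by rw [hB]; ring
    have hM2 : e ^ 2 * B ≤ ch w y a j * ch w y b j * (ch w y c t * ch w y (a + b + 1) t) := by
      have h1 : e * ch w y a t * (e * ch w y b t) ≤ ch w y a j * ch w y b j :=
        mul_le_mul (lowE a ha) (lowE b hb) (mul_nonneg he0.le (pb t)) (pa j)
      have := mul_le_mul_of_nonneg_right h1 (mul_nonneg (pc t) (pn t))
      calc _ = e * ch w y a t * (e * ch w y b t) * (ch w y c t * ch w y (a + b + 1) t) := by
            rw [hB]; ring
        _ ≤ _ := this
    have hM2' : ch w y a j * ch w y b j * (ch w y c t * ch w y (a + b + 1) t) ≤ tj ^ 2 * B := by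
      have h1 : ch w y a j * ch w y b j ≤ tj * ch w y a t * (tj * ch w y b t) :=
        mul_le_mul (upE a ha ha0) (upE b hb hb0) (pb j) (mul_nonneg htj0 (pa t))
      have := mul_le_mul_of_nonneg_right h1 (mul_nonneg (pc t) (pn t))
      calc _ ≤ _ := this
        _ = _ := by rw [hB]; ring
    have hXj : y ≤ w j - (w j - y) * tau w y c j := by
      have := mul_le_mul_of_nonneg_left (tau_le_one h c j) (sub_nonneg.2 hz)
      linarith
    have key := pair_top (x := w t) (σ := 1 - w t) (y := y) (lam := lam) (z := w j) (K := K)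
      (Γt := γ t) (Γj := γ j) (Φt := φ t) (Φj := φ j) hy hz hzs hh (by ring) hl hsq hlg hB0 hM1
      hM1' hM2 hM2' (hγ.nn t) (hγ.nn j) (hγ.mono j t (ht j)) (hφ.nn t) (hφ.nn j) hXt1 hXj
      (hK j hjt)
    refine key.trans (le_of_eq ?_)
    rw [mul_add Cn, hcx, hcx, ← hXt]
    simp only [th]
    ring
  -- the sum
  have hsumφ : ∑ j ∈ univ.erase t, w j * φ j ≤ lam * φ t := by
    rw [K'_apply, E, sum_split _ t] at hPHI
    linarith
  have htt : Cn * cx w y α β (tau w y c) φ γ t t =
      w t ^ 2 * (w t - y) ^ 2 * B * γ t * ((Xt - y) * φ t) := by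
    rw [hcx]
    simp only [th, hB, ← hXt]
    ring
  have hS := sum_le_sum hpair
  rw [← mul_sum] at hS
  have e1 : ∑ j ∈ univ.erase t, -(w t ^ 2 * (w t - y) ^ 2 * B * γ t * y * (φ t * (lam *
      ((w j - y) / ((1 - w t) * ((1 - w t) + y)))) + K * (w j * φ j))) =
      -(w t ^ 2 * (w t - y) ^ 2 * B * γ t * y * (φ t * (lam *
      ((∑ j ∈ univ.erase t, (w j - y)) / ((1 - w t) * ((1 - w t) + y)))) +
      K * ∑ j ∈ univ.erase t, w j * φ j)) := by
    rw [sum_neg_distrib, ← mul_sum, sum_add_distrib, ← mul_sum, ← mul_sum, ← mul_sum, sum_div]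
  rw [e1] at hS
  have hC1 : 0 ≤ w t ^ 2 * (w t - y) ^ 2 * B * γ t := by
    have := hγ.nn t
    positivity
  have hφt := hφ.nn t
  have hfin : 0 ≤ (Xt - y) * φ t - y * (φ t * (lam *
      ((∑ j ∈ univ.erase t, (w j - y)) / ((1 - w t) * ((1 - w t) + y)))) +
      K * ∑ j ∈ univ.erase t, w j * φ j) := by
    have a1 : (∑ j ∈ univ.erase t, (w j - y)) / ((1 - w t) * ((1 - w t) + y)) ≤
        s0 / ((1 - w t) * ((1 - w t) + y)) :=
      div_le_div_of_nonneg_right hs1 (by positivity)
    have a2 : φ t * (lam * ((∑ j ∈ univ.erase t, (w j - y)) /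
        ((1 - w t) * ((1 - w t) + y)))) ≤ φ t * (lam * (s0 / ((1 - w t) * ((1 - w t) + y)))) :=
      mul_le_mul_of_nonneg_left (mul_le_mul_of_nonneg_left a1 hl.le) hφt
    have a3 : K * ∑ j ∈ univ.erase t, w j * φ j ≤ K * (lam * φ t) :=
      mul_le_mul_of_nonneg_left hsumφ hK0
    have a4 : lam * ((w t - y) / (1 + w t)) ≤ Xt - y := by
      have b1 : w t * (lam + y) / (lam + w t) - y = lam * (w t - y) / (lam + w t) := by
        field_simp
        ring
      have b2 : lam * ((w t - y) / (1 + w t)) ≤ lam * (w t - y) / (lam + w t) := by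
        rw [← mul_div_assoc]
        refine div_le_div_of_nonneg_left (mul_nonneg hl.le hu.le) (by positivity) (by linarith)
      linarith
    have a5 := mul_le_mul_of_nonneg_left hKs (mul_nonneg hl.le hφt)
    have a6 := mul_le_mul_of_nonneg_right a4 hφt
    have a7 := mul_le_mul_of_nonneg_left (add_le_add a2 a3) hy.le
    have e2 : lam * φ t * (y * (s0 / ((1 - w t) * ((1 - w t) + y)) + K)) =
        y * (φ t * (lam * (s0 / ((1 - w t) * ((1 - w t) + y)))) + K * (lam * φ t)) := by ring
    rw [e2] at a5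
    have e3 : lam * φ t * ((w t - y) / (1 + w t)) = lam * ((w t - y) / (1 + w t)) * φ t := by ring
    rw [e3] at a5
    linarith
  have hfin2 := mul_nonneg hC1 hfin
  have key : 0 ≤ Cn * (cx w y α β (tau w y c) φ γ t t + ∑ j ∈ univ.erase t,
      (cx w y α β (tau w y c) φ γ t j + cx w y α β (tau w y c) φ γ j t)) := by
    rw [mul_add, htt]
    refine le_trans hfin2 ?_
    refine le_trans (le_of_eq ?_) (add_le_add_right hS _)
    ring
  exact nonneg_of_mul_nonneg_right key hCn0

/-- (A'') for even legs -/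
theorem cross_even (h : Hyp w y) {a b c : ℕ} (ha : Odd a) (hb : Odd b) (hc : Odd c)
    {J : List ℕ} (hJ : ∀ j ∈ J, Odd j) {γ : Fin q → ℝ} (hγ : Cone w γ) :
    y * l w y (c + 1) * E w (fun i => th w y (a + 1) (b + 1) i * hat w (st w y (R J)).p i) *
        E w (fun i => th w y (c + 1) (a + b + 3) i * γ i) ≤
      E w (fun i => γ i * hat w (psi w y (c + 1)) i * (w i * th w y (a + 1) (b + 1) i)) *
        E w (fun i => th w y (c + 1) (a + b + 3) i * hat w (st w y (R J)).p i) := by
  obtain ⟨lam, hp⟩ := exists_perA h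
  obtain ⟨t, ht⟩ := exists_top h
  have hst := st_nonneg h.nn h.hy.le (R J)
  have hφ := Cone.hat h.nn hst.2
  have e3 : a + b + 3 = a + 1 + (b + 1) + 1 := by ring
  have hT := top_part h hp ht (a := a + 1) (b := b + 1) (c := c + 1) ha.add_one (by omega)
    hb.add_one (by omega) hc.add_one (by omega) hφ hγ (PHI h hp ht J hJ)
  have key := cross_of_top h t (fun i => tau w y (a + 1) i * tau w y (b + 1) i)
    (tau w y (c + 1)) (tau w y (a + 1 + (b + 1) + 1)) (hat w (st w y (R J)).p) γ
    (fun i => mul_nonneg (tau_nn h _ i) (tau_nn h _ i)) (tau_nn h _) (sum_tau_le h _)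
    (tau_nn h _) (fun i j hij => tau_mono h _ hij) hφ hγ
    (fun i j hit hji => cnd_mid h a b (c + 1) (a + 1 + (b + 1) + 1) hit ht hji) hT
  rw [e3, E_th h, E_th h, E_th h, E_wth h]
  have hC : 0 ≤ l w y (a + 1) * l w y (b + 1) * l w y (c + 1) *
      (l w y (c + 1) * l w y (a + 1 + (b + 1) + 1)) :=
    (mul_pos (mul_pos (mul_pos (l_pos h _) (l_pos h _)) (l_pos h _))
      (mul_pos (l_pos h _) (l_pos h _))).le
  have := mul_le_mul_of_nonneg_left key hC
  calc _ = l w y (a + 1) * l w y (b + 1) * l w y (c + 1) *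
      (l w y (c + 1) * l w y (a + 1 + (b + 1) + 1)) *
      (y * (∑ i, vv w y i * (tau w y (a + 1) i * tau w y (b + 1) i) *
        hat w (st w y (R J)).p i) *
        ∑ i, vv w y i * (tau w y (c + 1) i * tau w y (a + 1 + (b + 1) + 1) i) * γ i) := by ring
    _ ≤ _ := this
    _ = _ := by ring

/-- class (iii): a leg of even size at `g`, all legs of `w` of even size (at least two legs);
entry `j` is a leg with `j + 1` vertices -/
theorem leg_even (h : Hyp w y) {c : ℕ} (hc : Odd c) {J : List ℕ} (hJ : ∀ j ∈ J, Odd j)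
    (hJ2 : 2 ≤ J.length) : Imp w y (.cons (R J) (R [c])) := by
  obtain ⟨a, b, J', rfl⟩ : ∃ a b J', J = a :: b :: J' := by
    match J, hJ2 with
    | a :: b :: J', _ => exact ⟨a, b, J', rfl⟩
  have ha : Odd a := hJ a (by simp)
  have hb : Odd b := hJ b (by simp)
  have hJ' : ∀ j ∈ J', Odd j := fun j hj => hJ j (by simp [hj])
  have hst := st_nonneg h.nn h.hy.le (R J')
  have hφ := Cone.hat h.nn hst.2
  refine pair_MQ h a b c J' (fun γ hγ => cross_even h ha hb hc hJ' hγ) ?_
  have hA := A1_even h (a := a + 1) (b := b + 1) (c := c + 1) ha.add_one (by omega) hb.add_one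
    (by omega) hc.add_one (by omega)
  have := Bw_of_A1 h (a := a + 1) (b := b) (c := c) ha.add_one hA hφ.nn hφ.anti
  rw [show a + b + 2 = a + 1 + (b + 1) by ring]
  exact this

end Pool.Agent.Helper66.SW
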