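import Pool.Agent.Helper66.SW.Pair
import Pool.Agent.Helper31.SW.LegK

/-!
S-world, a terminal spider `w` with a leaf and a leg `c` at `g`: the pair {the rest of `w` to the
end of the leaf | `c` to the end of the leaf}.
-/

set_option autoImplicit false

namespace Pool.Agent.Helper66.SW

open Pool.Agent.Helper4.SW
open Pool.Agent.Helper6.HL hiding X
open Finset Polynomial

variable {q : ℕ} {w : Fin q → ℝ} {y : ℝ}

section poly

variable {e c De Dc o a b : ℝ}

/-- the inequality (g3) -/
theorem g_three (hy : 0 ≤ y) (he0 : 0 < e) (hec : e < c)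
    (D0 : 0 ≤ De) (Dm : De ≤ Dc) (Pe : e * De ≤ e - y) (Pc : c * Dc ≤ c - y) :
    0 ≤ c * (e - e * De - y) - e ^ 2 * (Dc - De) + y * (c * Dc - e * De) := by
  have hc0 : 0 < c := he0.trans hec
  have p1 : 0 ≤ e - e * De - y := by linarith
  have p2 : 0 ≤ Dc - De := by linarith
  have p3 : 0 ≤ c - e := by linarith
  rcases le_total (e ^ 2) (y * c) with h1 | h1
  · have e1 : c * (e - e * De - y) - e ^ 2 * (Dc - De) + y * (c * Dc - e * De) =
        c * (e - e * De - y) + (y * c - e ^ 2) * (Dc - De) + y * ((c - e) * De) := by ring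
    rw [e1]
    have h2 : 0 ≤ (y * c - e ^ 2) * (Dc - De) := mul_nonneg (sub_nonneg.2 h1) p2
    have h3 := mul_nonneg hc0.le p1
    have h4 := mul_nonneg hy (mul_nonneg p3 D0)
    linarith
  · have h2 : 0 ≤ (e ^ 2 - y * c) * (c * (e - e * De - y) + y * (c - e) - e * c * (Dc - De)) := by
      refine mul_nonneg (sub_nonneg.2 h1) ?_
      have : c * (e - e * De - y) + y * (c - e) - e * c * (Dc - De) = e * (c - c * Dc - y) := by ring
      rw [this]
      exact mul_nonneg he0.le (by linarith)
    have h3 : 0 ≤ c * (e - e * De - y) * (e * (c - e) + y * e) + y * e * (c - e) ^ 2 := by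
      have := mul_nonneg (mul_nonneg hc0.le p1) (add_nonneg (mul_nonneg he0.le p3)
        (mul_nonneg hy he0.le))
      have := mul_nonneg (mul_nonneg hy he0.le) (sq_nonneg (c - e))
      linarith
    have h4 : 0 ≤ (e * c) * (c * (e - e * De - y) - e ^ 2 * (Dc - De) + y * (c * Dc - e * De)) := by
      have e2 : (e * c) * (c * (e - e * De - y) - e ^ 2 * (Dc - De) + y * (c * Dc - e * De)) =
          (e ^ 2 - y * c) * (c * (e - e * De - y) + y * (c - e) - e * c * (Dc - De)) +
          (c * (e - e * De - y) * (e * (c - e) + y * e) + y * e * (c - e) ^ 2) := by ring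
      rw [e2]
      exact add_nonneg h2 h3
    exact nonneg_of_mul_nonneg_right h4 (mul_pos he0 hc0)

/-- the inequality (g2) -/
theorem g_two (hy : 0 ≤ y) (he0 : 0 < e) (hec : e < c)
    (D0 : 0 ≤ De) (Dm : De ≤ Dc) (Pe : e * De ≤ e - y) (Pc : c * Dc ≤ c - y) (o0 : 0 ≤ o) :
    0 ≤ (c * Dc + o) * (e * (c - c * Dc - y) - y * (c - e)) +
      (e * De + o) * (c * (e - e * De - y) + y * (c - e)) +
      y * (e + c) * ((c - e) * (Dc - De)) +
      (e * (c * Dc + o) + c * (e * De + o)) * ((c - e) * (Dc - De)) := by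
  have hc0 : 0 < c := he0.trans hec
  have p1 : 0 ≤ e - e * De - y := by linarith
  have p1' : 0 ≤ c - c * Dc - y := by linarith
  have p2 : 0 ≤ Dc - De := by linarith
  have p3 : 0 ≤ c - e := by linarith
  have p4 : 0 ≤ c * (e - e * De - y) + y * (c - e) - e * c * (Dc - De) := by
    have : c * (e - e * De - y) + y * (c - e) - e * c * (Dc - De) = e * (c - c * Dc - y) := by ring
    rw [this]
    exact mul_nonneg he0.le p1'
  have h1 : 0 ≤ c * (c + e) * (e - e * De - y) + y * e * (c - e) + e * c * (Dc - De) * (c - 2 * e) := by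
    rcases le_total (2 * e) c with hh | hh
    · have := mul_nonneg (mul_nonneg (mul_nonneg he0.le hc0.le) p2) (sub_nonneg.2 hh)
      have := mul_nonneg (mul_nonneg hc0.le (add_nonneg hc0.le he0.le)) p1
      have := mul_nonneg (mul_nonneg hy he0.le) p3
      linarith
    · have k1 := mul_nonneg (sub_nonneg.2 hh) p4
      have k2 : 0 ≤ c * (e - e * De - y) * (2 * c - e) :=
        mul_nonneg (mul_nonneg hc0.le p1) (by linarith)
      have k3 : 0 ≤ y * (c - e) * (c - e) := mul_nonneg (mul_nonneg hy p3) p3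
      nlinarith [k1, k2, k3]
  have h2 : 0 ≤ e * c * (c - c * Dc - y) + y * e * (c - e) + e * c * (c - e) * (Dc - De) := by
    have := mul_nonneg (mul_nonneg he0.le hc0.le) p1'
    have := mul_nonneg (mul_nonneg hy he0.le) p3
    have := mul_nonneg (mul_nonneg (mul_nonneg he0.le hc0.le) p3) p2
    linarith
  have h3 : 0 ≤ e * (c - c * Dc - y) + c * (e - e * De - y) + (e + c) * ((c - e) * (Dc - De)) := by
    have := mul_nonneg he0.le p1'
    have := mul_nonneg hc0.le p1
    have := mul_nonneg (add_nonneg he0.le hc0.le) (mul_nonneg p3 p2)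
    linarith
  have e1 : (c * Dc + o) * (e * (c - c * Dc - y) - y * (c - e)) +
      (e * De + o) * (c * (e - e * De - y) + y * (c - e)) +
      y * (e + c) * ((c - e) * (Dc - De)) +
      (e * (c * Dc + o) + c * (e * De + o)) * ((c - e) * (Dc - De)) =
      De * (c * (c + e) * (e - e * De - y) + y * e * (c - e) + e * c * (Dc - De) * (c - 2 * e)) +
      (Dc - De) * (e * c * (c - c * Dc - y) + y * e * (c - e) + e * c * (c - e) * (Dc - De)) +
      o * (e * (c - c * Dc - y) + c * (e - e * De - y) + (e + c) * ((c - e) * (Dc - De))) := by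
    ring
  rw [e1]
  exact add_nonneg (add_nonneg (mul_nonneg D0 h1) (mul_nonneg p2 h2)) (mul_nonneg o0 h3)

/-- the two minima -/
theorem poly_S (hy : 0 ≤ y) (he0 : 0 < e) (hec : e < c) (h1 : e + c ≤ 1)
    (D0 : 0 ≤ De) (Dm : De ≤ Dc) (Pe : e * De ≤ e - y) (Pc : c * Dc ≤ c - y) (o0 : 0 ≤ o)
    (o1 : o ≤ 1 - e - c) (a0 : 0 ≤ a) (ab : a ≤ b) (b1 : b ≤ 1) {m : ℝ}
    (hm : m = (c * Dc + o) * ((c * b - e * a) * (Dc - De)) ∨
      m = y * ((b - a) * (c * Dc - e * De) + (c - e) * (Dc - De))) :
    0 ≤ (1 - a) * b * (c * Dc + o) * (e * (c - c * Dc - y) - y * (c - e)) +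
      (1 - b) * a * (e * De + o) * (c * (e - e * De - y) + y * (c - e)) +
      y * (e * a + c * b) * ((b - a) * (c * Dc - e * De) + (c - e) * (Dc - De)) +
      (e * (1 - a) * (c * Dc + o) + c * (1 - b) * (e * De + o)) * ((c * b - e * a) * (Dc - De)) +
      (1 - e - c) * a * m := by
  have hc0 : 0 < c := he0.trans hec
  have p1 : 0 ≤ e - e * De - y := by linarith
  have p1' : 0 ≤ c - c * Dc - y := by linarith
  have p2 : 0 ≤ Dc - De := by linarith
  have p3 : 0 ≤ c - e := by linarith
  have p4 : 0 ≤ c * Dc + o := add_nonneg (mul_nonneg hc0.le (D0.trans Dm)) o0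
  have p4' : 0 ≤ e * De + o := add_nonneg (mul_nonneg he0.le D0) o0
  have p5 : c * Dc + o ≤ 1 := by linarith
  have p6 : 0 ≤ c * Dc - e * De := by
    have : c * Dc - e * De = c * (Dc - De) + (c - e) * De := by ring
    rw [this]
    exact add_nonneg (mul_nonneg hc0.le p2) (mul_nonneg p3 D0)
  have p7 : 0 ≤ (c - e) * (Dc - De) := mul_nonneg p3 p2
  have p8 : 0 ≤ 1 - e - c := by linarith
  have q0 : 0 ≤ 1 - b := by linarith
  have q1 : 0 ≤ b - a := by linarith
  have g2 := g_two hy he0 hec D0 Dm Pe Pc o0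
  have g3 := g_three hy he0 hec D0 Dm Pe Pc
  have c01 : 0 ≤ (c * Dc + o) * (e * (c - c * Dc - y) - y * (c - e)) +
      (e * (c * Dc + o) + c * (e * De + o)) * (c * (Dc - De)) + y * c * ((c - e) * (Dc - De)) := by
    have e1 : (c * Dc + o) * (e * (c - c * Dc - y) - y * (c - e)) +
      (e * (c * Dc + o) + c * (e * De + o)) * (c * (Dc - De)) + y * c * ((c - e) * (Dc - De)) =
      (c * Dc + o) * (c * (e - e * De - y)) + c * (e * De + o) * (c * (Dc - De)) +
      y * c * ((c - e) * (Dc - De)) := by ring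
    rw [e1]
    have := mul_nonneg p4 (mul_nonneg hc0.le p1)
    have := mul_nonneg (mul_nonneg hc0.le p4') (mul_nonneg hc0.le p2)
    have := mul_nonneg (mul_nonneg hy hc0.le) p7
    linarith
  have c11 : 0 ≤ (c * Dc + o) * (e * (c - c * Dc - y) - y * (c - e)) +
      y * c * ((c * Dc - e * De) + (c - e) * (Dc - De)) +
      e * (c * Dc + o) * (c * (Dc - De)) := by
    have e1 : (c * Dc + o) * (e * (c - c * Dc - y) - y * (c - e)) +
      y * c * ((c * Dc - e * De) + (c - e) * (Dc - De)) +
      e * (c * Dc + o) * (c * (Dc - De)) =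
      (c * Dc + o) * (c * (e - e * De - y)) +
      y * c * ((c * Dc - e * De) + (c - e) * (Dc - De)) := by ring
    rw [e1]
    have := mul_nonneg p4 (mul_nonneg hc0.le p1)
    have := mul_nonneg (mul_nonneg hy hc0.le) (add_nonneg p6 p7)
    linarith
  rcases hm with hm | hm
  · have c12 : 0 ≤ (c * Dc + o) * (e * (c - c * Dc - y) - y * (c - e)) +
        y * (c + e) * ((c * Dc - e * De) + (c - e) * (Dc - De)) +
        y * c * ((c - e) * (Dc - De)) + e * (c * Dc + o) * ((c - e) * (Dc - De)) +
        (1 - e - c) * ((c * Dc + o) * (c * (Dc - De))) := by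
      have e1 : (c * Dc + o) * (e * (c - c * Dc - y) - y * (c - e)) +
          y * (c + e) * ((c * Dc - e * De) + (c - e) * (Dc - De)) +
          y * c * ((c - e) * (Dc - De)) + e * (c * Dc + o) * ((c - e) * (Dc - De)) +
          (1 - e - c) * ((c * Dc + o) * (c * (Dc - De))) =
          (c * Dc + o) * ((c + e) * (c * (e - e * De - y) - e ^ 2 * (Dc - De) +
            y * (c * Dc - e * De)) +
            (1 - e - c) * (c * (e - e * De - y) + (Dc - De) * (c - e ^ 2))) +
          (1 - (c * Dc + o)) * (y * (c + e) * (c * Dc - e * De)) +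
          y * (c + e) * ((c - e) * (Dc - De)) + y * c * ((c - e) * (Dc - De)) := by ring
      rw [e1]
      have k1 : 0 ≤ c - e ^ 2 := by nlinarith
      have := mul_nonneg p4 (add_nonneg (mul_nonneg (add_nonneg hc0.le he0.le) g3)
        (mul_nonneg p8 (add_nonneg (mul_nonneg hc0.le p1) (mul_nonneg p2 k1))))
      have := mul_nonneg (sub_nonneg.2 p5) (mul_nonneg (mul_nonneg hy
        (add_nonneg hc0.le he0.le)) p6)
      have := mul_nonneg (mul_nonneg hy (add_nonneg hc0.le he0.le)) p7
      have := mul_nonneg (mul_nonneg hy hc0.le) p7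
      linarith
    have c22 : 0 ≤ y * (c + e) * ((c - e) * (Dc - De)) +
        (1 - e - c) * ((c * Dc + o) * ((c - e) * (Dc - De))) :=
      add_nonneg (mul_nonneg (mul_nonneg hy (add_nonneg hc0.le he0.le)) p7)
        (mul_nonneg p8 (mul_nonneg p4 p7))
    have t1 := mul_nonneg (mul_nonneg q0 q1) c01
    have t2 := mul_nonneg (mul_nonneg q0 a0) g2
    have t3 := mul_nonneg (mul_nonneg q1 q1) c11
    have t4 := mul_nonneg (mul_nonneg q1 a0) c12
    have t5 := mul_nonneg (mul_nonneg a0 a0) c22
    rw [hm]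
    linarith
  · have c12 : 0 ≤ (c * Dc + o) * (e * (c - c * Dc - y) - y * (c - e)) +
        y * ((c * Dc - e * De) + (c - e) * (Dc - De)) +
        y * c * ((c - e) * (Dc - De)) + e * (c * Dc + o) * ((c - e) * (Dc - De)) := by
      have e1 : (c * Dc + o) * (e * (c - c * Dc - y) - y * (c - e)) +
          y * ((c * Dc - e * De) + (c - e) * (Dc - De)) +
          y * c * ((c - e) * (Dc - De)) + e * (c * Dc + o) * ((c - e) * (Dc - De)) =
          (c * Dc + o) * (c * (e - e * De - y) - e ^ 2 * (Dc - De) +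
            y * (c * Dc - e * De)) +
          (1 - (c * Dc + o)) * (y * (c * Dc - e * De)) +
          y * ((c - e) * (Dc - De)) + y * c * ((c - e) * (Dc - De)) := by ring
      rw [e1]
      have := mul_nonneg p4 g3
      have := mul_nonneg (sub_nonneg.2 p5) (mul_nonneg hy p6)
      have := mul_nonneg hy p7
      have := mul_nonneg (mul_nonneg hy hc0.le) p7
      linarith
    have c02 : 0 ≤ (c * Dc + o) * (e * (c - c * Dc - y) - y * (c - e)) +
        (e * De + o) * (c * (e - e * De - y) + y * (c - e)) +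
        y * ((c - e) * (Dc - De)) +
        (e * (c * Dc + o) + c * (e * De + o)) * ((c - e) * (Dc - De)) := by
      have := mul_nonneg p8 (mul_nonneg hy p7)
      linarith
    have c22 : 0 ≤ y * ((c - e) * (Dc - De)) := mul_nonneg hy p7
    have t1 := mul_nonneg (mul_nonneg q0 q1) c01
    have t2 := mul_nonneg (mul_nonneg q0 a0) c02
    have t3 := mul_nonneg (mul_nonneg q1 q1) c11
    have t4 := mul_nonneg (mul_nonneg q1 a0) c12
    have t5 := mul_nonneg (mul_nonneg a0 a0) c22
    rw [hm]
    linarith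

end poly

/-- the colours outside the pair -/
theorem others (h : Hyp w y) {d D : Fin q → ℝ} (d0 : ∀ i, 0 ≤ d i)
    (d1 : ∀ i, d i ≤ 1) (dm : ∀ i j, w i ≤ w j → d i ≤ d j) (D0 : ∀ i, 0 ≤ D i)
    (Dm : ∀ i j, w i ≤ w j → D i ≤ D j) {i j : Fin q} (hij : w i < w j) {S V m : ℝ}
    (hS : 0 ≤ S) (hV : 0 ≤ V) (hm : m = min (K' w D i * S) (y * V)) :
    w i * ((1 - d i) * K' w D i * S + y * d i * V) + w j * ((1 - d j) * K' w D j * S +
      y * d j * V) + (1 - w i - w j) * d i * m ≤
    E w (fun k => (1 - d k) * K' w D k) * S + y * E w d * V := by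
  have hne : i ≠ j := fun e => by rw [e] at hij; exact lt_irrefl _ hij
  have hh0 : ∀ k, 0 ≤ K' w D k := K'_nonneg h.nn D0
  have m0 : 0 ≤ m := by
    rw [hm]
    exact le_min (mul_nonneg (hh0 i) hS) (mul_nonneg h.hy.le hV)
  have m1 : m ≤ K' w D i * S := hm ▸ min_le_left _ _
  have m2 : m ≤ y * V := hm ▸ min_le_right _ _
  have key : ∀ k, 0 ≤ (1 - d k) * K' w D k * S + y * d k * V - d i * m := by
    intro k
    rcases le_total (w k) (w i) with hk | hk
    · have e1 : w k * D k ≤ w i * D i :=
        mul_le_mul hk (Dm k i hk) (D0 k) (h.nn i)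
      have e2 : K' w D i ≤ K' w D k := by
        rw [K'_apply, K'_apply]
        linarith
      have e3 : m ≤ K' w D k * S := m1.trans (mul_le_mul_of_nonneg_right e2 hS)
      have e4 := mul_le_mul_of_nonneg_left e3 (sub_nonneg.2 (d1 k))
      have e5 := mul_le_mul_of_nonneg_left m2 (d0 k)
      have e6 := mul_le_mul_of_nonneg_right (d1 i) m0
      have e7 : (1 - d k) * m + d k * m = m := by ring
      nlinarith [e4, e5, e6, e7]
    · have e1 := mul_le_mul_of_nonneg_right (dm i k hk) m0
      have e2 := mul_le_mul_of_nonneg_left m2 (d0 k)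
      have e3 := mul_nonneg (mul_nonneg (sub_nonneg.2 (d1 k)) (hh0 k)) hS
      nlinarith [e1, e2, e3]
  have h2 := le_E2 h.nn key hne
  have h3 : E w (fun k => (1 - d k) * K' w D k * S + y * d k * V - d i * m) =
      E w (fun k => (1 - d k) * K' w D k) * S + y * E w d * V - d i * m := by
    rw [E_sub, E_add', E_const h]
    have e1 : E w (fun k => (1 - d k) * K' w D k * S) =
        S * E w (fun k => (1 - d k) * K' w D k) := by
      rw [← E_const_mul]
      congr 1
      funext k
      ring
    have e2 : E w (fun k => y * d k * V) = (y * V) * E w d := by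
      rw [← E_const_mul]
      congr 1
      funext k
      ring
    rw [e1, e2]
    ring
  rw [h3] at h2
  linarith

/-- the summand -/
noncomputable def cS (w : Fin q → ℝ) (y : ℝ) (B d D : Fin q → ℝ) (i j : Fin q) : ℝ :=
  w i * w j * ((1 - d i) * K' w D i * d j * (w j * (1 - D j) * B j - y * B i) -
    (B i - B j) / (w i - w j) / 2 * (y * E w d * ((d i - d j) * (w i * D i - w j * D j) +
      (w i - w j) * (D i - D j)) +
      E w (fun k => (1 - d k) * K' w D k) * ((w i * d i - w j * d j) * (D i - D j))))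

theorem cS_pair (h : Hyp w y) {B d D : Fin q → ℝ} (hB : Cone w B) (d0 : ∀ i, 0 ≤ d i)
    (d1 : ∀ i, d i ≤ 1) (dm : ∀ i j, w i ≤ w j → d i ≤ d j) (D0 : ∀ i, 0 ≤ D i)
    (Dm : ∀ i j, w i ≤ w j → D i ≤ D j) (DP : ∀ i, w i * D i ≤ w i - y) {i j : Fin q}
    (hij : w i < w j) : 0 ≤ cS w y B d D i j + cS w y B d D j i := by
  have hne : i ≠ j := fun e => by rw [e] at hij; exact lt_irrefl _ hij
  have hy := h.hy.le
  have he0 := h.pos i
  have hc0 := h.pos j
  have hΔ : 0 < w j - w i := sub_pos.2 hij
  set b := (B i - B j) / (w j - w i) with hb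
  have b0 : 0 ≤ b := div_nonneg (sub_nonneg.2 (hB.anti i j hij.le)) hΔ.le
  have hbe : B i = B j + b * (w j - w i) := by
    rw [hb, div_mul_cancel₀ _ hΔ.ne']
    ring
  have hbj : w i * b ≤ B j := by
    have e1 := hB.mono i j hij.le
    rw [hbe] at e1
    have e2 : (w j - w i) * (w i * b) ≤ (w j - w i) * B j := by nlinarith [e1]
    exact le_of_mul_le_mul_left e2 hΔ
  have p1 : 0 ≤ w i - w i * D i - y := by linarith [DP i]
  have p1' : 0 ≤ w j - w j * D j - y := by linarith [DP j]
  have hD : 0 ≤ D j - D i := sub_nonneg.2 (Dm i j hij.le)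
  have hh0 : ∀ k, 0 ≤ K' w D k := K'_nonneg h.nn D0
  set o := E w D - w i * D i - w j * D j with ho
  have o0 : 0 ≤ o := by
    have := le_E2 h.nn D0 hne
    linarith
  have o1 : o ≤ 1 - w i - w j := by
    have D1 : ∀ k, 0 ≤ 1 - D k := fun k => by
      have e1 := DP k
      have e2 := h.pos k
      have e3 : w k * D k ≤ w k * 1 := by linarith
      exact sub_nonneg.2 (le_of_mul_le_mul_left e3 e2)
    have := le_E2 h.nn D1 hne
    rw [E_sub, E_const h] at this
    linarith
  have hi : K' w D i = w j * D j + o := by rw [K'_apply]; linarith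
  have hj : K' w D j = w i * D i + o := by rw [K'_apply]; linarith
  set s := w j * d j - w i * d i with hs
  have s0 : 0 ≤ s := by
    have := mul_le_mul hij.le (dm i j hij.le) (d0 i) hc0.le
    linarith
  set V := (d j - d i) * (w j * D j - w i * D i) + (w j - w i) * (D j - D i) with hV
  have V0 : 0 ≤ V := by
    refine add_nonneg (mul_nonneg (sub_nonneg.2 (dm i j hij.le)) ?_) (mul_nonneg hΔ.le hD)
    have := mul_le_mul hij.le (Dm i j hij.le) (D0 i) hc0.le
    linarith
  have hoth := others h d0 d1 dm D0 Dm hij (S := s * (D j - D i)) (V := V)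
    (mul_nonneg s0 hD) V0 rfl
  have hsum : w i + w j ≤ 1 := by
    have := le_E2 h.nn (f := fun _ => 1) (fun _ => zero_le_one) hne
    rw [E_one h] at this
    linarith
  set m := min (K' w D i * (s * (D j - D i))) (y * V) with hm
  have hmm : m = (w j * D j + o) * ((w j * d j - w i * d i) * (D j - D i)) ∨
      m = y * ((d j - d i) * (w j * D j - w i * D i) + (w j - w i) * (D j - D i)) := by
    rw [← hs, ← hV, ← hi]
    exact min_choice _ _
  have hpol := poly_S hy he0 hij hsum (D0 i) (Dm i j hij.le) (DP i) (DP j) o0 o1 (d0 i)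
    (dm i j hij.le) (d1 j) hmm
  rw [← hs, ← hV, ← hi, ← hj] at hpol
  set Sh := E w (fun k => (1 - d k) * K' w D k) with hSh
  have f1 : b * (w i * (w j - w j * D j - y) - y * (w j - w i)) ≤
      w j * (1 - D j) * B j - y * B i := by
    have e1 := mul_le_mul_of_nonneg_left hbj p1'
    rw [hbe]
    linarith
  have f2 : b * (w j * (w i - w i * D i - y) + y * (w j - w i)) ≤
      w i * (1 - D i) * B i - y * B j := by
    have e1 := mul_le_mul_of_nonneg_left hbj p1
    rw [hbe]
    linarith
  have g1 := mul_le_mul_of_nonneg_left f1 (mul_nonneg (mul_nonneg (sub_nonneg.2 (d1 i)) (hh0 i))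
    (d0 j))
  have g2 := mul_le_mul_of_nonneg_left f2 (mul_nonneg (mul_nonneg (sub_nonneg.2 (d1 j)) (hh0 j))
    (d0 i))
  have g3 := mul_le_mul_of_nonneg_left hoth b0
  have g4 := mul_nonneg b0 hpol
  have e1 : (B i - B j) / (w i - w j) = -b := by
    rw [hb, ← div_neg, neg_sub]
  have e2 : (B j - B i) / (w j - w i) = -b := by
    rw [hb, ← neg_div, neg_sub]
  have e3 : cS w y B d D i j + cS w y B d D j i = w i * w j *
      ((1 - d i) * K' w D i * d j * (w j * (1 - D j) * B j - y * B i) +
      (1 - d j) * K' w D j * d i * (w i * (1 - D i) * B i - y * B j) +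
      b * (Sh * (s * (D j - D i)) + y * E w d * V)) := by
    rw [cS, cS, e1, e2, ← hSh, hs, hV]
    ring
  rw [e3]
  refine mul_nonneg (mul_nonneg he0.le hc0.le) ?_
  linarith

theorem star_ineq (h : Hyp w y) {B d D : Fin q → ℝ} (hB : Cone w B) (d0 : ∀ i, 0 ≤ d i)
    (d1 : ∀ i, d i ≤ 1) (dm : ∀ i j, w i ≤ w j → d i ≤ d j) (D0 : ∀ i, 0 ≤ D i)
    (Dm : ∀ i j, w i ≤ w j → D i ≤ D j) (DP : ∀ i, w i * D i ≤ w i - y) :
    0 ≤ y * E w d * (E w (fun i => star w B d i * K' w D i) -
        E w (fun i => B i * (1 - w i) * D i)) +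
      E w (fun i => (1 - d i) * K' w D i) *
        E w (fun i => star w B (fun k => 1 - D k) i * (w i * d i)) := by
  have hh0 : ∀ k, 0 ≤ K' w D k := K'_nonneg h.nn D0
  have hpos : 0 ≤ ∑ i, ∑ j, cS w y B d D i j := by
    refine dsum_nonneg w _ fun i j hij => ?_
    rcases hij.lt_or_eq with hij | hij
    · exact cS_pair h hB d0 d1 dm D0 Dm DP hij
    · obtain rfl : i = j := h.inj hij
      have e1 : cS w y B d D i i = w i * w i * ((1 - d i) * K' w D i * d i *
          ((w i - w i * D i - y) * B i)) := by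
        rw [cS]
        ring
      have e2 : 0 ≤ cS w y B d D i i := by
        rw [e1]
        exact mul_nonneg (mul_nonneg (h.nn i) (h.nn i)) (mul_nonneg (mul_nonneg (mul_nonneg
          (sub_nonneg.2 (d1 i)) (hh0 i)) (d0 i)) (mul_nonneg (by linarith [DP i]) (hB.nn i)))
      linarith
  set P : Fin q → Fin q → ℝ := fun i j => (B i - B j) / (w i - w j) with hP
  have hP1 : ∀ i j, P i j * (w i - w j) = B i - B j := by
    intro i j
    rcases eq_or_ne (w i) (w j) with he | he
    · obtain rfl : i = j := h.inj he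
      simp
    · exact div_mul_cancel₀ _ (sub_ne_zero.2 he)
  rw [E_star_mul, E_star_mul, tri, tri]
  set Sh := E w (fun k => (1 - d k) * K' w D k) with hSh
  set U2 := ∑ i, ∑ j, w i * w j * (P i j * ((d i - d j) * (w i * D i - w j * D j))) with hU2
  set U3 := ∑ i, ∑ j, w i * w j * (P i j * ((w i - w j) * (D i - D j))) with hU3
  set U4 := ∑ i, ∑ j, w i * w j * (P i j * ((w i * d i - w j * d j) * (D i - D j))) with hU4
  have e2 : (∑ c, ∑ k, w c * w k * ((B c - B k) * (d c - d k) *
      (K' w D c - K' w D k) / (w c - w k))) = -U2 := by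
    rw [hU2, ← sum_neg_distrib]
    refine sum_congr rfl fun i _ => ?_
    rw [← sum_neg_distrib]
    refine sum_congr rfl fun j _ => ?_
    rw [K'_apply, K'_apply, hP]
    ring
  have e4 : (∑ c, ∑ k, w c * w k * ((B c - B k) * ((1 - D c) - (1 - D k)) *
      (w c * d c - w k * d k) / (w c - w k))) = -U4 := by
    rw [hU4, ← sum_neg_distrib]
    refine sum_congr rfl fun i _ => ?_
    rw [← sum_neg_distrib]
    refine sum_congr rfl fun j _ => ?_
    rw [hP]
    ring
  have e3 : U3 = 2 * (E w (fun i => B i * D i) - E w B * E w D) := by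
    have k1 : U3 = ∑ i, ∑ j, (w i * (B i * D i) * w j + w i * (w j * (B j * D j)) -
        w i * B i * (w j * D j) - w i * D i * (w j * B j)) := by
      rw [hU3]
      refine sum_congr rfl fun i _ => sum_congr rfl fun j _ => ?_
      have := hP1 i j
      have k2 : P i j * ((w i - w j) * (D i - D j)) = (P i j * (w i - w j)) * (D i - D j) := by
        ring
      rw [k2, this]
      ring
    rw [k1]
    simp only [sum_sub_distrib, sum_add_distrib, ← mul_sum, ← sum_mul, h.one, E]
    ring
  have e5 : E w (fun i => B i * (1 - w i) * D i) = E w (fun i => B i * K' w D i) + U3 / 2 := by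
    have k1 : E w (fun i => B i * (1 - w i) * D i) = E w (fun i => B i * D i) -
        E w (fun i => B i * (w i * D i)) := by
      rw [← E_sub]
      congr 1
      funext i
      ring
    have k2 : E w (fun i => B i * K' w D i) = E w D * E w B -
        E w (fun i => B i * (w i * D i)) := by
      rw [← E_const_mul, ← E_sub]
      congr 1
      funext i
      rw [K'_apply]
      ring
    rw [k1, k2, e3]
    ring
  have e6 : ∑ i, ∑ j, cS w y B d D i j = (Sh * E w (fun j => B j * (1 - D j) * (w j * d j)) -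
      y * E w d * E w (fun i => (1 - d i) * K' w D i * B i)) -
      (y * E w d * (U2 + U3) + Sh * U4) / 2 := by
    have k1 : ∀ i j, cS w y B d D i j =
        w i * ((1 - d i) * K' w D i) * (w j * (B j * (1 - D j) * (w j * d j))) -
        y * (w i * ((1 - d i) * K' w D i * B i)) * (w j * d j) -
        (y * E w d / 2 * (w i * w j * (P i j * ((d i - d j) * (w i * D i - w j * D j)))) +
         y * E w d / 2 * (w i * w j * (P i j * ((w i - w j) * (D i - D j)))) +
         Sh / 2 * (w i * w j * (P i j * ((w i * d i - w j * d j) * (D i - D j))))) := by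
      intro i j
      rw [cS, ← hSh, hP]
      ring
    simp only [k1, sum_sub_distrib, sum_add_distrib, ← mul_sum, ← sum_mul]
    rw [← hU2, ← hU3, ← hU4]
    simp only [hSh, E]
    ring
  have e7 : E w (fun i => (1 - d i) * K' w D i * B i) = E w (fun i => B i * K' w D i) -
      E w (fun c => B c * d c * K' w D c) := by
    rw [← E_sub]
    congr 1
    funext i
    ring
  rw [e6, e7] at hpos
  rw [e2, e4, e5]
  linarith

theorem psi_one : psi w y 1 = C y + Polynomial.X := by
  rw [psi_succ, psi_zero, l_zero, mul_one, mul_one]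

theorem l_one_eq (h : Hyp w y) : l w y 1 = 1 := by
  rw [l_succ, psi_zero, L_def, hat_one]
  exact E_one h

/-- the rest of `w` goes to the end of the leaf -/
theorem D_L (h : Hyp w y) (A : ℝ) (Λ : ℝ[X]) (c : ℕ) (J : List ℕ) :
    Z w y A Λ (.cons (R (0 :: J)) (R [c])) =
      Z w y A Λ (.cons (.cons (R J) .nil) (R [c])) +
      y * (E w (fun i => hat w (Λ * psi w y (c + 1)) i *
          (w i * ((st w y (R J)).a - hat w (st w y (R J)).p i))) -
        y * A * l w y (c + 1) * E w (fun i => (st w y (R J)).a - hat w (st w y (R J)).p i)) := by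
  set p := (st w y (R J)).a with hp
  set φ := (st w y (R J)).p with hφ
  have e1 : st w y (R (0 :: J)) = ⟨l w y 1 * p, psi w y 1 * φ⟩ := by
    rw [st_R_cons]
  have e2 : st w y (.cons (R J) .nil) = ⟨L w φ, C (y * p) + Polynomial.X * φ⟩ := by
    rw [st_one]
  rw [Z_gw, Z_gw, Z, Z, e1, e2]
  simp only
  set Γ := C (y * A * l w y (c + 1)) + Polynomial.X * Λ * psi w y (c + 1) with hΓ
  have f1 : Γ * (psi w y 1 * φ) = Γ * (C (y * p) + Polynomial.X * φ) -
      C y * (Γ * (C p - φ)) := by
    rw [psi_one, C_mul]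
    ring
  have f2 : L w (Γ * (C p - φ)) = E w (fun i => hat w Γ i * (p - hat w φ i)) := by
    rw [L_mul]
    congr 1
    funext i
    rw [map_sub, hat_C, Pi.sub_apply]
  have f3 : L w φ = p - E w (fun i => p - hat w φ i) := by
    rw [E_sub, E_const h, L_def]
    ring
  have f4 : ∀ i, hat w Γ i = L w (Λ * psi w y (c + 1)) -
      w i * hat w (Λ * psi w y (c + 1)) i + y * A * l w y (c + 1) := by
    intro i
    rw [hΓ, map_add, hat_C, mul_assoc Polynomial.X, hat_X_mul, Pi.add_apply, K'_apply, L_def]
    ring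
  have f5 : E w (fun i => hat w Γ i * (p - hat w φ i)) =
      (L w (Λ * psi w y (c + 1)) + y * A * l w y (c + 1)) * E w (fun i => p - hat w φ i) -
      E w (fun i => hat w (Λ * psi w y (c + 1)) i * (w i * (p - hat w φ i))) := by
    rw [← E_const_mul, ← E_sub]
    congr 1
    funext i
    rw [f4]
    ring
  rw [f1, map_sub, L_C_mul, f2, f5, l_one_eq h]
  rw [f3]
  ring

/-- **Lemma S**: a leaf of `w`, any leg `c` at `g` -/
theorem leaf_leg (h : Hyp w y) (c : ℕ) {J : List ℕ} (hJ : J ≠ []) :
    Imp w y (.cons (R (0 :: J)) (R [c])) := by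
  intro A Λ hA hΛ
  have hw := h.nn
  have hy := h.hy.le
  have hst := st_nonneg hw hy (R J)
  have hdef := R_defect h J
  have hDM := D_L h A Λ c J
  have hDQ := D_Q (w := w) (y := y) A Λ 0 c J
  set p := (st w y (R J)).a with hp
  set φ := (st w y (R J)).p with hφ
  have hl : 0 < l w y (c + 1) := Pool.Agent.Helper31.SW.l_pos h _
  set lc := l w y (c + 1) with hlc
  have hch := Cone.ch hw hy (c + 1)
  -- the normalised functions
  set d : Fin q → ℝ := fun i => (p - hat w φ i) / p with hd
  set D : Fin q → ℝ := fun i => (w i - y) * ch w y (c + 1) i / lc with hD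
  have hφc := Cone.hat hw hst.2
  have hζ : ∀ i, p - hat w φ i = p * d i := by
    intro i
    rcases eq_or_ne p 0 with h0 | h0
    · have h1 := hdef i
      have h2 := hφc.nn i
      rw [h0] at h1 ⊢
      rw [zero_mul]
      linarith
    · rw [hd]
      exact (mul_div_cancel₀ _ h0).symm
  have hDl : ∀ i, (w i - y) * ch w y (c + 1) i = lc * D i := fun i =>
    (mul_div_cancel₀ _ hl.ne').symm
  have d0 : ∀ i, 0 ≤ d i := fun i => div_nonneg (hdef i) hst.1
  have d1 : ∀ i, d i ≤ 1 := fun i =>
    div_le_one_of_le₀ (by linarith [hφc.nn i]) hst.1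
  have dm : ∀ i j, w i ≤ w j → d i ≤ d j := fun i j hij =>
    div_le_div_of_nonneg_right (by linarith [hφc.anti i j hij]) hst.1
  have D0 : ∀ i, 0 ≤ D i := fun i =>
    div_nonneg (mul_nonneg (sub_nonneg.2 (h.lt i).le) (hch.nn i)) hl.le
  have Dm : ∀ i j, w i ≤ w j → D i ≤ D j := fun i j hij =>
    div_le_div_of_nonneg_right (hch.sub_mono hy i j hij) hl.le
  have DP : ∀ i, w i * D i ≤ w i - y := by
    intro i
    have e1 : w i * ch w y (c + 1) i ≤ lc := by
      have := (Cone.ch hw hy (c + 2)).nn i
      rw [ch_succ] at this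
      linarith
    have e2 := mul_le_mul_of_nonneg_left e1 (sub_nonneg.2 (h.lt i).le)
    have e3 : w i * D i = (w i - y) * (w i * ch w y (c + 1) i) / lc := by
      rw [hD]
      ring
    rw [e3, div_le_iff₀ hl]
    exact e2
  have hmain := star_ineq h (Cone.hat hw hΛ) d0 d1 dm D0 Dm DP
  set γ := hat w Λ with hγ
  -- rewriting the differences
  have s1 : ∀ i, hat w (Λ * psi w y (c + 1)) i = lc * star w γ (fun k => 1 - D k) i := by
    intro i
    rw [hat_mul_star h.inj]
    have : hat w (psi w y (c + 1)) = fun k => lc * (1 - D k) := by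
      funext k
      rw [hat_psi, hDl]
      ring
    rw [this, star_smul]
  have s2 : E w (fun i => hat w (Λ * psi w y (c + 1)) i * (w i * (p - hat w φ i))) =
      p * lc * E w (fun i => star w γ (fun k => 1 - D k) i * (w i * d i)) := by
    rw [← E_const_mul]
    congr 1
    funext i
    rw [s1, hζ]
    ring
  have s3 : E w (fun i => p - hat w φ i) = p * E w d := by
    rw [← E_const_mul]
    congr 1
    funext i
    exact hζ i
  have s4 : ∀ i, wf w y (c + 1) 1 i = lc * K' w D i := by
    intro i
    have k1 : hat w (C lc - psi w y (c + 1)) = lc • D := by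
      funext k
      rw [map_sub, hat_C, Pi.sub_apply, hat_psi, hDl, Pi.smul_apply, smul_eq_mul]
      ring
    have k2 : psi w y 1 * (C lc - psi w y (c + 1)) = C y * (C lc - psi w y (c + 1)) +
        Polynomial.X * (C lc - psi w y (c + 1)) := by
      rw [psi_one]
      ring
    rw [wf_eq, ← hlc, k2, map_add, hat_C_mul, hat_X_mul, k1, map_smul, th, ch_one, hDl]
    simp only [Pi.add_apply, Pi.smul_apply, smul_eq_mul]
    ring
  have s5 : E w (fun i => wf w y (c + 1) (0 + 1) i * hat w φ i) =
      p * lc * E w (fun i => (1 - d i) * K' w D i) := by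
    rw [← E_const_mul]
    congr 1
    funext i
    have := hζ i
    rw [zero_add, s4, show hat w φ i = p - p * d i by linarith]
    ring
  have s6 : E w (fun i => th w y (c + 1) (0 + 2) i * γ i) =
      lc * E w (fun i => γ i * (1 - w i) * D i) := by
    rw [← E_const_mul]
    congr 1
    funext i
    have k1 : ch w y (0 + 2) i = 1 - w i := by
      rw [zero_add, ch_succ, ch_one, l_one_eq h]
      ring
    rw [th, k1, hDl]
    ring
  have s7 : E w (fun i => th w y (c + 1) (0 + 1) i * K' w (aeval (K' w) Λ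
      (fun i => p - hat w φ i)) i) = p * lc * E w (fun i => star w γ d i * K' w D i) := by
    have k1 : (fun i => p - hat w φ i) = fun i => p * d i := funext hζ
    have k2 : (fun i => th w y (c + 1) (0 + 1) i) = fun i => lc * D i := by
      funext i
      rw [th, zero_add, ch_one, hDl]
      ring
    have k3 : ∀ i, th w y (c + 1) (0 + 1) i = lc * D i := fun i => congrFun k2 i
    simp only [k3]
    rw [k1, aeval_eq_star h.inj, star_comm, star_smul]
    have k4 : E w (fun i => lc * D i * K' w (fun i => p * star w γ d i) i) =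
        lc * p * E w (fun i => D i * K' w (star w γ d) i) := by
      rw [← E_const_mul]
      congr 1
      funext i
      have : (fun i => p * star w γ d i) = p • star w γ d := by
        funext i
        rfl
      rw [this, map_smul, Pi.smul_apply, smul_eq_mul]
      ring
    rw [k4, ← E_K'_mul w D (star w γ d)]
    have k5 : E w (fun i => K' w D i * star w γ d i) = E w (fun i => star w γ d i * K' w D i) := by
      congr 1
      funext i
      ring
    rw [k5]
    ring
  rw [s2, s3] at hDM
  rw [s5, s6, s7] at hDQ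
  set Q := E w (fun i => star w γ (fun k => 1 - D k) i * (w i * d i)) with hQ
  set Sh := E w (fun i => (1 - d i) * K' w D i) with hSh
  set N := E w (fun i => γ i * (1 - w i) * D i) with hN
  set T := E w (fun i => star w γ d i * K' w D i) with hT
  have hpl : 0 ≤ y * (p * lc) := mul_nonneg hy (mul_nonneg hst.1 hl.le)
  have hlv1 := lv_R (0 :: J)
  have hlv2 := lv_R J
  have hlv3 := lv_R ((0 + c + 1) :: J)
  have hlvc := lv_R [c]
  have hJ1 : 1 ≤ J.length := List.length_pos_iff.2 hJ
  simp only [List.length_cons, List.length_nil] at hlv1 hlv3 hlvc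
  by_cases hm : y * A * E w d ≤ Q
  · refine ⟨.cons (.cons (R J) .nil) (R [c]), ⟨?_, Or.inl ?_⟩, ?_⟩
    · simp only [R, B.size, B.size_path]; omega
    · simp only [lv, hlv1, hlv2, hlvc]
      omega
    · rw [hDM]
      have e1 : y * (p * lc * Q - y * A * lc * (p * E w d)) =
          y * (p * lc) * (Q - y * A * E w d) := by ring
      rw [e1]
      exact le_add_of_nonneg_right (mul_nonneg hpl (sub_nonneg.2 hm))
  · rw [not_le] at hm
    refine ⟨.cons (R ((0 + c + 1) :: J)) .nil, ⟨?_, Or.inl ?_⟩, ?_⟩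
    · simp only [R, B.size, B.size_path]; omega
    · simp only [lv, hlv1, hlv3, hlvc]
      omega
    · rw [hDQ]
      have Sh0 : 0 ≤ Sh := E_nonneg hw fun i =>
        mul_nonneg (sub_nonneg.2 (d1 i)) (K'_nonneg hw D0 i)
      have Q0 : 0 ≤ Q := E_nonneg hw fun i => by
        refine mul_nonneg ?_ (mul_nonneg (hw i) (d0 i))
        have k1 := (Cone.hat hw (hΛ.mul (psi_NN hw hy (w := w) (y := y) (c + 1)))).nn i
        rw [s1] at k1
        exact nonneg_of_mul_nonneg_right k1 hl
      have Ed0 : 0 ≤ E w d := E_nonneg hw d0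
      have key : 0 ≤ A * Sh - N + T := by
        have k1 : 0 < y * E w d * A := by nlinarith
        have k2 : 0 < y * E w d := by
          rcases (mul_nonneg hy Ed0).lt_or_eq with h1 | h1
          · exact h1
          · rw [← h1, zero_mul] at k1
            exact absurd k1 (lt_irrefl _)
        have k3 := mul_le_mul_of_nonneg_right hm.le Sh0
        have k4 : 0 ≤ y * E w d * (A * Sh - N + T) := by linarith
        exact nonneg_of_mul_nonneg_right k4 k2
      have e1 : y * (A * (p * lc * Sh) - p * (lc * N) + p * lc * T) =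
          y * (p * lc) * (A * Sh - N + T) := by ring
      rw [e1]
      exact le_add_of_nonneg_right (mul_nonneg hpl key)

/-- Lemma S for any list with a leaf -/
theorem leaf_leg' (h : Hyp w y) (c : ℕ) {J : List ℕ} (h0 : 0 ∈ J) (hJ : 2 ≤ J.length) :
    Imp w y (.cons (R J) (R [c])) := by
  have p1 := List.perm_cons_erase h0
  have h1 : (J.erase 0).length = J.length - 1 := List.length_erase_of_mem h0
  refine Pool.Agent.Helper31.SW.Imp_perm p1.symm _ (leaf_leg h c ?_)
  intro h2
  rw [h2] at h1
  simp only [List.length_nil] at h1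
  omega

end Pool.Agent.Helper66.SW
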