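import Pool.Agent.Helper66.SW.Two
import Pool.Agent.Helper31.SW.LegK

/-!
S-world, case (L), leg of size two at `g`: lists of legs.
-/

set_option autoImplicit false

namespace Pool.Agent.Helper66.SW

open Pool.Agent.Helper4.SW

variable {q : ℕ} {w : Fin q → ℝ} {y : ℝ}

/-- a leg of size two at `g`, at least two legs of `w` of even size (entries are sizes minus one) -/
theorem leg_two (h : Hyp w y) {J : List ℕ} (hJ : 2 ≤ J.countP (fun j => decide (Odd j))) :
    Imp w y (.cons (R J) (R [1])) := by
  obtain ⟨a, b, J', hp, ha, hb⟩ := Pool.Agent.Helper31.SW.two_of_count hJ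
  rw [decide_eq_true_eq] at ha hb
  exact Pool.Agent.Helper31.SW.Imp_perm hp.symm _ (leg_two' h ha hb J')

end Pool.Agent.Helper66.SW
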