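import Pool.Agent.Helper4.SW.Asm2
import Pool.Agent.Helper66.SW.Even
import Pool.Agent.Helper66.SW.TwoW
import Pool.Agent.Helper66.SW.LemS

/-!
S-world: a spider `J` with at least three legs and a leg `c` at `g`, from the two remaining classes.
Entries are sizes minus one.
-/

set_option autoImplicit false

namespace Pool.Agent.Helper66.SW

open Pool.Agent.Helper4.SW
open Pool.Agent.Helper31.SW (Imp_perm leg_K1 leg_K2)

variable {q : ℕ} {w : Fin q → ℝ} {y : ℝ}

theorem count_split (J : List ℕ) : J.countP (fun j => decide (Even j)) +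
    J.countP (fun j => decide (Odd j)) = J.length := by
  induction J with
  | nil => rfl
  | cons j J ih =>
    simp only [List.countP_cons, List.length_cons, decide_eq_true_eq]
    rcases Nat.even_or_odd j with hj | hj
    · rw [if_pos hj, if_neg (Nat.not_odd_iff_even.2 hj)]
      omega
    · rw [if_neg (Nat.not_even_iff_odd.2 hj), if_pos hj]
      omega

/-- all classes of a leg at `g` except two -/
theorem leg_of (h : Hyp w y)
    (h1 : ∀ (c : ℕ) (J : List ℕ), Even c → 2 ≤ c → 3 ≤ J.length → 0 ∉ J →
      J.countP (fun j => decide (Even j)) ≤ 1 → Good w y (.cons (R J) (R [c])))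
    (h5 : ∀ J : List ℕ, 3 ≤ J.length → 0 ∉ J → J.countP (fun j => decide (Odd j)) ≤ 1 →
      Good w y (.cons (R J) (R [1])))
    (c : ℕ) (J : List ℕ) (hJ : 3 ≤ J.length) : Good w y (.cons (R J) (R [c])) := by
  by_cases h0 : 0 ∈ J
  · exact (leaf_leg' h c h0 (by omega)).good
  rcases Nat.eq_zero_or_pos c with rfl | hc
  · match J, hJ with
    | a :: b :: J', _ => exact (leaf_case h a (b :: J') (by simp)).good
  rcases Nat.even_or_odd c with hce | hco
  · by_cases h2 : 2 ≤ J.countP (fun j => decide (Even j))
    · exact (leg_K2 h hce h2).good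
    · have h3 : 2 ≤ c := by
        rcases hce with ⟨r, hr⟩
        omega
      exact h1 c J hce h3 hJ h0 (by omega)
  · by_cases h3 : 3 ≤ c
    · by_cases h4 : ∃ a ∈ J, Even a
      · obtain ⟨a, haJ, ha⟩ := h4
        have ha0 : a ≠ 0 := fun e => h0 (e ▸ haJ)
        have ha2 : 2 ≤ a := by
          rcases ha with ⟨r, hr⟩
          omega
        exact (leg_K1 h hco h3 (by omega) haJ ha ha2).good
      · refine (leg_even h hco (fun j hj => ?_) (by omega)).good
        by_contra hc2
        exact h4 ⟨j, hj, Nat.not_odd_iff_even.1 hc2⟩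
    · have h4 : c = 1 := by
        rcases hco with ⟨r, hr⟩
        omega
      subst h4
      by_cases h2 : 2 ≤ J.countP (fun j => decide (Odd j))
      · exact (leg_two h h2).good
      · exact h5 J hJ h0 (by omega)

/-- (D) from the two remaining classes -/
theorem goodD_of (h : Hyp w y)
    (h1 : ∀ (c : ℕ) (J : List ℕ), Even c → 2 ≤ c → 3 ≤ J.length → 0 ∉ J →
      J.countP (fun j => decide (Even j)) ≤ 1 → Good w y (.cons (R J) (R [c])))
    (h5 : ∀ J : List ℕ, 3 ≤ J.length → 0 ∉ J → J.countP (fun j => decide (Odd j)) ≤ 1 →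
      Good w y (.cons (R J) (R [1]))) : GoodD w y :=
  fun c J hJ _ => leg_of h h1 h5 c J hJ

end Pool.Agent.Helper66.SW
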