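import Pool.Agent.Helper66.SW.GoodD
import Pool.Agent.Helper76.FU.ClassI

/-!
S-world: (D) from the last class (a leg of size two at `g`, at most one leg of even size at `w`).
-/

set_option autoImplicit false

namespace Pool.Agent.Helper66.SW

open Pool.Agent.Helper4.SW

variable {q : ℕ} {w : Fin q → ℝ} {y : ℝ}

theorem goodD_of_five (h : Hyp w y)
    (h5 : ∀ J : List ℕ, 3 ≤ J.length → 0 ∉ J → J.countP (fun j => decide (Odd j)) ≤ 1 →
      Good w y (.cons (R J) (R [1]))) : GoodD w y :=
  goodD_of h (Pool.Agent.Helper76.FU.class_i h) h5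

end Pool.Agent.Helper66.SW
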