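import Mathlib

/-!
Explicit polynomial inequalities for a leg of size two at `g` and two even legs at `w`.
-/

set_option autoImplicit false
set_option maxRecDepth 20000

namespace Pool.Agent.Helper66.SW

theorem P1a {x σ y g : ℝ} (hg : g = x + σ) (hy : 0 < y) (hσ : y ≤ σ) (hx : σ + y ≤ x) :
    0 ≤ (x * (y * g + x * σ + y * σ) - y * (y * g + 2 * x * σ)) * σ * (σ + y) -
      y * g * (σ - y) * (y * g + 2 * x * σ) := by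
  subst hg
  obtain ⟨r, rfl⟩ : ∃ r, σ = y + r := ⟨σ - y, by ring⟩
  obtain ⟨m, rfl⟩ : ∃ m, x = 2 * y + r + m := ⟨x - (2 * y + r), by ring⟩
  have hr : 0 ≤ r := by linarith
  have hm : 0 ≤ m := by linarith
  have h0 : 0 ≤ ((10 * y ^ 5 + 14 * y ^ 4 * r + 14 * y ^ 4 * m + 9 * y ^ 3 * r ^ 2 + 21 * y ^ 3 * r * m) +
      (4 * y ^ 3 * m ^ 2 + 8 * y ^ 2 * r ^ 3 + 15 * y ^ 2 * r ^ 2 * m + 5 * y ^ 2 * r * m ^ 2 + 5 * y * r ^ 4) +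
      (8 * y * r ^ 3 * m + 3 * y * r ^ 2 * m ^ 2 + r ^ 5 + 2 * r ^ 4 * m + r ^ 3 * m ^ 2)) := by
    positivity
  refine h0.trans (le_of_eq ?_)
  ring

theorem P2a {x σ y g : ℝ} (hg : g = x + σ) (hy : 0 < y) (hσ : y ≤ σ) (hx : σ + y ≤ x) :
    0 ≤ ((x * (y * g + x * σ + y * σ) - y * (y * g + 2 * x * σ)) * σ * (σ + y) -
      y * g * (σ - y) * (y * g + 2 * x * σ)) * σ * (x - y) -
      (σ - y) * x * (σ + y) * (y * x * (y * g + 2 * x * σ) - x * (y * g + x * σ + y * σ) * σ) := by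
  subst hg
  obtain ⟨r, rfl⟩ : ∃ r, σ = y + r := ⟨σ - y, by ring⟩
  obtain ⟨m, rfl⟩ : ∃ m, x = 2 * y + r + m := ⟨x - (2 * y + r), by ring⟩
  have hr : 0 ≤ r := by linarith
  have hm : 0 ≤ m := by linarith
  have h0 : 0 ≤ ((10 * y ^ 7 + 26 * y ^ 6 * r + 24 * y ^ 6 * m + 67 * y ^ 5 * r ^ 2 + 57 * y ^ 5 * r * m) +
      (18 * y ^ 5 * m ^ 2 + 122 * y ^ 4 * r ^ 3 + 114 * y ^ 4 * r ^ 2 * m + 38 * y ^ 4 * r * m ^ 2 + 4 * y ^ 4 * m ^ 3) +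
      (121 * y ^ 3 * r ^ 4 + 160 * y ^ 3 * r ^ 3 * m + 60 * y ^ 3 * r ^ 2 * m ^ 2 + 7 * y ^ 3 * r * m ^ 3 + 65 * y ^ 2 * r ^ 5) +
      (119 * y ^ 2 * r ^ 4 * m + 63 * y ^ 2 * r ^ 3 * m ^ 2 + 9 * y ^ 2 * r ^ 2 * m ^ 3 + 18 * y * r ^ 6 + 43 * y * r ^ 5 * m) +
      (32 * y * r ^ 4 * m ^ 2 + 7 * y * r ^ 3 * m ^ 3 + 2 * r ^ 7 + 6 * r ^ 6 * m + 6 * r ^ 5 * m ^ 2)) +
      ((2 * r ^ 4 * m ^ 3)) := by
    positivity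
  refine h0.trans (le_of_eq ?_)
  ring

theorem P1b {x σ y g : ℝ} (hg : g = x + σ) (hy : 0 < y) (hσ : 2 * y ≤ σ) (hx : σ + y ≤ x) :
    0 ≤ (x * (y * g + x * σ + 2 * y * σ) - y * (y * g + 2 * x * σ + y * σ)) * σ * (σ + y) -
      y * g * (σ - 2 * y) * (y * g + 2 * x * σ + y * σ) := by
  subst hg
  obtain ⟨r, rfl⟩ : ∃ r, σ = 2 * y + r := ⟨σ - 2 * y, by ring⟩
  obtain ⟨m, rfl⟩ : ∃ m, x = 3 * y + r + m := ⟨x - (3 * y + r), by ring⟩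
  have hr : 0 ≤ r := by linarith
  have hm : 0 ≤ m := by linarith
  have h0 : 0 ≤ ((156 * y ^ 5 + 209 * y ^ 4 * r + 114 * y ^ 4 * m + 128 * y ^ 3 * r ^ 2 + 129 * y ^ 3 * r * m) +
      (18 * y ^ 3 * m ^ 2 + 49 * y ^ 2 * r ^ 3 + 63 * y ^ 2 * r ^ 2 * m + 16 * y ^ 2 * r * m ^ 2 + 11 * y * r ^ 4) +
      (17 * y * r ^ 3 * m + 6 * y * r ^ 2 * m ^ 2 + r ^ 5 + 2 * r ^ 4 * m + r ^ 3 * m ^ 2)) := by
    positivity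
  refine h0.trans (le_of_eq ?_)
  ring

theorem P2b {x σ y g : ℝ} (hg : g = x + σ) (hy : 0 < y) (hσ : 2 * y ≤ σ) (hx : σ + y ≤ x) :
    0 ≤ ((x * (y * g + x * σ + 2 * y * σ) - y * (y * g + 2 * x * σ + y * σ)) * σ * (σ + y) -
      y * g * (σ - 2 * y) * (y * g + 2 * x * σ + y * σ)) * σ * (x - y) -
      (σ - 2 * y) * (g - y) * (σ + y) *
      (y * (g - y) * (y * g + 2 * x * σ + y * σ) - x * (y * g + x * σ + 2 * y * σ) * σ) := by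
  subst hg
  obtain ⟨r, rfl⟩ : ∃ r, σ = 2 * y + r := ⟨σ - 2 * y, by ring⟩
  obtain ⟨m, rfl⟩ : ∃ m, x = 3 * y + r + m := ⟨x - (3 * y + r), by ring⟩
  have hr : 0 ≤ r := by linarith
  have hm : 0 ≤ m := by linarith
  have h0 : 0 ≤ ((624 * y ^ 7 + 1628 * y ^ 6 * r + 768 * y ^ 6 * m + 2112 * y ^ 5 * r ^ 2 + 1696 * y ^ 5 * r * m) +
      (300 * y ^ 5 * m ^ 2 + 1719 * y ^ 4 * r ^ 3 + 1844 * y ^ 4 * r ^ 2 * m + 547 * y ^ 4 * r * m ^ 2 + 36 * y ^ 4 * m ^ 3) +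
      (886 * y ^ 3 * r ^ 4 + 1214 * y ^ 3 * r ^ 3 * m + 485 * y ^ 3 * r ^ 2 * m ^ 2 + 53 * y ^ 3 * r * m ^ 3 + 273 * y ^ 2 * r ^ 5) +
      (472 * y ^ 2 * r ^ 4 * m + 247 * y ^ 2 * r ^ 3 * m ^ 2 + 38 * y ^ 2 * r ^ 2 * m ^ 3 + 45 * y * r ^ 6 + 97 * y * r ^ 5 * m) +
      (66 * y * r ^ 4 * m ^ 2 + 14 * y * r ^ 3 * m ^ 3 + 3 * r ^ 7 + 8 * r ^ 6 * m + 7 * r ^ 5 * m ^ 2)) +
      ((2 * r ^ 4 * m ^ 3)) := by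
    positivity
  refine h0.trans (le_of_eq ?_)
  ring

end Pool.Agent.Helper66.SW
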