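import Pool.Agent.Helper66.SW.Pair

/-!
S-world: walks from a part `j`; for an even number of steps all end colours are at least as likely
as `y` relative to their weight (M3 of note 982), and the pointwise inequality (PW) of note 1070.
-/

set_option autoImplicit false

namespace Pool.Agent.Helper66.SW

open Pool.Agent.Helper4.SW Pool.Agent.Helper31.SW
open Pool.Agent.Helper6.HL hiding X
open Finset Polynomial

variable {q : ℕ} {w : Fin q → ℝ} {y : ℝ}

/-- iterates of `1` over all colours -/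
theorem pow_one_full (k : ℕ) : ((K' (xx w y)) ^ k) (fun _ => 1) =
    (Fin.cons (l w y k) (hat w (psi w y k)) : Fin (q + 1) → ℝ) := by
  induction k with
  | zero =>
    rw [pow_zero, l_zero, psi_zero, hat_one]
    funext i
    exact Fin.cases rfl (fun i => rfl) i
  | succ k ih =>
    rw [pow_succ_apply, ih]
    have h1 : E (xx w y) (Fin.cons (l w y k) (hat w (psi w y k)) : Fin (q + 1) → ℝ) =
        y * l w y k + l w y (k + 1) := by
      rw [E_xx, l_succ, L_def]
      rfl
    funext i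
    rw [K'_apply, h1]
    refine Fin.cases ?_ (fun i => ?_) i
    · simp only [Fin.cons_zero, xx_zero]
      ring
    · simp only [Fin.cons_succ, xx_succ]
      rw [psi_succ, map_add, hat_C, hat_X_mul, Pi.add_apply, K'_apply, l_succ, L_def]
      ring

/-- the indicator of the part `j` -/
noncomputable def ej (j : Fin q) : Fin (q + 1) → ℝ := Pi.single j.succ 1

theorem E_ej (j : Fin q) (g : Fin (q + 1) → ℝ) :
    E (xx w y) (fun i => ej j i * g i) = w j * g j.succ := by
  rw [E, Finset.sum_eq_single j.succ]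
  · simp [ej, xx_succ]
  · intro b _ hb
    simp [ej, Pi.single_eq_of_ne hb]
  · intro h
    exact absurd (mem_univ _) h

theorem E_e0 (g : Fin (q + 1) → ℝ) :
    E (xx w y) (fun i => e0 i * g i) = y * g 0 := by
  rw [E_xx]
  simp [e0]

theorem Kpow_nn (h : Hyp w y) (m : ℕ) {g : Fin (q + 1) → ℝ} (hg : ∀ i, 0 ≤ g i)
    (i : Fin (q + 1)) : 0 ≤ ((K' (xx w y)) ^ m) g i := by
  induction m generalizing i with
  | zero => exact hg i
  | succ m ih =>
    rw [pow_succ_apply]
    exact K'_nonneg (fun i => (Hyp.xx_pos h i).le) ih i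

theorem ej_nn (j : Fin q) (i : Fin (q + 1)) : 0 ≤ ej j i := by
  rcases eq_or_ne i j.succ with hi | hi
  · subst hi; simp [ej]
  · simp [ej, Pi.single_eq_of_ne hi]

/-- walks from `j`: end colours different from `j` -/
theorem walk_ne (h : Hyp w y) (j k : Fin q) (hk : k ≠ j) (m : ℕ) :
    y * ((K' (xx w y)) ^ m) (ej j) 0 ≤ w k * ((K' (xx w y)) ^ m) (ej j) k.succ ∧
    ((K' (xx w y)) ^ m) (ej j) k.succ ≤ ((K' (xx w y)) ^ m) (ej j) 0 := by
  induction m with
  | zero =>
    have e1 : ej j 0 = 0 := by simp [ej]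
    have e2 : ej j k.succ = 0 := by
      have : k.succ ≠ j.succ := fun e => hk (Fin.succ_injective _ e)
      simp [ej, Pi.single_eq_of_ne this]
    rw [pow_zero]
    simp [e1, e2]
  | succ m ih =>
    rw [pow_succ_apply, K'_apply, K'_apply]
    set v := ((K' (xx w y)) ^ m) (ej j)
    have hv : ∀ i, 0 ≤ v i := Kpow_nn h m (ej_nn j)
    have hS := le_E2 (fun i => (Hyp.xx_pos h i).le) hv (i := 0) (j := k.succ)
      (by exact (Fin.succ_ne_zero k).symm)
    rw [xx_zero, xx_succ] at hS ⊢
    obtain ⟨i1, i2⟩ := ih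
    have hy := h.hy
    have hlt := h.lt k
    refine ⟨?_, by linarith⟩
    have h3 := mul_le_mul_of_nonneg_left hS (sub_nonneg.2 hlt.le)
    have h4 := mul_le_mul_of_nonneg_left i2 (mul_nonneg hy.le (h.nn k))
    have h5 : (w k - y) * (y * v 0 + w k * v k.succ) = w k * (y * v 0) - y * (y * v 0) +
      w k * (w k * v k.succ) - w k * y * v k.succ := by ring
    nlinarith

/-- (M3) an even number of steps: returning to `j` -/
theorem walk_self (h : Hyp w y) (j : Fin q) (m : ℕ) :
    y * ((K' (xx w y)) ^ (m + m)) (ej j) 0 ≤ w j * ((K' (xx w y)) ^ (m + m)) (ej j) j.succ := by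
  set K := K' (xx w y) with hK
  have hy := h.hy
  have hu : 0 < w j - y := sub_pos.2 (h.lt j)
  set z0 : Fin (q + 1) → ℝ := (1 / (w j - y)) • ((w j / y) • e0 - ej j) with hz0
  have hKe0 : K e0 = fun i => y * (1 - e0 i) := by
    funext i
    have := E_e0 (w := w) (y := y) (fun _ => 1)
    simp only [mul_one] at this
    rw [hK, K'_apply]
    have e1 : E (xx w y) (e0 (q := q)) = y := by
      rw [show (e0 (q := q)) = fun i => e0 i from rfl]; exact this
    rw [e1]
    refine Fin.cases ?_ (fun i => ?_) i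
    · simp [e0, xx_zero]
    · simp [e0]
  have hKej : K (ej j) = fun i => w j * (1 - ej j i) := by
    funext i
    have := E_ej (w := w) (y := y) j (fun _ => 1)
    simp only [mul_one] at this
    rw [hK, K'_apply]
    have e1 : E (xx w y) (ej j) = w j := by
      rw [show (ej j) = fun i => ej j i from rfl]; exact this
    rw [e1]
    rcases eq_or_ne i j.succ with hi | hi
    · subst hi
      simp [ej, xx_succ]
    · simp [ej, Pi.single_eq_of_ne hi]
  have hKz : K z0 = (w j / (w j - y)) • (ej j - e0) := by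
    rw [hz0, map_smul, map_sub, map_smul, hKe0, hKej]
    funext i
    simp only [Pi.smul_apply, Pi.sub_apply, smul_eq_mul]
    field_simp
    ring
  have h1 : ej j = K z0 + y • z0 := by
    rw [hKz, hz0]
    funext i
    simp only [Pi.add_apply, Pi.smul_apply, Pi.sub_apply, smul_eq_mul]
    field_simp
    ring
  have key : ∀ g : Fin (q + 1) → ℝ, w j * g j.succ - y * g 0 =
      (w j - y) / w j * E (xx w y) (fun i => K z0 i * g i) := by
    intro g
    have hwj := h.pos j
    rw [← E_ej (w := w) (y := y) j g, ← E_e0 (w := w) (y := y) g, ← E_sub, hKz, ← E_const_mul]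
    congr 1
    funext i
    simp only [Pi.smul_apply, Pi.sub_apply, smul_eq_mul]
    field_simp
  clear_value z0
  have h2 : (K ^ (m + m)) (ej j) = (K ^ m) (K ((K ^ m) z0) + y • ((K ^ m) z0)) := by
    have e1 : (K ^ m) (K z0) = K ((K ^ m) z0) := by
      rw [← Module.End.mul_apply, ← Module.End.mul_apply, ← pow_succ, ← pow_succ']
    have e2 : (K ^ m) (ej j) = K ((K ^ m) z0) + y • ((K ^ m) z0) := by
      have e3 := (K ^ m).map_add (K z0) (y • z0)
      rw [← h1, e1, (K ^ m).map_smul] at e3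
      exact e3
    rw [pow_add, Module.End.mul_apply, e2]
  have h3 : E (xx w y) (fun i => K z0 i * ((K ^ (m + m)) (ej j)) i) =
      E (xx w y) (fun i => K ((K ^ m) z0) i ^ 2) +
        y * E (xx w y) (fun i => ((K ^ m) z0) i * K ((K ^ m) z0) i) := by
    have e1 : (K ^ m) (K z0) = K ((K ^ m) z0) := by
      rw [← Module.End.mul_apply, ← Module.End.mul_apply, ← pow_succ, ← pow_succ']
    rw [h2, hK, ← E_pow_mul, ← hK, e1, ← E_const_mul, ← E_add']
    congr 1
    funext i
    simp only [Pi.add_apply, Pi.smul_apply, smul_eq_mul]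
    ring
  have h4 := form_sq_ge (n := q + 1) (by omega) hy.le (Hyp.xx_ge h) ((K ^ m) z0)
  have h5 := key ((K ^ (m + m)) (ej j))
  rw [h3] at h5
  have h6 : 0 ≤ (w j - y) / w j := div_nonneg hu.le (h.pos j).le
  have h7 := mul_nonneg h6 h4
  linarith

/-- all end colours, an even number of steps -/
theorem walk_even (h : Hyp w y) (j : Fin q) {a : ℕ} (ha : Even a) (k : Fin (q + 1)) :
    y * ((K' (xx w y)) ^ a) (ej j) 0 ≤ xx w y k * ((K' (xx w y)) ^ a) (ej j) k := by
  refine Fin.cases ?_ (fun k => ?_) k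
  · rw [xx_zero]
  · rw [xx_succ]
    rcases eq_or_ne k j with hk | hk
    · subst hk
      obtain ⟨m, rfl⟩ := ha
      exact walk_self h k m
    · exact (walk_ne h j k hk a).1

/-- the value at `y` -/
theorem walk_y (h : Hyp w y) (j : Fin q) (a : ℕ) :
    ((K' (xx w y)) ^ a) (ej j) 0 = w j * ch w y a j := by
  have hy := h.hy
  have h1 : E (xx w y) (fun i => e0 i * ((K' (xx w y)) ^ a) (ej j) i) =
      E (xx w y) (fun i => ej j i * ((K' (xx w y)) ^ a) (e0 (q := q)) i) := by
    rw [← E_pow_mul]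
    congr 1
    funext i
    ring
  rw [E_e0, E_ej, pow_e0, Fin.cons_succ] at h1
  have h2 : y * ((K' (xx w y)) ^ a) (ej j) 0 = y * (w j * ch w y a j) := by
    rw [h1]; ring
  exact mul_left_cancel₀ hy.ne' h2

/-- the defect of a leg over all colours -/
noncomputable def Dc (w : Fin q → ℝ) (y : ℝ) (c : ℕ) : Fin (q + 1) → ℝ :=
  Fin.cons 0 fun i => (w i - y) * ch w y c i

theorem Dc_eq (c : ℕ) : Dc w y c =
    l w y c • (fun _ => (1 : ℝ)) - ((K' (xx w y)) ^ c) (fun _ => 1) := by
  rw [pow_one_full]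
  funext i
  refine Fin.cases ?_ (fun i => ?_) i
  · simp [Dc]
  · simp only [Dc, Fin.cons_succ, Pi.sub_apply, Pi.smul_apply, smul_eq_mul, mul_one, hat_psi]
    ring

theorem Dc_nn (h : Hyp w y) (c : ℕ) (i : Fin (q + 1)) : 0 ≤ Dc w y c i := by
  refine Fin.cases ?_ (fun i => ?_) i
  · simp [Dc]
  · simp only [Dc, Fin.cons_succ]
    exact mul_nonneg (sub_nonneg.2 (h.lt i).le) ((Cone.ch h.nn h.hy.le _).nn i)

theorem wf_pow (c n : ℕ) (j : Fin q) :
    wf w y c n j = ((K' (xx w y)) ^ n) (Dc w y c) j.succ := by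
  have e1 : ((K' (xx w y)) ^ n) (((K' (xx w y)) ^ c) (fun _ => 1)) =
      ((K' (xx w y)) ^ (n + c)) (fun _ => 1) := by
    rw [pow_add]; rfl
  rw [Dc_eq, map_sub, map_smul, e1, pow_one_full, pow_one_full]
  simp [wf]

theorem wf_nn (h : Hyp w y) (c n : ℕ) (j : Fin q) : 0 ≤ wf w y c n j := by
  rw [wf_pow]
  exact Kpow_nn h n (Dc_nn h c) _

/-- the counting inequality (PW3) -/
theorem sum_ge (h : Hyp w y) (b c : ℕ) {j t : Fin q} (hjt : j ≠ t) (hw : ∀ i, w i ≤ w t) :
    l w y (c + 1) * ((w j - y) * ch w y (b + 1) j) ≤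
      ∑ k, ((K' (xx w y)) ^ (b + 1)) (Dc w y (c + 1)) k := by
  have hy := h.hy
  set K := K' (xx w y) with hK
  set f := hat w (psi w y b) with hf
  have hfc : Cone w f := Cone.hat h.nn (psi_NN h.nn h.hy.le b)
  -- the sum as a form
  have e1 : ∑ k, (K ^ (b + 1)) (Dc w y (c + 1)) k =
      E (xx w y) (fun i => (1 / xx w y i) * (K ^ (b + 1)) (Dc w y (c + 1)) i) := by
    rw [E]
    refine sum_congr rfl fun i _ => ?_
    have := (Hyp.xx_pos h i).ne'
    field_simp
  have e2 : K (fun i => 1 / xx w y i) = fun _ => (q : ℝ) := by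
    funext i
    rw [hK, K'_apply, E]
    have h1 : ∀ i, xx w y i * (1 / xx w y i) = 1 := fun i => by
      have := (Hyp.xx_pos h i).ne'
      field_simp
    simp only [h1]
    simp
  have e3 : (K ^ (b + 1)) (fun i => 1 / xx w y i) = (q : ℝ) • ((K ^ b) (fun _ => 1)) := by
    rw [pow_succ, Module.End.mul_apply, e2]
    have : (fun _ : Fin (q + 1) => (q : ℝ)) = (q : ℝ) • (fun _ => (1 : ℝ)) := by
      funext i; simp
    rw [this, map_smul]
  have e4 : ∑ k, (K ^ (b + 1)) (Dc w y (c + 1)) k =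
      q * ∑ i, (w i * ch w y (c + 1) i) * ((w i - y) * f i) := by
    rw [e1, hK, ← E_pow_mul, ← hK, e3, pow_one_full, E_xx, mul_sum]
    simp only [Dc, Pi.smul_apply, smul_eq_mul, Fin.cons_zero, Fin.cons_succ, mul_zero, zero_add]
    exact sum_congr rfl fun i _ => by ring
  set T : Fin q → ℝ := fun i => w i * ch w y (c + 1) i with hT
  have hT0 : ∀ i, 0 ≤ T i := fun i => mul_nonneg (h.nn i) ((Cone.ch h.nn hy.le _).nn i)
  have hTm : ∀ i k, w i ≤ w k → T i ≤ T k := (Cone.ch h.nn hy.le (c + 1)).mono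
  set H := (w j - y) * ch w y (b + 1) j with hH
  have hH0 : 0 ≤ H := mul_nonneg (sub_nonneg.2 (h.lt j).le) ((Cone.ch h.nn hy.le _).nn j)
  -- large colours
  have g1 : ∀ i, w j ≤ w i → H ≤ (w i - y) * f i := by
    intro i hi
    have a1 := hfc.sub_mono hy.le j i hi
    have a2 : ch w y (b + 1) j ≤ f j := by
      rw [hf, hat_psi']
      have := mul_nonneg hy.le ((Cone.ch h.nn hy.le b).nn j)
      linarith
    have a3 := mul_le_mul_of_nonneg_left a2 (sub_nonneg.2 (h.lt j).le)
    exact a3.trans a1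
  have g2 : H * ∑ i ∈ univ.filter (fun i => w j ≤ w i), T i ≤
      ∑ i, T i * ((w i - y) * f i) := by
    rw [mul_sum]
    have a1 : ∑ i ∈ univ.filter (fun i => w j ≤ w i), T i * ((w i - y) * f i) ≤
        ∑ i, T i * ((w i - y) * f i) :=
      sum_le_sum_of_subset_of_nonneg (filter_subset _ _) fun i _ _ =>
        mul_nonneg (hT0 i) (mul_nonneg (sub_nonneg.2 (h.lt i).le) (hfc.nn i))
    refine le_trans (sum_le_sum fun i hi => ?_) a1
    rw [mul_comm]
    exact mul_le_mul_of_nonneg_left (g1 i (mem_filter.1 hi).2) (hT0 i)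
  -- small colours
  have g3 : ∑ i ∈ univ.filter (fun i => ¬ w j ≤ w i), T i ≤ ((q : ℝ) - 2) * T j := by
    have hsub : univ.filter (fun i => ¬ w j ≤ w i) ⊆ univ \ {j, t} := by
      intro i hi
      rw [mem_filter] at hi
      simp only [mem_sdiff, mem_univ, mem_insert, mem_singleton, true_and, not_or]
      refine ⟨fun e => hi.2 (e ▸ le_rfl), fun e => hi.2 (e ▸ hw j)⟩
    have hcard : ((univ.filter (fun i => ¬ w j ≤ w i)).card : ℝ) ≤ (q : ℝ) - 2 := by
      have h1 := card_le_card hsub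
      rw [card_sdiff_of_subset (subset_univ _), card_pair hjt, card_univ, Fintype.card_fin] at h1
      have h2 : 2 ≤ q := h.two
      have h3 : ((univ.filter (fun i => ¬ w j ≤ w i)).card : ℝ) ≤ ((q - 2 : ℕ) : ℝ) := by
        exact_mod_cast h1
      rwa [Nat.cast_sub h2, Nat.cast_ofNat] at h3
    calc ∑ i ∈ univ.filter (fun i => ¬ w j ≤ w i), T i ≤
        ∑ _i ∈ univ.filter (fun i => ¬ w j ≤ w i), T j := by
          refine sum_le_sum fun i hi => ?_
          exact hTm i j (not_le.1 (mem_filter.1 hi).2).le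
      _ = ((univ.filter (fun i => ¬ w j ≤ w i)).card : ℝ) * T j := by
          rw [sum_const, nsmul_eq_mul]
      _ ≤ _ := mul_le_mul_of_nonneg_right hcard (hT0 j)
  have g4 : 2 * T j ≤ ∑ i ∈ univ.filter (fun i => w j ≤ w i), T i := by
    have hsub : ({j, t} : Finset (Fin q)) ⊆ univ.filter (fun i => w j ≤ w i) := by
      intro i hi
      rw [mem_insert, mem_singleton] at hi
      rw [mem_filter]
      refine ⟨mem_univ _, ?_⟩
      rcases hi with rfl | rfl
      · exact le_rfl
      · exact hw j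
    have h1 := sum_le_sum_of_subset_of_nonneg hsub (f := T) fun i _ _ => hT0 i
    rw [sum_pair hjt] at h1
    have h2 := hTm j t (hw j)
    linarith
  -- `y`
  have g5 : y * E w (ch w y c) ≤ 2 * T j := by
    have h1 := tau_half h c hjt (hw j)
    have hl := l_pos h c
    have h2 : 2 * N w y c j ≤ l w y c := by
      rw [← tau_mul h c j]
      have := mul_le_mul_of_nonneg_right h1 hl.le
      linarith
    have h3 : E w (ch w y c) ≤ l w y c := by
      rw [E_ch, l_eq]
      have := m_nn h c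
      linarith
    have h4 : T j = w j * (l w y c - N w y c j) := by
      simp only [hT]
      rw [ch_succ]
      rfl
    have h5 : y * E w (ch w y c) ≤ y * l w y c := mul_le_mul_of_nonneg_left h3 hy.le
    have h6 : y * l w y c ≤ w j * l w y c := mul_le_mul_of_nonneg_right (h.lt j).le hl.le
    have h7 := mul_le_mul_of_nonneg_left h2 (h.nn j)
    rw [h4]
    linarith
  have e5 : l w y (c + 1) = ∑ i ∈ univ.filter (fun i => w j ≤ w i), T i +
      ∑ i ∈ univ.filter (fun i => ¬ w j ≤ w i), T i + y * E w (ch w y c) := by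
    rw [sum_filter_add_sum_filter_not, l_succ']
    rfl
  rw [e4]
  have hq : (2 : ℝ) ≤ q := by exact_mod_cast h.two
  set S1 := ∑ i ∈ univ.filter (fun i => w j ≤ w i), T i with hS1
  set S2 := ∑ i ∈ univ.filter (fun i => ¬ w j ≤ w i), T i with hS2
  have g6 : l w y (c + 1) ≤ q * S1 := by
    rw [e5]
    have h1 : ((q : ℝ) - 1) * (2 * T j) ≤ ((q : ℝ) - 1) * S1 :=
      mul_le_mul_of_nonneg_left g4 (by linarith)
    have h2 : 0 ≤ ((q : ℝ) - 2) * T j := mul_nonneg (by linarith) (hT0 j)
    nlinarith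
  calc l w y (c + 1) * H ≤ q * S1 * H := mul_le_mul_of_nonneg_right g6 hH0
    _ = q * (H * S1) := by ring
    _ ≤ _ := mul_le_mul_of_nonneg_left g2 (by linarith)

/-- (PW) -/
theorem PW (h : Hyp w y) {a b c : ℕ} (ha : Even a) {j t : Fin q} (hjt : j ≠ t)
    (hw : ∀ i, w i ≤ w t) :
    y * l w y (c + 1) * th w y a (b + 1) j ≤ wf w y (c + 1) (a + (b + 1)) j := by
  have hy := h.hy
  have hwj := h.pos j
  set g := ((K' (xx w y)) ^ (b + 1)) (Dc w y (c + 1)) with hg
  have hg0 : ∀ i, 0 ≤ g i := Kpow_nn h _ (Dc_nn h _)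
  have e1 : wf w y (c + 1) (a + (b + 1)) j = ((K' (xx w y)) ^ a) g j.succ := by
    rw [wf_pow, pow_add]
    rfl
  have e2 : w j * ((K' (xx w y)) ^ a) g j.succ =
      E (xx w y) (fun i => ((K' (xx w y)) ^ a) (ej j) i * g i) := by
    rw [E_pow_mul, E_ej]
  have e3 : E (xx w y) (fun i => ((K' (xx w y)) ^ a) (ej j) i * g i) =
      ∑ i, (xx w y i * ((K' (xx w y)) ^ a) (ej j) i) * g i := by
    rw [E]
    exact sum_congr rfl fun i _ => by ring
  have h1 : (y * (w j * ch w y a j)) * ∑ i, g i ≤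
      ∑ i, (xx w y i * ((K' (xx w y)) ^ a) (ej j) i) * g i := by
    rw [mul_sum]
    refine sum_le_sum fun i _ => mul_le_mul_of_nonneg_right ?_ (hg0 i)
    rw [← walk_y h j a]
    exact walk_even h j ha i
  have h2 := sum_ge h b c hjt hw
  have h3 : 0 ≤ y * (w j * ch w y a j) :=
    mul_nonneg hy.le (mul_nonneg hwj.le ((Cone.ch h.nn hy.le _).nn j))
  have h4 := mul_le_mul_of_nonneg_left h2 h3
  have h5 : w j * (y * l w y (c + 1) * th w y a (b + 1) j) ≤
      w j * wf w y (c + 1) (a + (b + 1)) j := by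
    rw [e1, e2, e3]
    refine le_trans (le_of_eq ?_) (h4.trans h1)
    simp only [th]
    ring
  exact le_of_mul_le_mul_left h5 hwj

end Pool.Agent.Helper66.SW
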