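import Pool.Agent.Helper4.SW.Leaf
import Pool.Agent.Helper4.SW.Good
import Pool.Agent.Helper31.SW.Tau

/-!
S-world, a terminal spider `w` and a leg `c` at `g`: the exact differences for the two moves
merge the legs `a`, `b` of `w`, and put `a`, `b`, `c` into one leg at `w`, and the reduction of the
pair to two inequalities.
-/

set_option autoImplicit false

namespace Pool.Agent.Helper66.SW

open Pool.Agent.Helper4.SW
open Pool.Agent.Helper6.HL hiding X
open Finset Polynomial

variable {q : ℕ} {w : Fin q → ℝ} {y : ℝ}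

/-- the diagonal bound of the trilinear form -/
theorem tri_ge (h : Hyp w y) {f g k : Fin q → ℝ} (hf : ∀ i j, w i ≤ w j → f j ≤ f i)
    (hg : ∀ i j, w i ≤ w j → g j ≤ g i) (hk : ∀ i j, w i ≤ w j → k i ≤ k j) :
    E w (fun i => f i * g i * k i) ≤ tri w f g k := by
  rw [tri]
  have : 0 ≤ ∑ c, ∑ d, w c * w d * ((f c - f d) * (g c - g d) * (k c - k d) / (w c - w d)) := by
    refine sum_nonneg fun c _ => sum_nonneg fun d _ => mul_nonneg (mul_nonneg (h.nn c) (h.nn d)) ?_
    rcases lt_trichotomy (w c) (w d) with hcd | hcd | hcd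
    · have h1 := hf c d hcd.le
      have h2 := hg c d hcd.le
      have h3 := hk c d hcd.le
      rw [← neg_div_neg_eq]
      refine div_nonneg ?_ (by linarith)
      have h4 : 0 ≤ (f c - f d) * (g c - g d) * (k d - k c) :=
        mul_nonneg (mul_nonneg (sub_nonneg.2 h1) (sub_nonneg.2 h2)) (sub_nonneg.2 h3)
      linarith
    · rw [hcd, sub_self, div_zero]
    · have h1 := hf d c hcd.le
      have h2 := hg d c hcd.le
      have h3 := hk d c hcd.le
      refine div_nonneg ?_ (by linarith)
      have h4 : 0 ≤ (f d - f c) * (g d - g c) * (k c - k d) :=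
        mul_nonneg (mul_nonneg (sub_nonneg.2 h1) (sub_nonneg.2 h2)) (sub_nonneg.2 h3)
      linarith
  linarith

variable (w y)

/-- `theta = (x-y) chi_{a-1} chi_{b-1}` for legs with `a`, `b` vertices -/
noncomputable def th (a b : ℕ) (i : Fin q) : ℝ := (w i - y) * ch w y a i * ch w y b i

/-- `l_c f_n - f_{n+c}` -/
noncomputable def wf (c n : ℕ) (i : Fin q) : ℝ :=
  l w y c * hat w (psi w y n) i - hat w (psi w y (n + c)) i

variable {w y}

theorem th_nn (h : Hyp w y) (a b : ℕ) (i : Fin q) : 0 ≤ th w y a b i :=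
  mul_nonneg (mul_nonneg (sub_nonneg.2 (h.lt i).le) ((Cone.ch h.nn h.hy.le _).nn i))
    ((Cone.ch h.nn h.hy.le _).nn i)

theorem th_comm (a b : ℕ) (i : Fin q) : th w y a b i = th w y b a i := by
  simp only [th]; ring

theorem R_one (c : ℕ) : R [c] = B.path (c + 1) := rfl

theorem R_cons (c : ℕ) (J : List ℕ) : R (c :: J) = (B.path (c + 1)).app (R J) := rfl

theorem st_R_cons (c : ℕ) (J : List ℕ) : st w y (R (c :: J)) =
    ⟨l w y (c + 1) * (st w y (R J)).a, psi w y (c + 1) * (st w y (R J)).p⟩ := by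
  rw [R_cons, st_app]
  rfl

/-- the context at `w` -/
theorem Z_gw (A : ℝ) (Λ : ℝ[X]) (c : ℕ) (F : B) : Z w y A Λ (.cons F (R [c])) =
    Z w y (L w (Λ * psi w y (c + 1))) (C (y * A * l w y (c + 1)) +
      Polynomial.X * Λ * psi w y (c + 1)) F := by
  rw [Z_cons]
  rfl

/-- the defect of a context of this form -/
theorem ctx_defect (A lc : ℝ) (Λ φ : ℝ[X]) (p : ℝ) (i : Fin q) :
    L w Λ * p - hat w ((C (y * A * lc) + Polynomial.X * Λ) * φ) i =
      p * (w i * hat w Λ i) + K' w (aeval (K' w) Λ (fun i => p - hat w φ i)) i -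
        y * A * lc * hat w φ i := by
  have e1 : (C (y * A * lc) + Polynomial.X * Λ) * φ =
      C (y * A * lc) * φ + Polynomial.X * (Λ * φ) := by ring
  have e2 : aeval (K' w) Λ (fun i => p - hat w φ i) = p • hat w Λ - hat w (Λ * φ) := by
    have : (fun i => p - hat w φ i) = p • (fun _ : Fin q => (1 : ℝ)) - hat w φ := by
      funext i; simp
    rw [this, map_sub, map_smul, ← hat_def, ← hat_mul]
  rw [e1, map_add, hat_C_mul, hat_X_mul, e2, map_sub, map_smul]
  simp only [Pi.add_apply, Pi.smul_apply, Pi.sub_apply, smul_eq_mul, K'_apply, L_def]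
  ring

/-- merging the legs `a + 1` and `b + 1` of `w` -/
theorem D_M (A : ℝ) (Λ : ℝ[X]) (a b c : ℕ) (J : List ℕ) :
    Z w y A Λ (.cons (R (a :: b :: J)) (R [c])) =
      Z w y A Λ (.cons (R ((a + b + 1) :: J)) (R [c])) +
      y * ((st w y (R J)).a * E w (fun i => hat w (Λ * psi w y (c + 1)) i *
          (w i * th w y (a + 1) (b + 1) i)) +
        E w (fun i => th w y (a + 1) (b + 1) i * K' w (aeval (K' w) (Λ * psi w y (c + 1))
          (fun i => (st w y (R J)).a - hat w (st w y (R J)).p i)) i) -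
        y * l w y (c + 1) * A * E w (fun i => th w y (a + 1) (b + 1) i *
          hat w (st w y (R J)).p i)) := by
  have e0 : R (a :: b :: J) = .cons (.path a) (.cons (.path b) (R J)) := rfl
  have e1 : R ((a + b + 1) :: J) = .cons (.path (a + b + 1)) (R J) := rfl
  rw [Z_gw, Z_gw, e0, e1, Z_merge, mul_assoc Polynomial.X Λ (psi w y (c + 1))]
  congr 1
  congr 1
  rw [← E_const_mul, ← E_const_mul, ← E_add', ← E_sub]
  congr 1
  funext k
  rw [ctx_defect A (l w y (c + 1)) (Λ * psi w y (c + 1)) (st w y (R J)).p (st w y (R J)).a k]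
  simp only [th]
  ring

/-- moving the leg `c + 1` from `g` to the end of the leg `n + 1` of `w` -/
theorem D_Q (A : ℝ) (Λ : ℝ[X]) (n c : ℕ) (J : List ℕ) :
    Z w y A Λ (.cons (R (n :: J)) (R [c])) =
      Z w y A Λ (.cons (R ((n + c + 1) :: J)) .nil) +
      y * (A * E w (fun i => wf w y (c + 1) (n + 1) i * hat w (st w y (R J)).p i) -
        (st w y (R J)).a * E w (fun i => th w y (c + 1) (n + 2) i * hat w Λ i) +
        E w (fun i => th w y (c + 1) (n + 1) i * K' w (aeval (K' w) Λ
          (fun i => (st w y (R J)).a - hat w (st w y (R J)).p i)) i)) := by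
  set p := (st w y (R J)).a with hp
  set φ := (st w y (R J)).p with hφ
  obtain ⟨m1, m2⟩ := merge_id w y (n + 1) (c + 1)
  have e1 : st w y (.cons (R (n :: J)) (R [c])) = ⟨L w (psi w y (n + 1) * φ) * l w y (c + 1),
      (C (y * (l w y (n + 1) * p)) + Polynomial.X * (psi w y (n + 1) * φ)) * psi w y (c + 1)⟩ := by
    rw [st_cons, st_R_cons, R_one, st_path]
  have e2 : st w y (.cons (R ((n + c + 1) :: J)) .nil) =
      ⟨L w (psi w y (n + 1 + (c + 1)) * φ),
        C (y * (l w y (n + 1 + (c + 1)) * p)) + Polynomial.X * (psi w y (n + 1 + (c + 1)) * φ)⟩ := by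
    rw [st_one, st_R_cons, show n + c + 1 + 1 = n + 1 + (c + 1) by ring]
  rw [Z, Z, e1, e2]
  simp only
  set ψn := psi w y (n + 1)
  set ψc := psi w y (c + 1)
  set ψs := psi w y (n + 1 + (c + 1))
  have f1 : Λ * ((C (y * (l w y (n + 1) * p)) + Polynomial.X * (ψn * φ)) * ψc) =
      C (y * (l w y (n + 1) * p)) * (Λ * ψc) +
      Polynomial.X * (Λ * φ) * (ψn * ψc) := by ring
  have f2 : Λ * (C (y * (l w y (n + 1 + (c + 1)) * p)) + Polynomial.X * (ψs * φ)) =
      C (y * (l w y (n + 1 + (c + 1)) * p)) * Λ + Polynomial.X * (Λ * φ) * ψs := by ring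
  rw [f1, f2, map_add, map_add, L_C_mul, L_C_mul]
  have f3 : L w (Polynomial.X * (Λ * φ) * (ψn * ψc)) = L w (Polynomial.X * (Λ * φ) * ψs) -
      y * E w (fun i => th w y (c + 1) (n + 1) i * K' w (hat w (Λ * φ)) i) := by
    rw [L_mul, L_mul, ← E_const_mul, ← E_sub]
    congr 1
    funext k
    rw [m1 k, hat_X_mul]
    simp only [th]
    ring
  have f4 : L w (Λ * ψc) = l w y (c + 1) * L w Λ -
      E w (fun i => (w i - y) * ch w y (c + 1) i * hat w Λ i) := by
    rw [L_mul, L_def, ← E_const_mul, ← E_sub]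
    congr 1
    funext k
    rw [hat_psi]
    ring
  have f5 : l w y (n + 1 + (c + 1)) = l w y (n + 1) * l w y (c + 1) -
      E w (fun i => th w y (c + 1) (n + 1) i) := by
    rw [m2]
    have : (fun k => (w k - y) * ch w y (n + 1) k * ch w y (c + 1) k) =
        fun i => th w y (c + 1) (n + 1) i := by
      funext k; simp only [th]; ring
    rw [this]
    ring
  have f6 : L w (ψn * φ) * l w y (c + 1) - L w (ψs * φ) =
      E w (fun i => wf w y (c + 1) (n + 1) i * hat w φ i) := by
    rw [L_mul, L_mul, mul_comm, ← E_const_mul, ← E_sub]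
    congr 1
    funext k
    simp only [wf]
    ring
  have f7 : aeval (K' w) Λ (fun i => p - hat w φ i) = p • hat w Λ - hat w (Λ * φ) := by
    have : (fun i => p - hat w φ i) = p • (fun _ : Fin q => (1 : ℝ)) - hat w φ := by
      funext i; simp
    rw [this, map_sub, map_smul, ← hat_def, ← hat_mul]
  have f8 : E w (fun i => th w y (c + 1) (n + 1) i * K' w (aeval (K' w) Λ
      (fun i => p - hat w φ i)) i) = p * L w Λ * E w (fun i => th w y (c + 1) (n + 1) i) -
      p * E w (fun i => th w y (c + 1) (n + 1) i * (w i * hat w Λ i)) -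
      E w (fun i => th w y (c + 1) (n + 1) i * K' w (hat w (Λ * φ)) i) := by
    rw [f7, map_sub, map_smul, ← E_const_mul, ← E_const_mul, ← E_sub, ← E_sub]
    congr 1
    funext k
    simp only [Pi.smul_apply, Pi.sub_apply, smul_eq_mul]
    rw [K'_apply w (hat w Λ), L_def]
    ring
  have f9 : E w (fun i => th w y (c + 1) (n + 2) i * hat w Λ i) =
      l w y (n + 1) * E w (fun i => (w i - y) * ch w y (c + 1) i * hat w Λ i) -
      E w (fun i => th w y (c + 1) (n + 1) i * (w i * hat w Λ i)) := by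
    rw [← E_const_mul, ← E_sub]
    congr 1
    funext k
    simp only [th]
    rw [ch_succ w y (n + 1)]
    ring
  rw [f3, f4, f8, f9, ← f6]
  rw [f5]
  ring

theorem w_th_mono (h : Hyp w y) (a b : ℕ) (i j : Fin q) (hij : w i ≤ w j) :
    w i * th w y a b i ≤ w j * th w y a b j := by
  have h1 := (Cone.ch h.nn h.hy.le a).sub_mono h.hy.le i j hij
  have h2 := (Cone.ch h.nn h.hy.le b).mono i j hij
  have h3 := mul_le_mul h1 h2 (mul_nonneg (h.nn i) ((Cone.ch h.nn h.hy.le b).nn i))
    (mul_nonneg (sub_nonneg.2 (h.lt j).le) ((Cone.ch h.nn h.hy.le a).nn j))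
  simp only [th]
  linarith

/-- the value at `g`, bounded below by the pointwise product -/
theorem E_s_ge (h : Hyp w y) {Λ : ℝ[X]} (hΛ : NN Λ) (a b c : ℕ) :
    E w (fun i => hat w Λ i * hat w (psi w y c) i * (w i * th w y a b i)) ≤
      E w (fun i => hat w (Λ * psi w y c) i * (w i * th w y a b i)) := by
  have e1 : E w (fun i => hat w (Λ * psi w y c) i * (w i * th w y a b i)) =
      tri w (hat w Λ) (hat w (psi w y c)) (fun i => w i * th w y a b i) := by
    rw [← E_star_mul, ← hat_mul_star h.inj]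
  rw [e1]
  exact tri_ge h (Cone.hat h.nn hΛ).anti (Cone.hat h.nn (psi_NN h.nn h.hy.le c)).anti
    (w_th_mono h a b)

theorem wf_eq (c n : ℕ) (i : Fin q) : wf w y c n i =
    hat w (psi w y n * (C (l w y c) - psi w y c)) i - y * th w y c n i := by
  have h1 := (merge_id w y n c).1 i
  have e1 : psi w y n * (C (l w y c) - psi w y c) =
      C (l w y c) * psi w y n - psi w y n * psi w y c := by ring
  rw [e1, map_sub, Pi.sub_apply, h1, hat_const_mul]
  simp only [wf, th]
  ring

/-- (T1) `<phi eta> ≤ <phi w>` -/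
theorem E_wf_ge (h : Hyp w y) {φ : ℝ[X]} (hφ : NN φ) (c n : ℕ) :
    E w (fun i => th w y c (n + 1) i * hat w φ i) ≤ E w (fun i => wf w y c n i * hat w φ i) := by
  have e1 : E w (fun i => wf w y c n i * hat w φ i) =
      tri w (hat w (psi w y n)) (hat w φ) (fun i => (w i - y) * ch w y c i) -
        y * E w (fun i => th w y c n i * hat w φ i) := by
    have e2 : tri w (hat w (psi w y n)) (hat w φ) (fun i => (w i - y) * ch w y c i) =
        L w (psi w y n * φ * (C (l w y c) - psi w y c)) := by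
      rw [L_mul_mul h.inj]
      congr 1
      funext i
      rw [map_sub, hat_C, Pi.sub_apply, hat_psi]
      ring
    have e3 : psi w y n * φ * (C (l w y c) - psi w y c) =
        psi w y n * (C (l w y c) - psi w y c) * φ := by ring
    rw [e2, e3, L_mul, ← E_const_mul, ← E_sub]
    congr 1
    funext i
    rw [wf_eq]
    ring
  have h1 := tri_ge h (Cone.hat h.nn (psi_NN h.nn h.hy.le n)).anti (Cone.hat h.nn hφ).anti
    (k := fun i => (w i - y) * ch w y c i) ((Cone.ch h.nn h.hy.le c).sub_mono h.hy.le)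
  rw [e1]
  have e4 : E w (fun i => th w y c (n + 1) i * hat w φ i) =
      E w (fun i => hat w (psi w y n) i * hat w φ i * ((w i - y) * ch w y c i)) -
        y * E w (fun i => th w y c n i * hat w φ i) := by
    rw [← E_const_mul, ← E_sub]
    congr 1
    funext i
    rw [hat_psi']
    simp only [th]
    ring
  rw [e4]
  linarith

/-- the reduction of the pair {merge `a`, `b` | `a`, `b`, `c` in one leg at `w`} -/
theorem pair_MQ (h : Hyp w y) (a b c : ℕ) (J : List ℕ)
    (hA : ∀ γ : Fin q → ℝ, Cone w γ →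
      y * l w y (c + 1) * E w (fun i => th w y (a + 1) (b + 1) i * hat w (st w y (R J)).p i) *
        E w (fun i => th w y (c + 1) (a + b + 3) i * γ i) ≤
      E w (fun i => γ i * hat w (psi w y (c + 1)) i * (w i * th w y (a + 1) (b + 1) i)) *
        E w (fun i => th w y (c + 1) (a + b + 3) i * hat w (st w y (R J)).p i))
    (hB : y * l w y (c + 1) * E w (fun i => th w y (a + 1) (b + 1) i * hat w (st w y (R J)).p i) ≤
      E w (fun i => wf w y (c + 1) (a + b + 2) i * hat w (st w y (R J)).p i)) :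
    Imp w y (.cons (R (a :: b :: J)) (R [c])) := by
  intro A Λ hAn hΛ
  have hw := h.nn
  have hy := h.hy.le
  have hst := st_nonneg hw hy (R J)
  have hdef := R_defect h J
  have hDM := D_M (w := w) (y := y) A Λ a b c J
  have hDQ := D_Q (w := w) (y := y) A Λ (a + b + 1) c J
  have hT := E_wf_ge h hst.2 (c + 1) (a + b + 2)
  have hS := E_s_ge h hΛ (a + 1) (b + 1) (c + 1)
  have e3 : a + b + 1 + 2 = a + b + 3 := by ring
  have e4 : a + b + 2 + 1 = a + b + 3 := by ring
  have e5 : a + b + 1 + 1 = a + b + 2 := by ring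
  rw [e3, e5] at hDQ
  rw [e4] at hT
  set p := (st w y (R J)).a with hp
  set φ := (st w y (R J)).p with hφ
  have hlv1 := lv_R (a :: b :: J)
  have hlv2 := lv_R ((a + b + 1) :: J)
  have hlv3 := lv_R ((a + b + 1 + c + 1) :: J)
  have hlvc := lv_R [c]
  simp only [List.length_cons, List.length_nil] at hlv1 hlv2 hlv3 hlvc
  have hθ0 := th_nn h (a + 1) (b + 1)
  have hη0 := th_nn h (c + 1) (a + b + 3)
  have hν0 := th_nn h (c + 1) (a + b + 2)
  set θ := th w y (a + 1) (b + 1) with hθ
  set η := th w y (c + 1) (a + b + 3) with hη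
  have hAA := hA (hat w Λ) (Cone.hat hw hΛ)
  have hc0 : 0 ≤ l w y (c + 1) := l_nonneg hw hy _
  have hψ := psi_NN hw hy (w := w) (y := y) (c + 1)
  set a1 := E w (fun i => hat w Λ i * hat w (psi w y (c + 1)) i * (w i * θ i)) with ha1
  set Θ := E w (fun i => θ i * hat w φ i) with hΘ
  set H := E w (fun i => η i * hat w φ i) with hH
  set Γ := E w (fun i => η i * hat w Λ i) with hΓ
  set W' := E w (fun i => wf w y (c + 1) (a + b + 2) i * hat w φ i) with hW'
  have n1 : 0 ≤ E w (fun i => θ i * K' w (aeval (K' w) (Λ * psi w y (c + 1))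
      (fun i => p - hat w φ i)) i) :=
    E_nonneg hw fun i => mul_nonneg (hθ0 i)
      (K'_nonneg hw (aeval_nonneg hw (hΛ.mul hψ) hdef) i)
  have n2 : 0 ≤ E w (fun i => th w y (c + 1) (a + b + 2) i * K' w (aeval (K' w) Λ
      (fun i => p - hat w φ i)) i) :=
    E_nonneg hw fun i => mul_nonneg (hν0 i)
      (K'_nonneg hw (aeval_nonneg hw hΛ hdef) i)
  have ha10 : 0 ≤ a1 := E_nonneg hw fun i => mul_nonneg (mul_nonneg ((Cone.hat hw hΛ).nn i)
    ((Cone.hat hw hψ).nn i)) (mul_nonneg (hw i) (hθ0 i))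
  by_cases hm : y * l w y (c + 1) * A * Θ ≤ p * a1
  · -- merge
    refine ⟨.cons (R ((a + b + 1) :: J)) (R [c]), ⟨?_, Or.inl ?_⟩, ?_⟩
    · simp only [R, B.size, B.size_path]; omega
    · simp only [lv, hlv1, hlv2, hlvc]
      omega
    · rw [hDM]
      refine le_add_of_nonneg_right (mul_nonneg hy ?_)
      have := mul_le_mul_of_nonneg_left hS hst.1
      linarith
  · rw [not_le] at hm
    refine ⟨.cons (R ((a + b + 1 + c + 1) :: J)) .nil, ⟨?_, Or.inl ?_⟩, ?_⟩
    · simp only [R, B.size, B.size_path]; omega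
    · simp only [lv, hlv1, hlv3, hlvc]
      omega
    · rw [hDM, hDQ]
      have key : 0 ≤ (p * a1 - y * l w y (c + 1) * A * Θ) + (A * W' - p * Γ) := by
        set a2 := y * l w y (c + 1) * A * Θ with ha2
        have ha20 : 0 < a2 := lt_of_le_of_lt (mul_nonneg hst.1 ha10) hm
        have c1 : a2 * (p * Γ) ≤ p * a1 * (A * W') := by
          have c2 : A * p * (y * l w y (c + 1) * Θ * Γ) ≤ A * p * (a1 * H) :=
            mul_le_mul_of_nonneg_left hAA (mul_nonneg hAn hst.1)
          have c3 : A * p * (a1 * H) ≤ A * p * (a1 * W') :=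
            mul_le_mul_of_nonneg_left (mul_le_mul_of_nonneg_left hT ha10)
              (mul_nonneg hAn hst.1)
          calc a2 * (p * Γ) = A * p * (y * l w y (c + 1) * Θ * Γ) := by rw [ha2]; ring
            _ ≤ A * p * (a1 * W') := c2.trans c3
            _ = _ := by ring
        have c4 : a2 ≤ A * W' := by
          have := mul_le_mul_of_nonneg_left hB hAn
          calc a2 = A * (y * l w y (c + 1) * Θ) := by rw [ha2]; ring
            _ ≤ _ := this
        have c5 : 0 ≤ a2 * ((p * a1 - a2) + (A * W' - p * Γ)) := by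
          have : a2 * ((p * a1 - a2) + (A * W' - p * Γ)) =
              (p * a1 * (A * W') - a2 * (p * Γ)) + (a2 - p * a1) * (A * W' - a2) := by ring
          rw [this]
          exact add_nonneg (sub_nonneg.2 c1) (mul_nonneg (sub_nonneg.2 hm.le) (sub_nonneg.2 c4))
        exact nonneg_of_mul_nonneg_right c5 ha20
      have c6 := mul_le_mul_of_nonneg_left hS hst.1
      have c7 : 0 ≤ (p * E w (fun i => hat w (Λ * psi w y (c + 1)) i * (w i * θ i)) +
          E w (fun i => θ i * K' w (aeval (K' w) (Λ * psi w y (c + 1))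
            (fun i => p - hat w φ i)) i) - y * l w y (c + 1) * A * Θ) +
          (A * W' - p * Γ + E w (fun i => th w y (c + 1) (a + b + 2) i *
            K' w (aeval (K' w) Λ (fun i => p - hat w φ i)) i)) := by
        linarith
      have c8 := mul_nonneg hy c7
      rw [mul_add] at c8
      linarith

end Pool.Agent.Helper66.SW
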