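import Pool.Agent.Helper66.SW.Phi

/-!
S-world: bounds for the Perron value and for the values at the largest part (note 1070).
-/

set_option autoImplicit false

namespace Pool.Agent.Helper66.SW

open Pool.Agent.Helper4.SW Pool.Agent.Helper31.SW
open Pool.Agent.Helper6.HL hiding X
open Finset Polynomial

variable {q : ℕ} {w : Fin q → ℝ} {y : ℝ}

theorem sum_erase (h : Hyp w y) (t : Fin q) : ∑ i ∈ univ.erase t, w i = 1 - w t := by
  have := add_sum_erase univ w (mem_univ t)
  rw [h.one] at this
  linarith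

theorem le_sig (h : Hyp w y) {i t : Fin q} (hit : i ≠ t) : w i ≤ 1 - w t := by
  rw [← sum_erase h t]
  exact single_le_sum (f := w) (fun i _ => h.nn i) (mem_erase.2 ⟨hit, mem_univ i⟩)

theorem y_le_sig (h : Hyp w y) (t : Fin q) : y ≤ 1 - w t := by
  have h2 := h.two
  have h3 : ∃ i : Fin q, i ≠ t := by
    by_contra hc
    push Not at hc
    have h1 : (univ : Finset (Fin q)) = {t} := by
      ext i; simp [hc i]
    have h4 := congrArg card h1
    rw [card_univ, Fintype.card_fin, card_singleton] at h4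
    omega
  obtain ⟨i, hi⟩ := h3
  exact (h.lt i).le.trans (le_sig h hi)

/-- splitting off the largest part -/
theorem sum_split (f : Fin q → ℝ) (t : Fin q) : ∑ i, f i = f t + ∑ i ∈ univ.erase t, f i :=
  (add_sum_erase univ f (mem_univ t)).symm

/-- the basic bound for the Perron value -/
theorem lam_rec (h : Hyp w y) {lam : ℝ} (hp : PerA w y lam) (t : Fin q) :
    y / (lam + y) + (1 - w t) / (lam + (1 - w t)) ≤ lam / (lam + w t) := by
  have hl := hp.1
  have h1 := PerA.sum hp
  rw [sum_split _ t] at h1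
  have h2 : (1 - w t) / (lam + (1 - w t)) ≤ ∑ i ∈ univ.erase t, w i / (lam + w i) := by
    rw [← sum_erase h t, sum_div]
    refine sum_le_sum fun i hi => ?_
    have h3 := h.pos i
    refine div_le_div_of_nonneg_left h3.le (by linarith) ?_
    rw [sum_erase h t]
    have := le_sig h (ne_of_mem_erase hi)
    linarith
  have h4 : w t / (lam + w t) + lam / (lam + w t) = 1 := by
    rw [← add_div, add_comm (w t), div_self (hp.1.trans_le (by
      have := h.nn t
      linarith)).ne']
  linarith

theorem lam_sq_aux {x σ y lam : ℝ} (hy : 0 < y) (hσ : y ≤ σ) (hx : 0 < x) (hl : 0 < lam)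
    (H : y / (lam + y) + σ / (lam + σ) ≤ lam / (lam + x)) :
    (σ + y) * x + y * lam ≤ lam ^ 2 := by
  have hs : 0 < σ := hy.trans_le hσ
  have H2 : (x * (σ + y) + y * σ) * lam + 2 * x * y * σ ≤ lam ^ 3 := by
    rw [div_add_div _ _ (by positivity) (by positivity), div_le_div_iff₀ (by positivity)
      (by positivity)] at H
    nlinarith
  by_contra hc
  rw [not_le] at hc
  have h1 : lam ^ 3 < (σ + y) * x * lam + y * lam ^ 2 := by
    have := mul_lt_mul_of_pos_right hc hl
    nlinarith
  have h2 : y * (σ * lam + 2 * x * σ) < y * lam ^ 2 := by nlinarith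
  have h3 := lt_of_mul_lt_mul_left h2 hy.le
  have h4 : (σ + y) * x + y * lam ≤ σ * lam + 2 * x * σ := by nlinarith
  linarith

/-- `lam^2 ≥ tau x + y lam` -/
theorem lam_sq (h : Hyp w y) {lam : ℝ} (hp : PerA w y lam) (t : Fin q) :
    ((1 - w t) + y) * w t + y * lam ≤ lam ^ 2 :=
  lam_sq_aux h.hy (y_le_sig h t) (h.pos t) hp.1 (lam_rec h hp t)

/-- the second moment -/
noncomputable def S2 (w : Fin q → ℝ) (y lam : ℝ) : ℝ :=
  E (xx w y) (fun i => 1 / (lam + xx w y i) * (1 / (lam + xx w y i)))

theorem S2_ge (h : Hyp w y) {lam : ℝ} (hp : PerA w y lam) (t : Fin q) :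
    lam ^ 2 + 2 * w t * lam + w t * (1 - w t) ≤
      (lam + w t) ^ 2 * (lam + (1 - w t)) * S2 w y lam := by
  have hl := hp.1
  have hy := h.hy
  have hx := h.pos t
  have hσ := y_le_sig h t
  have hσ0 : 0 < 1 - w t := hy.trans_le hσ
  have h1 := PerA.sum hp
  rw [sum_split _ t] at h1
  have e1 : S2 w y lam = y / (lam + y) * (1 / (lam + y)) +
      (w t / (lam + w t) * (1 / (lam + w t)) +
        ∑ i ∈ univ.erase t, w i / (lam + w i) * (1 / (lam + w i))) := by
    rw [S2, E_xx, ← sum_split (fun i => w i / (lam + w i) * (1 / (lam + w i))) t]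
    simp only [xx_zero, xx_succ]
    congr 1
    · ring
    · exact sum_congr rfl fun i _ => by ring
  have h2 : ∑ i ∈ univ.erase t, w i / (lam + w i) * (1 / (lam + (1 - w t))) ≤
      ∑ i ∈ univ.erase t, w i / (lam + w i) * (1 / (lam + w i)) := by
    refine sum_le_sum fun i hi => ?_
    have h3 := h.pos i
    refine mul_le_mul_of_nonneg_left ?_ (by positivity)
    refine one_div_le_one_div_of_le (by positivity) ?_
    have := le_sig h (ne_of_mem_erase hi)
    linarith
  rw [← sum_mul] at h2
  have h3 : y / (lam + y) * (1 / (lam + (1 - w t))) ≤ y / (lam + y) * (1 / (lam + y)) := by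
    refine mul_le_mul_of_nonneg_left ?_ (by positivity)
    exact one_div_le_one_div_of_le (by positivity) (by linarith)
  have h4 : y / (lam + y) + ∑ i ∈ univ.erase t, w i / (lam + w i) = lam / (lam + w t) := by
    have h5 : w t / (lam + w t) + lam / (lam + w t) = 1 := by
      rw [← add_div, add_comm (w t), div_self (by positivity)]
    linarith
  have h6 : w t / (lam + w t) * (1 / (lam + w t)) +
      lam / (lam + w t) * (1 / (lam + (1 - w t))) ≤ S2 w y lam := by
    rw [← h4, add_mul, e1]
    linarith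
  have h7 := mul_le_mul_of_nonneg_left h6
    (by positivity : 0 ≤ (lam + w t) ^ 2 * (lam + (1 - w t)))
  refine le_trans (le_of_eq ?_) h7
  field_simp
  ring

theorem S2_pos (h : Hyp w y) {lam : ℝ} (hp : PerA w y lam) : 0 < S2 w y lam := by
  have hl := hp.1
  have hy := h.hy
  rw [S2, E_xx]
  have h1 : 0 ≤ ∑ i, w i * (1 / (lam + xx w y i.succ) * (1 / (lam + xx w y i.succ))) :=
    sum_nonneg fun i _ => by
      have := h.pos i
      rw [xx_succ]
      positivity
  have h2 : 0 < y * (1 / (lam + xx w y 0) * (1 / (lam + xx w y 0))) := by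
    rw [xx_zero]; positivity
  linarith

theorem perron_pow {lam : ℝ} (h : Hyp w y) (hp : PerA w y lam) (k : ℕ) :
    ((K' (xx w y)) ^ k) (fun i => 1 / (lam + xx w y i)) =
      fun i => lam ^ k * (1 / (lam + xx w y i)) := by
  induction k with
  | zero => funext i; simp
  | succ k ih =>
    rw [pow_succ_apply, ih]
    have : (fun i => lam ^ k * (1 / (lam + xx w y i))) =
        lam ^ k • (fun i => 1 / (lam + xx w y i)) := by funext i; simp
    rw [this, map_smul, perron_vec hp (Hyp.xx_pos h)]
    funext i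
    simp only [Pi.smul_apply, smul_eq_mul]
    ring

/-- the values over all colours after an even number of steps -/
theorem even_low (h : Hyp w y) {lam : ℝ} (hp : PerA w y lam) {t : Fin q} (ht : Top w t)
    {a : ℕ} (ha : Even a) (i : Fin (q + 1)) :
    (lam + w t) * (y * ch w y a t) * (1 / (lam + xx w y i)) ≤
      ((K' (xx w y)) ^ a) (e0 (q := q)) i := by
  have hl := hp.1
  have hpos : 0 < lam + xx w y i := add_pos hl (Hyp.xx_pos h i)
  rw [mul_one_div, div_le_iff₀ hpos, pow_e0]
  obtain ⟨h1, h2⟩ := (lim_alt h hp ht a).2 ha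
  refine Fin.cases ?_ (fun i => ?_) i
  · rw [Fin.cons_zero, xx_zero]
    linarith
  · rw [Fin.cons_succ, xx_succ]
    have := mul_le_mul_of_nonneg_left (h1 i) h.hy.le
    linarith

theorem ch_pow_ge (h : Hyp w y) {lam : ℝ} (hp : PerA w y lam) {t : Fin q} (ht : Top w t)
    {a : ℕ} (ha : Even a) (m : ℕ) : lam ^ m * ch w y a t ≤ ch w y (m + a) t := by
  have hl := hp.1
  have hy := h.hy
  have e1 : ((K' (xx w y)) ^ (m + a)) (e0 (q := q)) =
      ((K' (xx w y)) ^ m) (((K' (xx w y)) ^ a) (e0 (q := q))) := by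
    rw [pow_add]; rfl
  set c0 := (lam + w t) * (y * ch w y a t) with hc0
  have h1 : ∀ i, 0 ≤ (((K' (xx w y)) ^ a) (e0 (q := q)) -
      c0 • (fun i => 1 / (lam + xx w y i))) i := by
    intro i
    simp only [Pi.sub_apply, Pi.smul_apply, smul_eq_mul]
    exact sub_nonneg.2 (even_low h hp ht ha i)
  have h2 := Kpow_nn h m h1 t.succ
  rw [map_sub, map_smul, ← e1, perron_pow h hp, pow_e0] at h2
  simp only [Pi.sub_apply, Pi.smul_apply, smul_eq_mul, Fin.cons_succ, xx_succ] at h2
  have h3 : c0 * (lam ^ m * (1 / (lam + w t))) = y * (lam ^ m * ch w y a t) := by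
    have : lam + w t ≠ 0 := (add_pos hl (h.pos t)).ne'
    rw [hc0]
    field_simp
  rw [h3] at h2
  have h4 : y * (lam ^ m * ch w y a t) ≤ y * ch w y (m + a) t := by linarith
  exact le_of_mul_le_mul_left h4 hy

theorem ch_le_pow (h : Hyp w y) {lam : ℝ} (hp : PerA w y lam) {t : Fin q} (ht : Top w t)
    {b : ℕ} (hb : Even b) :
    (lam + y) * (lam + w t) * S2 w y lam * ch w y b t ≤ lam ^ b := by
  have hl := hp.1
  have hy := h.hy
  have hly : 0 < lam + y := by positivity
  have h1 : E (xx w y) (fun i => (lam + w t) * (y * ch w y b t) * (1 / (lam + xx w y i)) *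
      (1 / (lam + xx w y i))) ≤
      E (xx w y) (fun i => ((K' (xx w y)) ^ b) (e0 (q := q)) i * (1 / (lam + xx w y i))) := by
    refine E_mono (fun i => (Hyp.xx_pos h i).le) fun i => ?_
    refine mul_le_mul_of_nonneg_right (even_low h hp ht hb i) ?_
    have := Hyp.xx_pos h i
    positivity
  have e1 : E (xx w y) (fun i => (lam + w t) * (y * ch w y b t) * (1 / (lam + xx w y i)) *
      (1 / (lam + xx w y i))) = (lam + w t) * (y * ch w y b t) * S2 w y lam := by
    rw [S2, ← E_const_mul]
    congr 1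
    funext i
    ring
  have e2 : E (xx w y) (fun i => ((K' (xx w y)) ^ b) (e0 (q := q)) i *
      (1 / (lam + xx w y i))) = lam ^ b * (y / (lam + y)) := by
    rw [E_pow_mul, perron_pow h hp, E_e0]
    simp only [xx_zero]
    ring
  rw [e1, e2] at h1
  have h2 := mul_le_mul_of_nonneg_right h1 hly.le
  have e3 : lam ^ b * (y / (lam + y)) * (lam + y) = y * lam ^ b := by
    field_simp
  rw [e3] at h2
  have h3 : y * ((lam + y) * (lam + w t) * S2 w y lam * ch w y b t) ≤ y * lam ^ b := by
    linarith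
  exact le_of_mul_le_mul_left h3 hy

/-- (4) of note 1070 -/
theorem ch_mul_le (h : Hyp w y) {lam : ℝ} (hp : PerA w y lam) {t : Fin q} (ht : Top w t)
    {a b : ℕ} (ha : Even a) (hb : Even b) :
    lam * (lam + y) * (lam ^ 2 + 2 * w t * lam + w t * (1 - w t)) * (ch w y a t * ch w y b t) ≤
      (lam + w t) * (lam + (1 - w t)) * ch w y (a + b + 1) t := by
  have hl := hp.1
  have hy := h.hy
  have hx := h.pos t
  have hσ := y_le_sig h t
  have hσ0 : 0 < 1 - w t := hy.trans_le hσ
  have ha0 := (Cone.ch h.nn hy.le a).nn t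
  have hb0 := (Cone.ch h.nn hy.le b).nn t
  have h1 := ch_pow_ge h hp ht ha (b + 1)
  have h2 := ch_le_pow h hp ht hb
  have h3 := S2_ge h hp t
  have e1 : b + 1 + a = a + b + 1 := by ring
  rw [e1] at h1
  have h4 : lam * ((lam + y) * (lam + w t) * S2 w y lam * ch w y b t) * ch w y a t ≤
      ch w y (a + b + 1) t := by
    refine le_trans ?_ h1
    rw [pow_succ]
    have := mul_le_mul_of_nonneg_right h2 (mul_nonneg hl.le ha0)
    linarith
  have h5 := mul_le_mul_of_nonneg_left h4
    (by positivity : 0 ≤ (lam + w t) * (lam + (1 - w t)))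
  have h6 := mul_le_mul_of_nonneg_left h3
    (by positivity : 0 ≤ lam * (lam + y) * (ch w y a t * ch w y b t))
  refine le_trans (le_of_eq (by ring)) (h6.trans (le_trans (le_of_eq (by ring)) h5))

/-- values at two and three steps -/
theorem l_one (h : Hyp w y) : l w y 1 = 1 := by
  rw [l_succ, psi_zero, L_def, hat_one, E_one h]

theorem N_one (i : Fin q) : N w y 1 i = w i := by rw [N, ch_one, mul_one]

theorem N_two (h : Hyp w y) (i : Fin q) : N w y 2 i = w i * (1 - w i) := by
  rw [N_succ, l_one h, N_one]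

theorem l_two (h : Hyp w y) : l w y 2 = ∑ i, w i * (1 - w i) + y := by
  have h1 : m w y 1 = 0 := by rw [m_succ, m_zero, l_zero]; ring
  rw [l_eq, m_succ, h1, l_one h]
  simp only [N_two h]
  ring

/-- even legs: values against the value at the largest part -/
theorem ch_even_le (h : Hyp w y) {t : Fin q} (ht : Top w t) {k : ℕ} (hk : Even k) (hk0 : k ≠ 0)
    (i : Fin q) : (1 - w t) * ch w y k i ≤ (1 - w i) * ch w y k t := by
  obtain ⟨m, rfl⟩ : ∃ m, k = 2 + m := ⟨k - 2, by
    obtain ⟨r, hr⟩ := hk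
    omega⟩
  have h1 := ((top_alt h ht m 2).1 (by simp)).2 i
  rw [N_two h, N_two h] at h1
  simp only [N] at h1
  have h2 : w t * w i * ((1 - w t) * ch w y (2 + m) i) ≤
      w t * w i * ((1 - w i) * ch w y (2 + m) t) := by linarith
  exact le_of_mul_le_mul_left h2 (mul_pos (h.pos t) (h.pos i))

theorem ch_even_ge (h : Hyp w y) {t : Fin q} (ht : Top w t) {k : ℕ} (hk : Even k) (hk0 : k ≠ 0) :
    (1 - w t) * l w y k ≤ ch w y k t * l w y 2 := by
  obtain ⟨m, rfl⟩ : ∃ m, k = 2 + m := ⟨k - 2, by
    obtain ⟨r, hr⟩ := hk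
    omega⟩
  have h1 := ((top_alt h ht m 2).1 (by simp)).1
  rw [N_two h] at h1
  simp only [N] at h1
  have h2 : w t * ((1 - w t) * l w y (2 + m)) ≤ w t * (ch w y (2 + m) t * l w y 2) := by
    linarith
  exact le_of_mul_le_mul_left h2 (h.pos t)

end Pool.Agent.Helper66.SW
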