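import Pool.Agent.Helper66.SW.Spec

/-!
S-world: (PHI) of note 1070: `sum_{j ≠ 1} x_j phi_j ≤ lam phi_1` for products of even legs.
-/

set_option autoImplicit false

namespace Pool.Agent.Helper66.SW

open Pool.Agent.Helper4.SW Pool.Agent.Helper31.SW
open Pool.Agent.Helper6.HL hiding X
open Finset Polynomial

variable {q : ℕ} {w : Fin q → ℝ} {y : ℝ}

theorem form_eq (w : Fin q → ℝ) (f : Fin q → ℝ) :
    E w (fun i => f i * K' w f i) = (E w f) ^ 2 - ∑ i, (w i * f i) ^ 2 := by
  have : ∀ i, w i * (f i * K' w f i) = E w f * (w i * f i) - (w i * f i) ^ 2 := by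
    intro i
    rw [K'_apply]
    ring
  rw [E, sum_congr rfl fun i _ => this i, sum_sub_distrib, ← mul_sum]
  simp only [E]
  ring

/-- bounds for the eigenvalues -/
theorem eig_bounds (h : Hyp w y) {lam : ℝ} (hp : PerA w y lam) {t : Fin q} (ht : ∀ i, w i ≤ w t)
    {s : ℝ} {f : Fin q → ℝ} (hf : f ≠ 0) (he : K' w f = s • f) :
    -w t ≤ s ∧ -lam ≤ s ∧ s ≤ lam := by
  have hF : 0 < E w (fun i => f i ^ 2) := by
    obtain ⟨i, hi⟩ := Function.ne_iff.1 hf
    have h1 := le_E h.nn (f := fun i => f i ^ 2) (fun i => sq_nonneg _) i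
    have h2 : 0 < w i * f i ^ 2 := mul_pos (h.pos i) (by
      have : f i ≠ 0 := hi
      positivity)
    linarith
  set F := E w (fun i => f i ^ 2) with hFd
  have e1 : E w (fun i => f i * K' w f i) = s * F := by
    rw [he, hFd, ← E_const_mul]
    congr 1
    funext i
    simp only [Pi.smul_apply, smul_eq_mul]
    ring
  have e2 := form_eq w f
  rw [e1] at e2
  refine ⟨?_, ?_, ?_⟩
  · have h1 : ∑ i, (w i * f i) ^ 2 ≤ w t * F := by
      rw [hFd, E, mul_sum]
      refine sum_le_sum fun i _ => ?_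
      have h2 := mul_le_mul_of_nonneg_right (ht i) (mul_nonneg (h.nn i) (sq_nonneg (f i)))
      nlinarith
    have h2 : -w t * F ≤ s * F := by
      have := sq_nonneg (E w f)
      linarith
    exact le_of_mul_le_mul_right h2 hF
  · have h1 := form_ge hp (Hyp.xx_pos h) (Fin.cons 0 f : Fin (q + 1) → ℝ)
    rw [form_eq, E_xx] at h1
    have e3 : E (xx w y) (Fin.cons 0 f : Fin (q + 1) → ℝ) = E w f := by
      rw [E_xx]; simp [E]
    rw [e3, Fin.sum_univ_succ] at h1
    simp only [Fin.cons_zero, Fin.cons_succ, xx_zero, xx_succ] at h1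
    have h2 : -lam * F ≤ s * F := by
      have e4 : ∑ i, w i * f i ^ 2 = F := rfl
      rw [e4] at h1
      have e5 : (y * 0 : ℝ) ^ 2 = 0 := by ring
      have e6 : y * (0 : ℝ) ^ 2 = 0 := by ring
      rw [e5, e6] at h1
      linarith
    exact le_of_mul_le_mul_right h2 hF
  · have hl := hp.1
    have hw : ∀ i, 0 < lam + w i := fun i => add_pos hl (h.pos i)
    have e3 : E w f = ∑ i, (Real.sqrt (w i * (lam + w i)) * f i) *
        Real.sqrt (w i / (lam + w i)) := by
      rw [E]
      refine sum_congr rfl fun i _ => ?_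
      have h1 : Real.sqrt (w i * (lam + w i)) * Real.sqrt (w i / (lam + w i)) = w i := by
        rw [← Real.sqrt_mul (mul_nonneg (h.nn i) (hw i).le)]
        have : w i * (lam + w i) * (w i / (lam + w i)) = w i ^ 2 := by
          have := (hw i).ne'
          field_simp
        rw [this, Real.sqrt_sq (h.nn i)]
      calc w i * f i = (Real.sqrt (w i * (lam + w i)) * Real.sqrt (w i / (lam + w i))) * f i := by
            rw [h1]
        _ = _ := by ring
    have h4 := sum_mul_sq_le_sq_mul_sq univ (fun i => Real.sqrt (w i * (lam + w i)) * f i)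
      (fun i => Real.sqrt (w i / (lam + w i)))
    rw [← e3] at h4
    have h5 : ∑ i, Real.sqrt (w i / (lam + w i)) ^ 2 ≤ 1 := by
      have h6 : ∑ i, Real.sqrt (w i / (lam + w i)) ^ 2 = ∑ i, w i / (lam + w i) :=
        sum_congr rfl fun i _ => Real.sq_sqrt (div_nonneg (h.nn i) (hw i).le)
      rw [h6]
      have h7 := PerA.sum hp
      have h8 : 0 ≤ y / (lam + y) := div_nonneg h.hy.le (add_pos hl h.hy).le
      linarith
    have h9 : ∑ i, (Real.sqrt (w i * (lam + w i)) * f i) ^ 2 =
        lam * F + ∑ i, (w i * f i) ^ 2 := by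
      rw [hFd, E, mul_sum, ← sum_add_distrib]
      refine sum_congr rfl fun i _ => ?_
      rw [mul_pow, Real.sq_sqrt (mul_nonneg (h.nn i) (hw i).le)]
      ring
    have h10 : 0 ≤ ∑ i, (Real.sqrt (w i * (lam + w i)) * f i) ^ 2 :=
      sum_nonneg fun i _ => sq_nonneg _
    have h11 := mul_le_mul_of_nonneg_left h5 h10
    have h12 : s * F ≤ lam * F := by
      rw [mul_one] at h11
      linarith
    exact le_of_mul_le_mul_right h12 hF

/-- even legs are nonnegative at the eigenvalues -/
theorem psi_eval_nn (h : Hyp w y) {lam : ℝ} (hp : PerA w y lam) {s : ℝ} (hs : -lam ≤ s)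
    {r : ℕ} (hr : Even r) : 0 ≤ (psi w y r).eval s := by
  obtain ⟨m, rfl⟩ := hr
  induction m with
  | zero => simp [psi_zero]
  | succ m ih =>
    have e1 : m + 1 + (m + 1) = m + m + 1 + 1 := by ring
    rw [e1, psi_succ, psi_succ]
    simp only [eval_add, eval_C, eval_mul, eval_X]
    have h1 := (r_lim h hp (m + m)).1 ⟨m, rfl⟩
    have hl := l_pos h (m + m)
    rw [r, le_div_iff₀ hl] at h1
    have h2 : 0 ≤ l w y (m + m + 1) + s * l w y (m + m) := by
      have := mul_le_mul_of_nonneg_right hs hl.le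
      linarith
    have h3 := mul_nonneg h.hy.le h2
    have h4 := mul_nonneg (sq_nonneg s) ih
    nlinarith

theorem PHI_gen (h : Hyp w y) {lam : ℝ} (hp : PerA w y lam) {t : Fin q} (ht : ∀ i, w i ≤ w t)
    (φ : ℝ[X]) (hφ : ∀ s : ℝ, -lam ≤ s → s ≤ lam → 0 ≤ φ.eval s) :
    K' w (hat w φ) t ≤ lam * hat w φ t := by
  set P : ℝ[X] := ((C lam - Polynomial.X) * φ) * (Polynomial.X + C (w t)) with hP
  set e : Fin q → ℝ := Pi.single t 1 with he
  have h1 := spec_nonneg (fun i => h.pos i) P (fun s f hf hs => by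
    obtain ⟨b1, b2, b3⟩ := eig_bounds h hp ht hf hs
    rw [hP]
    simp only [eval_mul, eval_sub, eval_add, eval_C, eval_X]
    exact mul_nonneg (mul_nonneg (by linarith) (hφ s b2 b3)) (by linarith)) e
  have hE : ∀ g : Fin q → ℝ, E w (fun k => e k * g k) = w t * g t := by
    intro g
    rw [E, Finset.sum_eq_single t]
    · simp [he]
    · intro b _ hb
      simp [he, Pi.single_eq_of_ne hb]
    · intro hh
      exact absurd (mem_univ _) hh
  have e1 : aeval (K' w) (Polynomial.X + C (w t)) e = w t • (fun _ => (1 : ℝ)) := by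
    rw [map_add, aeval_X, aeval_C, LinearMap.add_apply]
    funext i
    have h2 := hE (fun _ => 1)
    simp only [mul_one] at h2
    have h3 : E w e = w t := h2
    simp only [Pi.add_apply, Module.algebraMap_end_apply, Pi.smul_apply, smul_eq_mul, mul_one]
    rw [K'_apply, h3]
    rcases eq_or_ne i t with hi | hi
    · subst hi
      simp [he]
    · simp [he, Pi.single_eq_of_ne hi]
  have e2 : aeval (K' w) P e = w t • (lam • hat w φ - K' w (hat w φ)) := by
    rw [hP, map_mul, Module.End.mul_apply, e1, map_smul, ← hat_def, sub_mul, map_sub, hat_C_mul,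
      hat_X_mul]
  rw [hE, e2] at h1
  simp only [Pi.smul_apply, Pi.sub_apply, smul_eq_mul] at h1
  have h2 := h.pos t
  have h3 := nonneg_of_mul_nonneg_right h1 h2
  have h4 := nonneg_of_mul_nonneg_right h3 h2
  linarith

theorem R_eval_nn (h : Hyp w y) {lam : ℝ} (hp : PerA w y lam) {s : ℝ} (hs : -lam ≤ s)
    (J : List ℕ) (hJ : ∀ j ∈ J, Odd j) : 0 ≤ (st w y (R J)).p.eval s := by
  induction J with
  | nil =>
    have : (st w y (R [])).p = 1 := rfl
    rw [this]
    simp
  | cons j J ih =>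
    rw [st_R_cons]
    simp only [eval_mul]
    exact mul_nonneg (psi_eval_nn h hp hs ((hJ j (by simp)).add_one))
      (ih fun i hi => hJ i (by simp [hi]))

/-- (PHI) -/
theorem PHI (h : Hyp w y) {lam : ℝ} (hp : PerA w y lam) {t : Fin q} (ht : ∀ i, w i ≤ w t)
    (J : List ℕ) (hJ : ∀ j ∈ J, Odd j) :
    K' w (hat w (st w y (R J)).p) t ≤ lam * hat w (st w y (R J)).p t :=
  PHI_gen h hp ht _ fun _ hs _ => R_eval_nn h hp hs J hJ

end Pool.Agent.Helper66.SW
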