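import Pool.Agent.Helper66.SW.PW

/-!
S-world: the spectral decomposition of `K'`, positivity of polynomials of `K'`.
-/

set_option autoImplicit false

namespace Pool.Agent.Helper66.SW

open Pool.Agent.Helper4.SW Pool.Agent.Helper31.SW
open Pool.Agent.Helper6.HL hiding X
open Finset Polynomial

section Gen

variable {n : ℕ} {x : Fin n → ℝ}

/-- the symmetric matrix of `K'` -/
noncomputable def SM (x : Fin n → ℝ) : Matrix (Fin n) (Fin n) ℝ :=
  fun i j => Real.sqrt (x i) * Real.sqrt (x j) - if i = j then x i else 0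

theorem SM_herm (x : Fin n → ℝ) : (SM x).IsHermitian := by
  ext i j
  simp only [Matrix.conjTranspose_apply, SM, star_trivial]
  rcases eq_or_ne i j with h | h
  · subst h; ring
  · rw [if_neg h, if_neg h.symm]
    ring

theorem SM_mulVec (hx : ∀ i, 0 < x i) (f : Fin n → ℝ) (i : Fin n) :
    K' x (fun k => f k / Real.sqrt (x k)) i = ((SM x).mulVec f) i / Real.sqrt (x i) := by
  have hs : ∀ k, 0 < Real.sqrt (x k) := fun k => Real.sqrt_pos.2 (hx k)
  have hsq : ∀ k, Real.sqrt (x k) * Real.sqrt (x k) = x k := fun k => Real.mul_self_sqrt (hx k).le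
  have e1 : E x (fun k => f k / Real.sqrt (x k)) = ∑ k, Real.sqrt (x k) * f k := by
    rw [E]
    refine sum_congr rfl fun k _ => ?_
    have := hs k
    nth_rw 1 [← hsq k]
    field_simp
  have e2 : ((SM x).mulVec f) i = Real.sqrt (x i) * ∑ k, Real.sqrt (x k) * f k - x i * f i := by
    simp only [Matrix.mulVec, dotProduct, SM, sub_mul, sum_sub_distrib, ite_mul, zero_mul,
      sum_ite_eq, mem_univ, if_true, mul_sum]
    congr 1
    exact sum_congr rfl fun k _ => by ring
  rw [K'_apply, e1, e2]
  have := hs i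
  field_simp

/-- spectral decomposition -/
theorem spectral (hx : ∀ i, 0 < x i) : ∃ (b : Fin n → Fin n → ℝ) (μ : Fin n → ℝ),
    (∀ i, K' x (b i) = μ i • b i) ∧
    (∀ i j, E x (fun k => b i k * b j k) = if i = j then 1 else 0) ∧
    ∀ f : Fin n → ℝ, f = ∑ i, (E x (fun k => b i k * f k)) • b i := by
  have hs : ∀ k, 0 < Real.sqrt (x k) := fun k => Real.sqrt_pos.2 (hx k)
  have hsq : ∀ k, Real.sqrt (x k) * Real.sqrt (x k) = x k := fun k => Real.mul_self_sqrt (hx k).le
  set hA := SM_herm x
  set B := hA.eigenvectorBasis with hB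
  have hin : ∀ u v : EuclideanSpace ℝ (Fin n), inner ℝ u v = ∑ k, u k * v k := by
    intro u v
    rw [PiLp.inner_apply]
    refine sum_congr rfl fun k _ => ?_
    simp [mul_comm]
  refine ⟨fun i k => B i k / Real.sqrt (x k), hA.eigenvalues, fun i => ?_, fun i j => ?_,
    fun f => ?_⟩
  · funext k
    rw [SM_mulVec hx, hA.mulVec_eigenvectorBasis i]
    simp only [Pi.smul_apply, smul_eq_mul]
    rw [mul_div_assoc]
  · have h1 := orthonormal_iff_ite.1 B.orthonormal i j
    rw [hin] at h1
    rw [← h1, E]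
    refine sum_congr rfl fun k _ => ?_
    have := hs k
    nth_rw 1 [← hsq k]
    field_simp
  · funext k
    set g : EuclideanSpace ℝ (Fin n) := WithLp.toLp 2 (fun k => Real.sqrt (x k) * f k) with hg
    have h1 := B.sum_repr g
    have h2 : ∀ i, B.repr g i = E x (fun k => B i k / Real.sqrt (x k) * f k) := by
      intro i
      rw [B.repr_apply_apply, hin, E]
      refine sum_congr rfl fun k _ => ?_
      have h3 : g k = Real.sqrt (x k) * f k := rfl
      have := hs k
      rw [h3]
      nth_rw 2 [← hsq k]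
      field_simp
    have h4 := congrArg (fun u : EuclideanSpace ℝ (Fin n) => u k) h1
    simp only at h4
    have h5 : g k = Real.sqrt (x k) * f k := rfl
    rw [h5] at h4
    have h6 : (∑ i, B.repr g i • B i) k = ∑ i, B.repr g i * B i k := by
      rw [WithLp.ofLp_sum, Finset.sum_apply]
      rfl
    rw [h6] at h4
    have h7 : (∑ i, (E x fun k => B i k / Real.sqrt (x k) * f k) • fun k =>
        B i k / Real.sqrt (x k)) k = (∑ i, B.repr g i * B i k) / Real.sqrt (x k) := by
      rw [Finset.sum_apply, sum_div]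
      refine sum_congr rfl fun i _ => ?_
      rw [← h2 i, Pi.smul_apply, smul_eq_mul]
      ring
    rw [h7, h4]
    have := hs k
    field_simp

/-- polynomials of `K'` which are nonnegative at the eigenvalues -/
theorem spec_nonneg (hx : ∀ i, 0 < x i) (P : ℝ[X])
    (hP : ∀ s : ℝ, ∀ f : Fin n → ℝ, f ≠ 0 → K' x f = s • f → 0 ≤ P.eval s) (f : Fin n → ℝ) :
    0 ≤ E x (fun k => f k * aeval (K' x) P f k) := by
  obtain ⟨b, μ, hb, ho, hf⟩ := spectral hx
  have hbne : ∀ i, b i ≠ 0 := by
    intro i h0
    have := ho i i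
    rw [h0] at this
    simp [E] at this
  have h1 : ∀ i, aeval (K' x) P (b i) = P.eval (μ i) • b i := by
    intro i
    have : (K' x).HasEigenvector (μ i) (b i) := by
      rw [Module.End.hasEigenvector_iff, Module.End.mem_eigenspace_iff]
      exact ⟨hb i, hbne i⟩
    exact Module.End.aeval_apply_of_hasEigenvector this
  set c : Fin n → ℝ := fun i => E x (fun k => b i k * f k) with hc
  have h2 : aeval (K' x) P f = ∑ i, (c i * P.eval (μ i)) • b i := by
    conv_lhs => rw [hf f]
    rw [map_sum]
    refine sum_congr rfl fun i _ => ?_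
    rw [map_smul, h1, smul_smul]
  have h3 : E x (fun k => f k * aeval (K' x) P f k) = ∑ i, c i ^ 2 * P.eval (μ i) := by
    rw [h2]
    have e1 : ∀ k, f k * (∑ i, (c i * P.eval (μ i)) • b i) k =
        ∑ i, (c i * P.eval (μ i)) * (b i k * f k) := by
      intro k
      rw [Finset.sum_apply, mul_sum]
      refine sum_congr rfl fun i _ => ?_
      rw [Pi.smul_apply, smul_eq_mul]
      ring
    simp only [E, e1, mul_sum]
    rw [sum_comm]
    refine sum_congr rfl fun i _ => ?_
    have e2 : ∀ k, x k * (c i * P.eval (μ i) * (b i k * f k)) =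
        c i * P.eval (μ i) * (x k * (b i k * f k)) := fun k => by ring
    rw [sum_congr rfl fun k _ => e2 k, ← mul_sum]
    have e3 : ∑ k, x k * (b i k * f k) = c i := rfl
    rw [e3]
    ring
  rw [h3]
  exact sum_nonneg fun i _ => mul_nonneg (sq_nonneg _) (hP _ _ (hbne i) (hb i))

end Gen

end Pool.Agent.Helper66.SW
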