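import Pool.Agent.Helper66.SW.Perr
import Pool.Agent.Helper31.SW.Cond

/-!
S-world: the cross inequality (A), split into the terms without and with the largest part.
-/

set_option autoImplicit false

namespace Pool.Agent.Helper66.SW

open Pool.Agent.Helper4.SW Pool.Agent.Helper31.SW
open Finset

variable {q : ℕ} {w : Fin q → ℝ} {y : ℝ}

/-- the terms of the cross inequality -/
noncomputable def cx (w : Fin q → ℝ) (y : ℝ) (α β c φ γ : Fin q → ℝ) (i j : Fin q) : ℝ :=
  α i * β j * ((w i - (w i - y) * c i) * γ i * φ j - y * φ i * γ j)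

/-- terms without the largest part -/
theorem sub_sum (h : Hyp w y) (T : Fin q) (ab c t φ γ : Fin q → ℝ) (hab : ∀ i, 0 ≤ ab i)
    (hc0 : ∀ i, 0 ≤ c i) (hc1 : ∑ i, c i ≤ 1) (ht0 : ∀ i, 0 ≤ t i)
    (htm : ∀ i j, w j ≤ w i → t j ≤ t i) (hφ : Cone w φ) (hγ : Cone w γ)
    (hC : ∀ i j, i ≠ T → w j < w i → Cnd w ab c t i j) :
    0 ≤ ∑ i, ∑ j, (if i = T ∨ j = T then 0 else
      cx w y (fun i => vv w y i * ab i) (fun i => vv w y i * (c i * t i)) c φ γ i j) := by
  have hy := h.hy
  have hcle : ∀ i, c i ≤ 1 := fun i =>
    (single_le_sum (f := c) (fun i _ => hc0 i) (mem_univ i)).trans hc1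
  set v := vv w y with hv
  have hv0 : ∀ i, 0 ≤ v i := vv_nn h
  have hv1 : ∀ i, v i ≤ 1 := vv_le_one h
  have hwv : ∀ i, w i * v i = w i - y := w_vv h
  set α : Fin q → ℝ := fun i => v i * ab i with hα
  set β : Fin q → ℝ := fun i => v i * (c i * t i) with hβ
  have hα0 : ∀ i, 0 ≤ α i := fun i => mul_nonneg (hv0 i) (hab i)
  have hβ0 : ∀ i, 0 ≤ β i := fun i => mul_nonneg (hv0 i) (mul_nonneg (hc0 i) (ht0 i))
  set d : Fin q → Fin q → ℝ := fun i j => if i = T ∨ j = T then 0 else φ i * γ i *
    (α i * β j * max ((w i - y) * c i - w i + w i * y / w j) 0) with hd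
  refine abs_sum h.inj _ d ?_ ?_
  · intro i j hij
    by_cases hT : i = T ∨ j = T
    · have hT' : j = T ∨ i = T := hT.symm
      simp only [hd]
      rw [if_pos hT, if_pos hT', if_pos hT]
      simp
    · have hT' : ¬ (j = T ∨ i = T) := fun e => hT e.symm
      have hiT : i ≠ T := fun e => hT (Or.inl e)
      have hyj := h.lt j
      have hwj := h.pos j
      simp only [hd]
      rw [if_neg hT, if_neg hT', if_neg hT]
      have e1 : cx w y α β c φ γ i j + cx w y α β c φ γ j i =
          φ j * γ i * (α i * β j * (w i - (w i - y) * c i) - y * α j * β i) +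
          φ i * γ j * (α j * β i * (w j - (w j - y) * c j) - y * α i * β j) := by
        simp only [cx]
        ring
      rw [e1]
      rcases le_or_gt 0 (α i * β j * (w i - (w i - y) * c i) - y * α j * β i) with ha | ha
      · exact pair1 (Φi := φ i) (Φj := φ j) (Γi := γ i) (Γj := γ j) hy hyj hij (hcle j)
          (hφ.nn i) (hφ.anti j i hij.le) (hγ.nn i) (hγ.anti j i hij.le) (hγ.mono j i hij.le)
          (hα0 j) (hβ0 i) (hα0 i) (hβ0 j) ha
      · have h4 : 0 ≤ φ i * γ i * (α i * β j * max ((w i - y) * c i - w i + w i * y / w j) 0) :=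
          mul_nonneg (mul_nonneg (hφ.nn i) (hγ.nn i))
            (mul_nonneg (mul_nonneg (hα0 i) (hβ0 j)) (le_max_right _ _))
        have hs : α j * β i * w j ≤ α i * β j * (w j + w i * (1 - c i)) + 0 := by
          have h5 := mul_le_mul_of_nonneg_left (hC i j hiT hij) (mul_nonneg (hv0 i) (hv0 j))
          simp only [hα, hβ]
          linarith
        have h1 := pair2 (Φi := φ i) (Φj := φ j) (Γi := γ i) (Γj := γ j) hy hyj hij (hcle i)
          (hcle j) (hφ.nn i) (hφ.mono j i hij.le) (hγ.nn i) (hγ.anti j i hij.le)
          (hα0 j) (hβ0 i) (hα0 i) (hβ0 j) ha hs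
        rw [zero_mul, mul_zero, add_zero] at h1
        linarith
  · intro i
    by_cases hiT : i = T
    · subst hiT
      rw [if_pos (Or.inl rfl)]
      refine le_of_eq (sum_eq_zero fun j _ => ?_)
      split_ifs
      · simp [hd]
      · rfl
    · rw [if_neg (by simp [hiT])]
      have hφγ : 0 ≤ φ i * γ i := mul_nonneg (hφ.nn i) (hγ.nn i)
      have hii : cx w y α β c φ γ i i = φ i * γ i * (α i * β i * ((w i - y) * (1 - c i))) := by
        simp only [cx]
        ring
      rw [hii]
      have e1 : ∀ j, (if w j < w i then d i j else 0) ≤ φ i * γ i *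
          (α i * (t i * w i * v i ^ 2 * c i ^ 2 / 4) * (if w j < w i then c j else 0)) := by
        intro j
        by_cases hij : w j < w i
        · have hwj := h.pos j
          rw [if_pos hij, if_pos hij]
          have h6 : β j * max (w i * (v i * c i - v j)) 0 ≤
              t i * w i * v i ^ 2 * c i ^ 2 / 4 * c j := by
            have h7 : v j * max (w i * (v i * c i - v j)) 0 ≤ w i * (v i ^ 2 * c i ^ 2 / 4) := by
              rcases le_total (v i * c i - v j) 0 with h8 | h8
              · rw [max_eq_right (mul_nonpos_of_nonneg_of_nonpos (h.nn i) h8), mul_zero]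
                exact mul_nonneg (h.nn i) (by positivity)
              · rw [max_eq_left (mul_nonneg (h.nn i) h8)]
                have h9 : v j * (v i * c i - v j) ≤ v i ^ 2 * c i ^ 2 / 4 := by
                  nlinarith [sq_nonneg (v i * c i - 2 * v j)]
                have := mul_le_mul_of_nonneg_left h9 (h.nn i)
                linarith
            have h8 : β j * max (w i * (v i * c i - v j)) 0 =
                c j * t j * (v j * max (w i * (v i * c i - v j)) 0) := by
              simp only [hβ]; ring
            rw [h8]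
            have h9 : c j * t j ≤ c j * t i := mul_le_mul_of_nonneg_left (htm i j hij.le) (hc0 j)
            have h10 : 0 ≤ w i * (v i ^ 2 * c i ^ 2 / 4) := mul_nonneg (h.nn i) (by positivity)
            calc c j * t j * (v j * max (w i * (v i * c i - v j)) 0) ≤
                  c j * t j * (w i * (v i ^ 2 * c i ^ 2 / 4)) :=
                  mul_le_mul_of_nonneg_left h7 (mul_nonneg (hc0 j) (ht0 j))
              _ ≤ c j * t i * (w i * (v i ^ 2 * c i ^ 2 / 4)) :=
                  mul_le_mul_of_nonneg_right h9 h10
              _ = _ := by ring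
          have h7 := mul_le_mul_of_nonneg_left h6 (mul_nonneg hφγ (hα0 i))
          have e2 : (w i - y) * c i - w i + w i * y / w j = w i * (v i * c i - v j) := by
            have h5 : v j = 1 - y / w j := by
              simp only [hv, vv]
              field_simp
            rw [h5, ← hwv i]
            ring
          have h8 : d i j ≤ φ i * γ i * (α i * β j * max (w i * (v i * c i - v j)) 0) := by
            simp only [hd]
            split_ifs
            · exact mul_nonneg hφγ (mul_nonneg (mul_nonneg (hα0 i) (hβ0 j)) (le_max_right _ _))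
            · rw [e2]
          refine h8.trans ?_
          calc φ i * γ i * (α i * β j * max (w i * (v i * c i - v j)) 0) =
                φ i * γ i * α i * (β j * max (w i * (v i * c i - v j)) 0) := by ring
            _ ≤ _ := h7
            _ = _ := by ring
        · rw [if_neg hij, if_neg hij, mul_zero, mul_zero]
      refine (sum_le_sum fun j _ => e1 j).trans ?_
      rw [← mul_sum, ← mul_sum]
      refine mul_le_mul_of_nonneg_left ?_ hφγ
      have h2 : ∑ j, (if w j < w i then c j else 0) ≤ 1 - c i := by
        have h3 : ∑ j, (if w j < w i then c j else 0) + c i ≤ ∑ j, c j := by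
          have h4 : ∑ j, ((if w j < w i then c j else 0) + (if j = i then c i else 0)) ≤
              ∑ j, c j := by
            refine sum_le_sum fun j _ => ?_
            by_cases hji : j = i
            · subst hji
              rw [if_neg (lt_irrefl _), if_pos rfl, zero_add]
            · rw [if_neg hji, add_zero]
              split_ifs
              · exact le_rfl
              · exact hc0 j
          rw [sum_add_distrib, sum_ite_eq'] at h4
          simpa using h4
        linarith
      have a0 := hα0 i
      have b0 := hβ0 i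
      have c0 := hc0 i
      have c1 := hcle i
      have v0 := hv0 i
      have t0 := ht0 i
      have w0 := h.nn i
      have h4 : α i * (t i * w i * v i ^ 2 * c i ^ 2 / 4) *
          ∑ j, (if w j < w i then c j else 0) ≤
          α i * (t i * w i * v i ^ 2 * c i / 4) * (1 - c i) := by
        have h5 : α i * (t i * w i * v i ^ 2 * c i ^ 2 / 4) ≤
            α i * (t i * w i * v i ^ 2 * c i / 4) := by
          refine mul_le_mul_of_nonneg_left ?_ a0
          have h6 : c i ^ 2 ≤ c i := by nlinarith
          have h7 : 0 ≤ t i * w i * v i ^ 2 := by positivity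
          nlinarith
        calc _ ≤ α i * (t i * w i * v i ^ 2 * c i ^ 2 / 4) * (1 - c i) :=
              mul_le_mul_of_nonneg_left h2 (mul_nonneg a0 (by positivity))
          _ ≤ _ := mul_le_mul_of_nonneg_right h5 (by linarith)
      refine h4.trans ?_
      have e5 : α i * β i * ((w i - y) * (1 - c i)) =
          α i * (t i * w i * v i ^ 2 * c i) * (1 - c i) := by
        rw [← hwv i]
        simp only [hβ]
        ring
      rw [e5]
      have h6 : 0 ≤ α i * (t i * w i * v i ^ 2 * c i) * (1 - c i) :=
        mul_nonneg (mul_nonneg a0 (by positivity)) (by linarith)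
      have e7 : α i * (t i * w i * v i ^ 2 * c i / 4) * (1 - c i) =
          (α i * (t i * w i * v i ^ 2 * c i) * (1 - c i)) / 4 := by ring
      rw [e7]
      linarith

/-- splitting the double sum -/
theorem dsum_split (T : Fin q) (f : Fin q → Fin q → ℝ) :
    ∑ i, ∑ j, f i j = ∑ i, ∑ j, (if i = T ∨ j = T then 0 else f i j) +
      (f T T + ∑ j ∈ univ.erase T, (f T j + f j T)) := by
  have h1 : ∀ i, ∑ j, f i j = f i T + ∑ j ∈ univ.erase T, f i j := fun i => sum_split _ T
  have h2 : ∀ i, ∑ j, (if i = T ∨ j = T then 0 else f i j) =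
      ∑ j ∈ univ.erase T, (if i = T then 0 else f i j) := by
    intro i
    rw [sum_split _ T, if_pos (Or.inr rfl), zero_add]
    refine sum_congr rfl fun j hj => ?_
    have : j ≠ T := ne_of_mem_erase hj
    by_cases hi : i = T
    · rw [if_pos (Or.inl hi), if_pos hi]
    · rw [if_neg (by simp [hi, this]), if_neg hi]
  rw [sum_congr rfl fun i _ => h1 i, sum_congr rfl fun i _ => h2 i, sum_split _ T,
    sum_split (fun i => ∑ j ∈ univ.erase T, (if i = T then 0 else f i j)) T]
  have h3 : ∑ j ∈ univ.erase T, (if T = T then 0 else f T j) = 0 :=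
    sum_eq_zero fun j _ => by rw [if_pos rfl]
  have h4 : ∑ i ∈ univ.erase T, ∑ j ∈ univ.erase T, (if i = T then 0 else f i j) =
      ∑ i ∈ univ.erase T, ∑ j ∈ univ.erase T, f i j :=
    sum_congr rfl fun i hi => sum_congr rfl fun j _ => by rw [if_neg (ne_of_mem_erase hi)]
  rw [h3, h4, sum_add_distrib, sum_add_distrib]
  ring

/-- the cross inequality from the terms with the largest part -/
theorem cross_of_top (h : Hyp w y) (T : Fin q) (ab c t φ γ : Fin q → ℝ) (hab : ∀ i, 0 ≤ ab i)
    (hc0 : ∀ i, 0 ≤ c i) (hc1 : ∑ i, c i ≤ 1) (ht0 : ∀ i, 0 ≤ t i)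
    (htm : ∀ i j, w j ≤ w i → t j ≤ t i) (hφ : Cone w φ) (hγ : Cone w γ)
    (hC : ∀ i j, i ≠ T → w j < w i → Cnd w ab c t i j)
    (hT : 0 ≤ cx w y (fun i => vv w y i * ab i) (fun i => vv w y i * (c i * t i)) c φ γ T T +
      ∑ j ∈ univ.erase T,
        (cx w y (fun i => vv w y i * ab i) (fun i => vv w y i * (c i * t i)) c φ γ T j +
        cx w y (fun i => vv w y i * ab i) (fun i => vv w y i * (c i * t i)) c φ γ j T)) :
    y * (∑ i, vv w y i * ab i * φ i) * (∑ i, vv w y i * (c i * t i) * γ i) ≤
      (∑ i, vv w y i * ab i * (w i - (w i - y) * c i) * γ i) *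
        (∑ i, vv w y i * (c i * t i) * φ i) := by
  have key := add_nonneg (sub_sum h T ab c t φ γ hab hc0 hc1 ht0 htm hφ hγ hC) hT
  rw [← dsum_split] at key
  have e6 : ∑ i, ∑ j, cx w y (fun i => vv w y i * ab i) (fun i => vv w y i * (c i * t i)) c φ γ i j =
      (∑ i, vv w y i * ab i * (w i - (w i - y) * c i) * γ i) *
        (∑ i, vv w y i * (c i * t i) * φ i) -
      y * (∑ i, vv w y i * ab i * φ i) * (∑ i, vv w y i * (c i * t i) * γ i) := by
    simp only [cx]
    rw [mul_assoc, sum_mul_sum, sum_mul_sum, mul_sum, ← sum_sub_distrib]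
    refine sum_congr rfl fun i _ => ?_
    rw [mul_sum, ← sum_sub_distrib]
    exact sum_congr rfl fun j _ => by ring
  rw [e6] at key
  linarith

end Pool.Agent.Helper66.SW
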