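import Pool.Agent.Helper66.SW.Bw

/-!
S-world: the terms of the cross inequality (A'') with the largest part, all legs even (note 1070).
-/

set_option autoImplicit false

namespace Pool.Agent.Helper66.SW

open Pool.Agent.Helper4.SW Pool.Agent.Helper31.SW
open Pool.Agent.Helper6.HL hiding X
open Finset Polynomial

variable {q : ℕ} {w : Fin q → ℝ} {y : ℝ}

/-- (E3) -/
theorem K_exists (h : Hyp w y) {t : Fin q} (ht : Top w t) : ∃ K s0 : ℝ, 0 ≤ K ∧
    ∑ j ∈ univ.erase t, (w j - y) ≤ s0 ∧ 0 ≤ s0 ∧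
    y * (s0 / ((1 - w t) * ((1 - w t) + y)) + K) ≤ (w t - y) / (1 + w t) ∧
    ∀ j, j ≠ t → (w j - y) * ((1 - w j) ^ 2 / (1 - w t) ^ 2 -
      w t * ((1 - w t) + 2 * y) / (y * (2 * (1 - w t) + y))) ≤ K * (w t * (w t - y)) := by
  have hy := h.hy
  have hx := h.pos t
  have hσ := y_le_sig h t
  have hh := top_half h ht
  have hσ0 : 0 < 1 - w t := hy.trans_le hσ
  have hu : 0 < w t - y := sub_pos.2 (h.lt t)
  have hs := E3K0 (x := w t) (σ := 1 - w t) (y := y) (g := 1) (by ring) hy hσ hh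
  have hd : 0 < (1 - w t) * ((1 - w t) + y) := by positivity
  have h1x : 0 < 1 + w t := by positivity
  have hK : ∀ s, s ≤ (1 - w t) - y → 0 ≤ (w t - y) / (y * (1 + w t)) -
      s / ((1 - w t) * ((1 - w t) + y)) := by
    intro s hss
    rw [sub_nonneg, div_le_div_iff₀ hd (by positivity)]
    have := mul_le_mul_of_nonneg_right hss (by positivity : 0 ≤ y * (1 + w t))
    nlinarith
  have hY : ∀ s, y * (s / ((1 - w t) * ((1 - w t) + y)) + ((w t - y) / (y * (1 + w t)) -
      s / ((1 - w t) * ((1 - w t) + y)))) ≤ (w t - y) / (1 + w t) := by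
    intro s
    refine le_of_eq ?_
    field_simp
    ring
  rcases two_or h t with h2 | ⟨h2, h3, h4⟩
  · refine ⟨(w t - y) / (y * (1 + w t)) - ((1 - w t) - y) / ((1 - w t) * ((1 - w t) + y)),
      (1 - w t) - y, hK _ le_rfl, ?_, by linarith, hY _, ?_⟩
    · have h2' := h.two
      have : ∀ j ∈ univ.erase t, w j - y = w j * (((1 - w t) - y) / (1 - w t)) := by
        intro j hj
        have := h2 j (ne_of_mem_erase hj)
        rw [this]
        field_simp
      rw [sum_congr rfl this, ← sum_mul, sum_erase h t]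
      refine le_of_eq ?_
      field_simp
    · intro j hj
      have key := E3a (x := w t) (σ := 1 - w t) (y := y) (g := 1) (by ring) hy hσ hh
      have hC : 0 < y * (1 + w t) * (1 - w t) ^ 2 * ((1 - w t) + y) * (2 * (1 - w t) + y) := by
        positivity
      rw [h2 j hj]
      have e1 : (1 - w t - y) * ((1 - (1 - w t)) ^ 2 / (1 - w t) ^ 2 -
          w t * ((1 - w t) + 2 * y) / (y * (2 * (1 - w t) + y))) =
          w t * ((w t + 1) * (1 - w t - y) * (1 - w t + y) * (w t * y * (2 * (1 - w t) + y) -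
          (1 - w t) ^ 2 * (1 - w t + 2 * y))) /
          (y * (1 + w t) * (1 - w t) ^ 2 * ((1 - w t) + y) * (2 * (1 - w t) + y)) := by
        field_simp
        ring
      have e2 : ((w t - y) / (y * (1 + w t)) - (1 - w t - y) / ((1 - w t) * (1 - w t + y))) *
          (w t * (w t - y)) =
          w t * ((w t - y) ^ 2 * (1 - w t) ^ 2 * (1 - w t + y) * (2 * (1 - w t) + y) -
          (w t + 1) * y * (1 - w t - y) * (w t - y) * (1 - w t) * (2 * (1 - w t) + y)) /
          (y * (1 + w t) * (1 - w t) ^ 2 * ((1 - w t) + y) * (2 * (1 - w t) + y)) := by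
        field_simp
        ring
      rw [e1, e2]
      refine div_le_div_of_nonneg_right ?_ hC.le
      refine mul_le_mul_of_nonneg_left ?_ hx.le
      linarith
  · refine ⟨(w t - y) / (y * (1 + w t)) - ((1 - w t) - 2 * y) / ((1 - w t) * ((1 - w t) + y)),
      (1 - w t) - 2 * y, hK _ (by linarith), h3, by linarith, hY _, ?_⟩
    intro j hj
    have hz := (h.lt j).le
    have hzs := h2 j hj
    have key := E3b (x := w t) (σ := 1 - w t) (y := y) (g := 1) (z := w j) (by ring) hy hz hzs hh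
    have hC : 0 < y * (1 + w t) * (1 - w t) ^ 2 * ((1 - w t) + y) * (2 * (1 - w t) + y) := by
      positivity
    have e1 : (w j - y) * ((1 - w j) ^ 2 / (1 - w t) ^ 2 -
        w t * ((1 - w t) + 2 * y) / (y * (2 * (1 - w t) + y))) =
        ((w t + 1) * (w j - y) * (1 - w t + y) * (y * (1 - w j) ^ 2 * (2 * (1 - w t) + y) -
        w t * (1 - w t) ^ 2 * (1 - w t + 2 * y))) /
        (y * (1 + w t) * (1 - w t) ^ 2 * ((1 - w t) + y) * (2 * (1 - w t) + y)) := by
      field_simp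
      ring
    have e2 : ((w t - y) / (y * (1 + w t)) - (1 - w t - 2 * y) / ((1 - w t) * (1 - w t + y))) *
        (w t * (w t - y)) =
        ((w t - y) ^ 2 * w t * (1 - w t) ^ 2 * (1 - w t + y) * (2 * (1 - w t) + y) -
        (w t + 1) * y * (1 - w t - 2 * y) * (w t - y) * w t * (1 - w t) * (2 * (1 - w t) + y)) /
        (y * (1 + w t) * (1 - w t) ^ 2 * ((1 - w t) + y) * (2 * (1 - w t) + y)) := by
      field_simp
      ring
    rw [e1, e2]
    refine div_le_div_of_nonneg_right ?_ hC.le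
    linarith

/-- the bracket `ē (τ_j - ē)` -/
theorem g_bound {x σ y lam z : ℝ} (hy : 0 < y) (hz : y ≤ z) (hzσ : z ≤ σ) (hx : σ + y ≤ x)
    (h1 : x + σ = 1) (hl : 0 < lam) (hsq : (σ + y) * x + y * lam ≤ lam ^ 2) (hlt : σ + y ≤ lam) :
    0 ≤ (lam + x) / (lam + z) * ((1 - z) / σ - (lam + x) / (lam + z)) ∧
    (lam + x) / (lam + z) * ((1 - z) / σ - (lam + x) / (lam + z)) * (σ * (σ + y)) ≤
      lam * (x - y) := by
  have hσ : 0 < σ := hy.trans_le (hz.trans hzσ)
  have hz0 : 0 < z := hy.trans_le hz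
  have hx0 : 0 < x := by linarith
  have e1 : (lam + x) / (lam + z) * ((1 - z) / σ - (lam + x) / (lam + z)) =
      (lam + x) * ((x - z) * (lam + z - σ)) / (σ * (lam + z) ^ 2) := by
    rw [← h1]
    field_simp
    ring
  have hn : 0 ≤ (lam + x) * ((x - z) * (lam + z - σ)) :=
    mul_nonneg (by positivity) (mul_nonneg (by linarith) (by linarith))
  rw [e1]
  refine ⟨by positivity, ?_⟩
  have e2 : (lam + x) * ((x - z) * (lam + z - σ)) / (σ * (lam + z) ^ 2) * (σ * (σ + y)) =
      (σ + y) * (lam + x) * ((x - z) * (lam + z - σ)) / (lam + z) ^ 2 := by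
    field_simp
  rw [e2, div_le_iff₀ (by positivity)]
  have a1 : (σ + y) * (lam + x) ≤ (lam + σ) * (lam + y) := by nlinarith
  have a2 : (lam + z - σ) * (lam + σ) ≤ lam * (lam + z) := by nlinarith
  have a3 : (x - z) * (lam + y) ≤ (x - y) * (lam + z) :=
    mul_le_mul (by linarith) (by linarith) (by linarith) (by linarith)
  have b0 : 0 ≤ (x - z) * (lam + z - σ) := mul_nonneg (by linarith) (by linarith)
  calc (σ + y) * (lam + x) * ((x - z) * (lam + z - σ)) ≤
        (lam + σ) * (lam + y) * ((x - z) * (lam + z - σ)) := mul_le_mul_of_nonneg_right a1 b0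
    _ = ((x - z) * (lam + y)) * ((lam + z - σ) * (lam + σ)) := by ring
    _ ≤ ((x - y) * (lam + z)) * (lam * (lam + z)) :=
        mul_le_mul a3 a2 (mul_nonneg (by linarith) (by linarith))
          (mul_nonneg (by linarith) (by linarith))
    _ = _ := by ring

/-- the terms with the largest part and one other part -/
theorem pair_top {x σ y lam z K B M1 M2 Γt Γj Φt Φj Xt Xj : ℝ} (hy : 0 < y) (hz : y ≤ z)
    (hzσ : z ≤ σ) (hx : σ + y ≤ x)
    (h1 : x + σ = 1) (hl : 0 < lam) (hsq : (σ + y) * x + y * lam ≤ lam ^ 2) (hlt : σ + y ≤ lam)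
    (hB : 0 ≤ B)
    (hM1 : (lam + x) / (lam + z) * B ≤ M1) (hM1' : M1 ≤ (1 - z) / σ * ((lam + x) / (lam + z)) * B)
    (hM2 : ((lam + x) / (lam + z)) ^ 2 * B ≤ M2) (hM2' : M2 ≤ ((1 - z) / σ) ^ 2 * B)
    (hΓt : 0 ≤ Γt) (hΓj : 0 ≤ Γj) (hΓ : z * Γj ≤ x * Γt) (hΦt : 0 ≤ Φt) (hΦj : 0 ≤ Φj)
    (hXt : x * (lam + y) / (lam + x) ≤ Xt) (hXj : y ≤ Xj)
    (hK : (z - y) * ((1 - z) ^ 2 / σ ^ 2 - x * (σ + 2 * y) / (y * (2 * σ + y))) ≤
      K * (x * (x - y))) :
    -(x ^ 2 * (x - y) ^ 2 * B * Γt * y * (Φt * (lam * ((z - y) / (σ * (σ + y)))) +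
      K * (z * Φj))) ≤
    x * (x - y) * (z * (z - y)) * (M1 * (Xt * Γt * Φj - y * Φt * Γj) +
      M2 * (Xj * Γj * Φt - y * Φj * Γt)) := by
  have hσ : 0 < σ := hy.trans_le (hz.trans hzσ)
  have hz0 : 0 < z := hy.trans_le hz
  have hx0 : 0 < x := by linarith
  have hu : 0 < x - y := by linarith
  have huj : 0 ≤ z - y := by linarith
  obtain ⟨g1, g2⟩ := g_bound hy hz hzσ hx h1 hl hsq hlt
  set e := (lam + x) / (lam + z) with he
  set tj := (1 - z) / σ with htj
  have he0 : 0 < e := by rw [he]; positivity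
  have hM20 : 0 ≤ M2 := le_trans (by positivity) hM2
  -- G
  have G1 : M1 - M2 ≤ e * (tj - e) * B := by
    have e3 : e * (tj - e) * B = tj * e * B - e ^ 2 * B := by ring
    rw [e3]
    exact sub_le_sub hM1' hM2
  have G2 : z * Γj * (M1 - M2) ≤ x * Γt * (lam * (x - y) / (σ * (σ + y)) * B) := by
    have s1 : z * Γj * (M1 - M2) ≤ z * Γj * (e * (tj - e) * B) :=
      mul_le_mul_of_nonneg_left G1 (mul_nonneg hz0.le hΓj)
    have s2 : z * Γj * (e * (tj - e) * B) ≤ x * Γt * (e * (tj - e) * B) :=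
      mul_le_mul_of_nonneg_right hΓ (mul_nonneg g1 hB)
    have s3 : e * (tj - e) ≤ lam * (x - y) / (σ * (σ + y)) := by
      rw [le_div_iff₀ (by positivity)]
      exact g2
    have s4 : x * Γt * (e * (tj - e) * B) ≤ x * Γt * (lam * (x - y) / (σ * (σ + y)) * B) :=
      mul_le_mul_of_nonneg_left (mul_le_mul_of_nonneg_right s3 hB) (mul_nonneg hx0.le hΓt)
    linarith
  -- F
  have F1 : x * (σ + 2 * y) / (2 * σ + y) ≤ e * Xt := by
    have s1 : e * (x * (lam + y) / (lam + x)) ≤ e * Xt := mul_le_mul_of_nonneg_left hXt he0.le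
    refine le_trans ?_ s1
    have s2 : e * (x * (lam + y) / (lam + x)) = x * (lam + y) / (lam + z) := by
      rw [he]; field_simp
    rw [s2, div_le_div_iff₀ (by positivity) (by positivity)]
    have s3 : (σ + 2 * y) * (lam + z) ≤ (lam + y) * (2 * σ + y) := by nlinarith
    have := mul_le_mul_of_nonneg_left s3 hx0.le
    linarith
  have F2 : -(y * K * (x * (x - y)) * B) ≤ (z - y) * (M1 * Xt - y * M2) := by
    have s1 : x * (σ + 2 * y) / (2 * σ + y) * B ≤ M1 * Xt := by
      have s2 : x * (σ + 2 * y) / (2 * σ + y) * B ≤ e * Xt * B :=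
        mul_le_mul_of_nonneg_right F1 hB
      have s3 : 0 ≤ Xt := le_trans (by positivity) hXt
      have s4 := mul_le_mul_of_nonneg_right hM1 s3
      linarith
    have s2 : y * M2 ≤ y * (tj ^ 2 * B) := mul_le_mul_of_nonneg_left hM2' hy.le
    have s3 : (z - y) * (x * (σ + 2 * y) / (2 * σ + y) * B - y * (tj ^ 2 * B)) ≤
        (z - y) * (M1 * Xt - y * M2) := mul_le_mul_of_nonneg_left (by linarith) huj
    refine le_trans ?_ s3
    have s4 := mul_le_mul_of_nonneg_left hK (mul_nonneg hy.le hB)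
    have e3 : (z - y) * (x * (σ + 2 * y) / (2 * σ + y) * B - y * (tj ^ 2 * B)) =
        -(y * B * ((z - y) * ((1 - z) ^ 2 / σ ^ 2 - x * (σ + 2 * y) / (y * (2 * σ + y))))) := by
      rw [htj]
      field_simp
      ring
    rw [e3]
    linarith
  -- sum
  have S1 : M2 * (y * Γj * Φt) ≤ M2 * (Xj * Γj * Φt) :=
    mul_le_mul_of_nonneg_left (mul_le_mul_of_nonneg_right
      (mul_le_mul_of_nonneg_right hXj hΓj) hΦt) hM20
  have S2 : x * (x - y) * (z * Γt * Φj) * (-(y * K * (x * (x - y)) * B)) ≤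
      x * (x - y) * (z * Γt * Φj) * ((z - y) * (M1 * Xt - y * M2)) :=
    mul_le_mul_of_nonneg_left F2 (by positivity)
  have S3 : x * (x - y) * ((z - y) * y * Φt) * (z * Γj * (M1 - M2)) ≤
      x * (x - y) * ((z - y) * y * Φt) * (x * Γt * (lam * (x - y) / (σ * (σ + y)) * B)) :=
    mul_le_mul_of_nonneg_left G2 (by positivity)
  have S4 : x * (x - y) * (z * (z - y)) * (M1 * (Xt * Γt * Φj - y * Φt * Γj) +
      M2 * (y * Γj * Φt - y * Φj * Γt)) ≤
      x * (x - y) * (z * (z - y)) * (M1 * (Xt * Γt * Φj - y * Φt * Γj) +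
      M2 * (Xj * Γj * Φt - y * Φj * Γt)) :=
    mul_le_mul_of_nonneg_left (by linarith) (by positivity)
  refine le_trans ?_ S4
  have e5 : x * (x - y) * (z * (z - y)) * (M1 * (Xt * Γt * Φj - y * Φt * Γj) +
      M2 * (y * Γj * Φt - y * Φj * Γt)) =
      x * (x - y) * (z * Γt * Φj) * ((z - y) * (M1 * Xt - y * M2)) -
      x * (x - y) * ((z - y) * y * Φt) * (z * Γj * (M1 - M2)) := by ring
  rw [e5]
  have e6 : -(x ^ 2 * (x - y) ^ 2 * B * Γt * y * (Φt * (lam * ((z - y) / (σ * (σ + y)))) +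
      K * (z * Φj))) = x * (x - y) * (z * Γt * Φj) * (-(y * K * (x * (x - y)) * B)) -
      x * (x - y) * ((z - y) * y * Φt) * (x * Γt * (lam * (x - y) / (σ * (σ + y)) * B)) := by
    field_simp
    ring
  rw [e6]
  linarith

end Pool.Agent.Helper66.SW
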