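import Pool.Agent.Helper66.SW.Even
import Pool.Agent.Helper66.SW.Ineq3

/-!
S-world, case (L): a leg of size two at `g`, the terminal spider `w` has two legs of even size,
the other legs of `w` are arbitrary.
-/

set_option autoImplicit false

namespace Pool.Agent.Helper66.SW

open Pool.Agent.Helper4.SW Pool.Agent.Helper31.SW
open Pool.Agent.Helper6.HL hiding X
open Finset Polynomial

variable {q : ℕ} {w : Fin q → ℝ} {y : ℝ}

theorem tau_two (h : Hyp w y) (t : Fin q) : tau w y 2 t = w t * (1 - w t) / l w y 2 := by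
  rw [tau, N_two h]

theorem K2_exists (h : Hyp w y) {t : Fin q} (ht : Top w t) : ∃ s0 ts : ℝ, 0 ≤ s0 ∧ 0 ≤ ts ∧
    ∑ j ∈ univ.erase t, (w j - y) ≤ s0 ∧ (∀ j, j ≠ t → (1 - w j) / (1 - w t) ≤ ts) ∧
    y * (s0 / ((1 - w t) * ((1 - w t) + y))) ≤ w t - (w t - y) * tau w y 2 t - y ∧
    s0 * ts * (y * ts - (w t - (w t - y) * tau w y 2 t)) +
      y * (w t - y) * (s0 / ((1 - w t) * ((1 - w t) + y))) ≤
      (w t - y) * (w t - (w t - y) * tau w y 2 t - y) := by
  have hy := h.hy
  have hx := h.pos t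
  have hσ := y_le_sig h t
  have hh := top_half h ht
  have hσ0 : 0 < 1 - w t := hy.trans_le hσ
  have hu : 0 < w t - y := sub_pos.2 (h.lt t)
  have hl2p := l_pos h 2
  have hl2 := l_two h
  rw [sum_split _ t] at hl2
  rw [tau_two h]
  rcases two_or h t with h2 | ⟨h2, h3, h4⟩
  · have e2 : ∑ j ∈ univ.erase t, w j * (1 - w j) = (1 - w t) * w t := by
      have : ∀ j ∈ univ.erase t, w j * (1 - w j) = w j * w t := by
        intro j hj
        have := h2 j (ne_of_mem_erase hj)
        nth_rw 2 [this]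
        ring
      rw [sum_congr rfl this, ← sum_mul, sum_erase h t]
    rw [e2] at hl2
    have hL : l w y 2 = y * 1 + 2 * w t * (1 - w t) := by rw [hl2]; ring
    have p1 := P1a (x := w t) (σ := 1 - w t) (y := y) (g := 1) (by ring) hy hσ hh
    have p2 := P2a (x := w t) (σ := 1 - w t) (y := y) (g := 1) (by ring) hy hσ hh
    rw [← hL] at p1 p2
    refine ⟨(1 - w t) - y, w t / (1 - w t), by linarith, by positivity, ?_, fun j hj => ?_, ?_, ?_⟩
    · have : ∀ j ∈ univ.erase t, w j - y = w j * (((1 - w t) - y) / (1 - w t)) := by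
        intro j hj
        have := h2 j (ne_of_mem_erase hj)
        rw [this]
        field_simp
      rw [sum_congr rfl this, ← sum_mul, sum_erase h t]
      refine le_of_eq ?_
      field_simp
    · rw [h2 j hj]
      refine le_of_eq ?_
      ring
    · rw [← sub_nonneg]
      have e3 : w t - (w t - y) * (w t * (1 - w t) / l w y 2) - y -
          y * ((1 - w t - y) / ((1 - w t) * (1 - w t + y))) =
          ((w t * (y * 1 + w t * (1 - w t) + y * (1 - w t)) - y * l w y 2) * (1 - w t) *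
          (1 - w t + y) - y * 1 * (1 - w t - y) * l w y 2) /
          (l w y 2 * ((1 - w t) * (1 - w t + y))) := by
        rw [hL]
        have hne : y * 1 + 2 * w t * (1 - w t) ≠ 0 := by rw [← hL]; exact hl2p.ne'
        field_simp
        ring
      rw [e3]
      exact div_nonneg p1 (by positivity)
    · rw [← sub_nonneg]
      have e3 : (w t - y) * (w t - (w t - y) * (w t * (1 - w t) / l w y 2) - y) -
          ((1 - w t - y) * (w t / (1 - w t)) * (y * (w t / (1 - w t)) -
          (w t - (w t - y) * (w t * (1 - w t) / l w y 2))) +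
          y * (w t - y) * ((1 - w t - y) / ((1 - w t) * (1 - w t + y)))) =
          (((w t * (y * 1 + w t * (1 - w t) + y * (1 - w t)) - y * l w y 2) * (1 - w t) *
          (1 - w t + y) - y * 1 * (1 - w t - y) * l w y 2) * (1 - w t) * (w t - y) -
          (1 - w t - y) * w t * (1 - w t + y) * (y * w t * l w y 2 -
          w t * (y * 1 + w t * (1 - w t) + y * (1 - w t)) * (1 - w t))) /
          (l w y 2 * ((1 - w t) ^ 2 * (1 - w t + y))) := by
        rw [hL]
        have hne : y * 1 + 2 * w t * (1 - w t) ≠ 0 := by rw [← hL]; exact hl2p.ne'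
        field_simp
        ring
      rw [e3]
      exact div_nonneg p2 (by positivity)
  · set L := y * 1 + 2 * w t * (1 - w t) + y * (1 - w t) with hL
    have hL0 : 0 < L := by positivity
    have hLl : L ≤ l w y 2 := by
      have e1 : (1 - w t) * (w t + y) ≤ ∑ j ∈ univ.erase t, w j * (1 - w j) := by
        rw [← sum_erase h t, sum_mul]
        refine sum_le_sum fun j hj => mul_le_mul_of_nonneg_left ?_ (h.nn j)
        have := h2 j (ne_of_mem_erase hj)
        linarith
      rw [hl2, hL]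
      linarith
    have p1 := P1b (x := w t) (σ := 1 - w t) (y := y) (g := 1) (by ring) hy h4 hh
    have p2 := P2b (x := w t) (σ := 1 - w t) (y := y) (g := 1) (by ring) hy h4 hh
    rw [← hL] at p1 p2
    set Xs := w t - (w t - y) * (w t * (1 - w t) / L) with hXs
    have hXX : Xs ≤ w t - (w t - y) * (w t * (1 - w t) / l w y 2) := by
      have : w t * (1 - w t) / l w y 2 ≤ w t * (1 - w t) / L :=
        div_le_div_of_nonneg_left (by positivity) hL0 hLl
      have := mul_le_mul_of_nonneg_left this hu.le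
      linarith
    have q1 : y * ((1 - w t - 2 * y) / ((1 - w t) * (1 - w t + y))) ≤ Xs - y := by
      rw [← sub_nonneg]
      have e3 : Xs - y - y * ((1 - w t - 2 * y) / ((1 - w t) * (1 - w t + y))) =
          ((w t * (y * 1 + w t * (1 - w t) + 2 * y * (1 - w t)) - y * L) * (1 - w t) *
          (1 - w t + y) - y * 1 * (1 - w t - 2 * y) * L) /
          (L * ((1 - w t) * (1 - w t + y))) := by
        rw [hXs]
        field_simp
        rw [hL]
        ring
      rw [e3]
      exact div_nonneg p1 (by positivity)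
    have q2 : (1 - w t - 2 * y) * ((1 - y) / (1 - w t)) * (y * ((1 - y) / (1 - w t)) - Xs) +
        y * (w t - y) * ((1 - w t - 2 * y) / ((1 - w t) * (1 - w t + y))) ≤
        (w t - y) * (Xs - y) := by
      rw [← sub_nonneg]
      have e3 : (w t - y) * (Xs - y) -
          ((1 - w t - 2 * y) * ((1 - y) / (1 - w t)) * (y * ((1 - y) / (1 - w t)) - Xs) +
          y * (w t - y) * ((1 - w t - 2 * y) / ((1 - w t) * (1 - w t + y)))) =
          (((w t * (y * 1 + w t * (1 - w t) + 2 * y * (1 - w t)) - y * L) * (1 - w t) *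
          (1 - w t + y) - y * 1 * (1 - w t - 2 * y) * L) * (1 - w t) * (w t - y) -
          (1 - w t - 2 * y) * (1 - y) * (1 - w t + y) * (y * (1 - y) * L -
          w t * (y * 1 + w t * (1 - w t) + 2 * y * (1 - w t)) * (1 - w t))) /
          (L * ((1 - w t) ^ 2 * (1 - w t + y))) := by
        rw [hXs]
        field_simp
        rw [hL]
        ring
      rw [e3]
      exact div_nonneg p2 (by positivity)
    have hts : 0 ≤ (1 - y) / (1 - w t) := div_nonneg (by linarith) hσ0.le
    refine ⟨(1 - w t) - 2 * y, (1 - y) / (1 - w t), by linarith, hts, h3,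
      fun j hj => ?_, by linarith, ?_⟩
    · refine div_le_div_of_nonneg_right ?_ hσ0.le
      have := (h.lt j).le
      linarith
    · have a1 := mul_le_mul_of_nonneg_left hXX
        (mul_nonneg (by linarith : 0 ≤ 1 - w t - 2 * y) hts)
      have a2 := mul_le_mul_of_nonneg_left hXX hu.le
      linarith

/-- the terms with the largest part and one other part, `c = 2` -/
theorem pair_top2 {x σ y lam z B ts M1 M2 Γt Γj Φt Φj Xt Xj : ℝ} (hy : 0 < y) (hz : y ≤ z)
    (hzσ : z ≤ σ) (hx : σ + y ≤ x)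
    (h1 : x + σ = 1) (hl : 0 < lam) (hsq : (σ + y) * x + y * lam ≤ lam ^ 2) (hlt : σ + y ≤ lam)
    (hB : 0 ≤ B) (hts : (1 - z) / σ ≤ ts)
    (hM1 : (1 - z) / σ * B ≤ M1) (hM1' : M1 ≤ (1 - z) / σ * ((lam + x) / (lam + z)) * B)
    (hM2 : ((lam + x) / (lam + z)) ^ 2 * B ≤ M2) (hM2' : M2 ≤ ((1 - z) / σ) ^ 2 * B)
    (hΓt : 0 ≤ Γt) (hΓj : 0 ≤ Γj) (hΓ : z * Γj ≤ x * Γt) (hΦt : 0 ≤ Φt) (hΦj : 0 ≤ Φj)
    (hΦ : z * Φj ≤ x * Φt) (hXt : 0 ≤ Xt) (hXj : y ≤ Xj) :
    -(x ^ 2 * (x - y) * B * Γt * Φt * (y * (x - y) * (lam * ((z - y) / (σ * (σ + y)))) +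
      (z - y) * (ts * max (y * ts - Xt) 0))) ≤
    x * (x - y) * (z * (z - y)) * (M1 * (Xt * Γt * Φj - y * Φt * Γj) +
      M2 * (Xj * Γj * Φt - y * Φj * Γt)) := by
  have hσ : 0 < σ := hy.trans_le (hz.trans hzσ)
  have hz0 : 0 < z := hy.trans_le hz
  have hx0 : 0 < x := by linarith
  have hu : 0 < x - y := by linarith
  have huj : 0 ≤ z - y := by linarith
  obtain ⟨g1, g2⟩ := g_bound hy hz hzσ hx h1 hl hsq hlt
  set e := (lam + x) / (lam + z) with he
  set tj := (1 - z) / σ with htj
  have he0 : 0 < e := by rw [he]; positivity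
  have htj0 : 0 ≤ tj := div_nonneg (by linarith) hσ.le
  have hts0 : 0 ≤ ts := htj0.trans hts
  have hM20 : 0 ≤ M2 := le_trans (by positivity) hM2
  -- G
  have G1 : M1 - M2 ≤ e * (tj - e) * B := by
    have e3 : e * (tj - e) * B = tj * e * B - e ^ 2 * B := by ring
    rw [e3]
    exact sub_le_sub hM1' hM2
  have G2 : z * Γj * (M1 - M2) ≤ x * Γt * (lam * (x - y) / (σ * (σ + y)) * B) := by
    have s1 : z * Γj * (M1 - M2) ≤ z * Γj * (e * (tj - e) * B) :=
      mul_le_mul_of_nonneg_left G1 (mul_nonneg hz0.le hΓj)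
    have s2 : z * Γj * (e * (tj - e) * B) ≤ x * Γt * (e * (tj - e) * B) :=
      mul_le_mul_of_nonneg_right hΓ (mul_nonneg g1 hB)
    have s3 : e * (tj - e) ≤ lam * (x - y) / (σ * (σ + y)) := by
      rw [le_div_iff₀ (by positivity)]
      exact g2
    have s4 : x * Γt * (e * (tj - e) * B) ≤ x * Γt * (lam * (x - y) / (σ * (σ + y)) * B) :=
      mul_le_mul_of_nonneg_left (mul_le_mul_of_nonneg_right s3 hB) (mul_nonneg hx0.le hΓt)
    linarith
  -- F
  set mx := max (y * ts - Xt) 0 with hmx
  have hmx0 : 0 ≤ mx := le_max_right _ _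
  have F0 : tj * (y * tj - Xt) ≤ ts * mx := by
    have a1 : y * tj - Xt ≤ mx := by
      refine le_trans ?_ (le_max_left _ _)
      have := mul_le_mul_of_nonneg_left hts hy.le
      linarith
    exact (mul_le_mul_of_nonneg_left a1 htj0).trans (mul_le_mul_of_nonneg_right hts hmx0)
  have F2 : -((z - y) * (ts * mx) * B) ≤ (z - y) * (M1 * Xt - y * M2) := by
    have s1 : tj * B * Xt ≤ M1 * Xt := mul_le_mul_of_nonneg_right hM1 hXt
    have s2 : y * M2 ≤ y * (tj ^ 2 * B) := mul_le_mul_of_nonneg_left hM2' hy.le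
    have s3 : (z - y) * (tj * B * Xt - y * (tj ^ 2 * B)) ≤
        (z - y) * (M1 * Xt - y * M2) := mul_le_mul_of_nonneg_left (by linarith) huj
    refine le_trans ?_ s3
    have s4 := mul_le_mul_of_nonneg_left (mul_le_mul_of_nonneg_right F0 hB) huj
    have e3 : (z - y) * (tj * B * Xt - y * (tj ^ 2 * B)) =
        -((z - y) * (tj * (y * tj - Xt) * B)) := by ring
    rw [e3]
    linarith
  -- sum
  have S1 : M2 * (y * Γj * Φt) ≤ M2 * (Xj * Γj * Φt) :=
    mul_le_mul_of_nonneg_left (mul_le_mul_of_nonneg_right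
      (mul_le_mul_of_nonneg_right hXj hΓj) hΦt) hM20
  have S2 : x * (x - y) * Γt * (z * Φj) * (-((z - y) * (ts * mx) * B)) ≤
      x * (x - y) * Γt * (z * Φj) * ((z - y) * (M1 * Xt - y * M2)) :=
    mul_le_mul_of_nonneg_left F2 (by positivity)
  have S2' : x * (x - y) * Γt * (x * Φt) * (-((z - y) * (ts * mx) * B)) ≤
      x * (x - y) * Γt * (z * Φj) * (-((z - y) * (ts * mx) * B)) := by
    have a1 : 0 ≤ x * (x - y) * Γt * ((z - y) * (ts * mx) * B) := by positivity
    have := mul_le_mul_of_nonneg_left hΦ a1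
    linarith
  have S3 : x * (x - y) * ((z - y) * y * Φt) * (z * Γj * (M1 - M2)) ≤
      x * (x - y) * ((z - y) * y * Φt) * (x * Γt * (lam * (x - y) / (σ * (σ + y)) * B)) :=
    mul_le_mul_of_nonneg_left G2 (by positivity)
  have S4 : x * (x - y) * (z * (z - y)) * (M1 * (Xt * Γt * Φj - y * Φt * Γj) +
      M2 * (y * Γj * Φt - y * Φj * Γt)) ≤
      x * (x - y) * (z * (z - y)) * (M1 * (Xt * Γt * Φj - y * Φt * Γj) +
      M2 * (Xj * Γj * Φt - y * Φj * Γt)) :=
    mul_le_mul_of_nonneg_left (by linarith) (by positivity)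
  refine le_trans ?_ S4
  have e5 : x * (x - y) * (z * (z - y)) * (M1 * (Xt * Γt * Φj - y * Φt * Γj) +
      M2 * (y * Γj * Φt - y * Φj * Γt)) =
      x * (x - y) * Γt * (z * Φj) * ((z - y) * (M1 * Xt - y * M2)) -
      x * (x - y) * ((z - y) * y * Φt) * (z * Γj * (M1 - M2)) := by ring
  rw [e5]
  have e6 : -(x ^ 2 * (x - y) * B * Γt * Φt * (y * (x - y) * (lam * ((z - y) / (σ * (σ + y)))) +
      (z - y) * (ts * mx))) = x * (x - y) * Γt * (x * Φt) * (-((z - y) * (ts * mx) * B)) -
      x * (x - y) * ((z - y) * y * Φt) * (x * Γt * (lam * (x - y) / (σ * (σ + y)) * B)) := by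
    field_simp
    ring
  rw [e6]
  linarith

/-- the terms with the largest part, `c = 2`, `a`, `b` even, any rest -/
theorem top_part2 (h : Hyp w y) {lam : ℝ} (hp : PerA w y lam) {t : Fin q} (ht : Top w t)
    {a b : ℕ} (ha : Even a) (ha0 : a ≠ 0) (hb : Even b) (hb0 : b ≠ 0)
    {φ γ : Fin q → ℝ} (hφ : Cone w φ) (hγ : Cone w γ) :
    0 ≤ cx w y (fun i => vv w y i * (tau w y a i * tau w y b i))
        (fun i => vv w y i * (tau w y 2 i * tau w y (a + b + 1) i)) (tau w y 2) φ γ t t +
      ∑ j ∈ univ.erase t, (cx w y (fun i => vv w y i * (tau w y a i * tau w y b i))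
        (fun i => vv w y i * (tau w y 2 i * tau w y (a + b + 1) i)) (tau w y 2) φ γ t j +
        cx w y (fun i => vv w y i * (tau w y a i * tau w y b i))
        (fun i => vv w y i * (tau w y 2 i * tau w y (a + b + 1) i)) (tau w y 2) φ γ j t) := by
  have hy := h.hy
  have hl := hp.1
  have hx := h.pos t
  have hσ := y_le_sig h t
  have hh := top_half h ht
  have hσ0 : 0 < 1 - w t := hy.trans_le hσ
  have hu : 0 < w t - y := sub_pos.2 (h.lt t)
  have hsq := lam_sq h hp t
  have hlg := lam_ge h hp ht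
  have hl1 := lam_le_one h hp
  obtain ⟨s0, ts, hs0, hts0, hs1, hts, hP1, hP2⟩ := K2_exists h ht
  set Cn := l w y a * l w y b * (l w y 2 * l w y (a + b + 1)) with hCn
  have hCn0 : 0 < Cn := mul_pos (mul_pos (l_pos h _) (l_pos h _)) (mul_pos (l_pos h _) (l_pos h _))
  set α : Fin q → ℝ := fun i => vv w y i * (tau w y a i * tau w y b i) with hα
  set β : Fin q → ℝ := fun i => vv w y i * (tau w y 2 i * tau w y (a + b + 1) i) with hβ
  have hcx : ∀ i j, Cn * cx w y α β (tau w y 2) φ γ i j =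
      (w i * th w y a b i) * (w j * th w y 2 (a + b + 1) j) *
        ((w i - (w i - y) * tau w y 2 i) * γ i * φ j - y * φ i * γ j) := by
    intro i j
    rw [w_th h, w_th h]
    simp only [cx, hα, hβ, hCn]
    ring
  set B := ch w y a t * ch w y b t * (ch w y 2 t * ch w y (a + b + 1) t) with hB
  have pa := (Cone.ch h.nn hy.le a).nn
  have pb := (Cone.ch h.nn hy.le b).nn
  have pc := (Cone.ch h.nn hy.le 2).nn
  have pn := (Cone.ch h.nn hy.le (a + b + 1)).nn
  have hB0 : 0 ≤ B := mul_nonneg (mul_nonneg (pa t) (pb t)) (mul_nonneg (pc t) (pn t))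
  have hodd : Odd (a + b + 1) := (ha.add hb).add_one
  have hch2 : ∀ i, ch w y 2 i = 1 - w i := fun i => by
    rw [ch_succ, l_one h, ch_one]; ring
  set Xt := w t - (w t - y) * tau w y 2 t with hXt
  have hXty : y ≤ Xt := by
    have := mul_le_mul_of_nonneg_left (tau_le_one h 2 t) hu.le
    rw [hXt]
    linarith
  set mx := max (y * ts - Xt) 0 with hmx
  have hmx0 : 0 ≤ mx := le_max_right _ _
  -- pairs
  have hpair : ∀ j ∈ univ.erase t, -(w t ^ 2 * (w t - y) * B * γ t * φ t * (y * (w t - y) *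
      (lam * ((w j - y) / ((1 - w t) * ((1 - w t) + y)))) + (w j - y) * (ts * mx))) ≤
      Cn * (cx w y α β (tau w y 2) φ γ t j + cx w y α β (tau w y 2) φ γ j t) := by
    intro j hj
    have hjt := ne_of_mem_erase hj
    have hz := (h.lt j).le
    have hzs := le_sig h hjt
    have hwj := h.pos j
    set e := (lam + w t) / (lam + w j) with he
    set tj := (1 - w j) / (1 - w t) with htj
    have he0 : 0 < e := by rw [he]; positivity
    have lowE : ∀ k, Even k → e * ch w y k t ≤ ch w y k j := by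
      intro k hk
      have h1 := ((lim_alt h hp ht k).2 hk).1 j
      rw [he, div_mul_eq_mul_div, div_le_iff₀ (by positivity)]
      linarith
    have upE : ∀ k, Even k → k ≠ 0 → ch w y k j ≤ tj * ch w y k t := by
      intro k hk hk0
      have h1 := ch_even_le h ht hk hk0 j
      rw [htj, div_mul_eq_mul_div, le_div_iff₀ hσ0]
      linarith
    have upO : ch w y (a + b + 1) j ≤ e * ch w y (a + b + 1) t := by
      have h1 := ((lim_alt h hp ht (a + b + 1)).1 hodd).1 j
      rw [he, div_mul_eq_mul_div, le_div_iff₀ (by positivity)]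
      linarith
    have lowO : ch w y (a + b + 1) t ≤ ch w y (a + b + 1) j :=
      (Cone.ch h.nn hy.le _).anti j t (ht j)
    have htj0 : 0 ≤ tj := div_nonneg (by linarith) hσ0.le
    have hc2 : ch w y 2 j = tj * ch w y 2 t := by
      rw [hch2, hch2, htj]
      field_simp
    have hM1 : tj * B ≤ ch w y a t * ch w y b t * (ch w y 2 j * ch w y (a + b + 1) j) := by
      have h1 : tj * ch w y 2 t * ch w y (a + b + 1) t ≤ ch w y 2 j * ch w y (a + b + 1) j :=
        mul_le_mul hc2.ge lowO (pn t) (pc j)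
      have := mul_le_mul_of_nonneg_left h1 (mul_nonneg (pa t) (pb t))
      calc _ = ch w y a t * ch w y b t * (tj * ch w y 2 t * ch w y (a + b + 1) t) := by
            rw [hB]; ring
        _ ≤ _ := this
    have hM1' : ch w y a t * ch w y b t * (ch w y 2 j * ch w y (a + b + 1) j) ≤ tj * e * B := by
      have h1 : ch w y 2 j * ch w y (a + b + 1) j ≤
          tj * ch w y 2 t * (e * ch w y (a + b + 1) t) :=
        mul_le_mul hc2.le upO (pn j) (mul_nonneg htj0 (pc t))
      have := mul_le_mul_of_nonneg_left h1 (mul_nonneg (pa t) (pb t))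
      calc _ ≤ _ := this
        _ = _ := by rw [hB]; ring
    have hM2 : e ^ 2 * B ≤ ch w y a j * ch w y b j * (ch w y 2 t * ch w y (a + b + 1) t) := by
      have h1 : e * ch w y a t * (e * ch w y b t) ≤ ch w y a j * ch w y b j :=
        mul_le_mul (lowE a ha) (lowE b hb) (mul_nonneg he0.le (pb t)) (pa j)
      have := mul_le_mul_of_nonneg_right h1 (mul_nonneg (pc t) (pn t))
      calc _ = e * ch w y a t * (e * ch w y b t) * (ch w y 2 t * ch w y (a + b + 1) t) := by
            rw [hB]; ring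
        _ ≤ _ := this
    have hM2' : ch w y a j * ch w y b j * (ch w y 2 t * ch w y (a + b + 1) t) ≤ tj ^ 2 * B := by
      have h1 : ch w y a j * ch w y b j ≤ tj * ch w y a t * (tj * ch w y b t) :=
        mul_le_mul (upE a ha ha0) (upE b hb hb0) (pb j) (mul_nonneg htj0 (pa t))
      have := mul_le_mul_of_nonneg_right h1 (mul_nonneg (pc t) (pn t))
      calc _ ≤ _ := this
        _ = _ := by rw [hB]; ring
    have hXj : y ≤ w j - (w j - y) * tau w y 2 j := by
      have := mul_le_mul_of_nonneg_left (tau_le_one h 2 j) (sub_nonneg.2 hz)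
      linarith
    have key := pair_top2 (x := w t) (σ := 1 - w t) (y := y) (lam := lam) (z := w j) (ts := ts)
      (Γt := γ t) (Γj := γ j) (Φt := φ t) (Φj := φ j) hy hz hzs hh (by ring) hl hsq hlg hB0
      (hts j hjt) hM1 hM1' hM2 hM2' (hγ.nn t) (hγ.nn j) (hγ.mono j t (ht j)) (hφ.nn t) (hφ.nn j)
      (hφ.mono j t (ht j)) (hy.le.trans hXty) hXj
    refine key.trans (le_of_eq ?_)
    rw [mul_add Cn, hcx, hcx, ← hXt]
    simp only [th]
    ring
  have htt : Cn * cx w y α β (tau w y 2) φ γ t t =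
      w t ^ 2 * (w t - y) * B * γ t * φ t * ((w t - y) * (Xt - y)) := by
    rw [hcx]
    simp only [th, hB, ← hXt]
    ring
  have hS := sum_le_sum hpair
  rw [← mul_sum] at hS
  have e1 : ∑ j ∈ univ.erase t, -(w t ^ 2 * (w t - y) * B * γ t * φ t * (y * (w t - y) *
      (lam * ((w j - y) / ((1 - w t) * ((1 - w t) + y)))) + (w j - y) * (ts * mx))) =
      -(w t ^ 2 * (w t - y) * B * γ t * φ t * (y * (w t - y) * (lam *
      ((∑ j ∈ univ.erase t, (w j - y)) / ((1 - w t) * ((1 - w t) + y)))) +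
      (∑ j ∈ univ.erase t, (w j - y)) * (ts * mx))) := by
    rw [sum_neg_distrib, ← mul_sum, sum_add_distrib, ← mul_sum, ← mul_sum, sum_mul, sum_div]
  rw [e1] at hS
  have hC1 : 0 ≤ w t ^ 2 * (w t - y) * B * γ t * φ t := by
    have := hγ.nn t
    have := hφ.nn t
    positivity
  have hfin : 0 ≤ (w t - y) * (Xt - y) - (y * (w t - y) * (lam *
      ((∑ j ∈ univ.erase t, (w j - y)) / ((1 - w t) * ((1 - w t) + y)))) +
      (∑ j ∈ univ.erase t, (w j - y)) * (ts * mx)) := by
    have hsd : 0 ≤ ∑ j ∈ univ.erase t, (w j - y) :=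
      sum_nonneg fun j _ => sub_nonneg.2 (h.lt j).le
    have a1 : (∑ j ∈ univ.erase t, (w j - y)) / ((1 - w t) * ((1 - w t) + y)) ≤
        s0 / ((1 - w t) * ((1 - w t) + y)) :=
      div_le_div_of_nonneg_right hs1 (by positivity)
    have a0 : 0 ≤ (∑ j ∈ univ.erase t, (w j - y)) / ((1 - w t) * ((1 - w t) + y)) :=
      div_nonneg hsd (by positivity)
    have a2 : y * (w t - y) * (lam * ((∑ j ∈ univ.erase t, (w j - y)) /
        ((1 - w t) * ((1 - w t) + y)))) ≤
        y * (w t - y) * (s0 / ((1 - w t) * ((1 - w t) + y))) := by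
      refine mul_le_mul_of_nonneg_left ?_ (by positivity)
      have := mul_le_mul_of_nonneg_right hl1 a0
      linarith
    have a3 : (∑ j ∈ univ.erase t, (w j - y)) * (ts * mx) ≤ s0 * (ts * mx) :=
      mul_le_mul_of_nonneg_right hs1 (mul_nonneg hts0 hmx0)
    have a4 : s0 * (ts * mx) + y * (w t - y) * (s0 / ((1 - w t) * ((1 - w t) + y))) ≤
        (w t - y) * (Xt - y) := by
      rcases le_total (y * ts - Xt) 0 with hle | hle
      · rw [hmx, max_eq_right hle, mul_zero, mul_zero, zero_add]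
        have := mul_le_mul_of_nonneg_left hP1 hu.le
        linarith
      · rw [hmx, max_eq_left hle]
        linarith
    linarith
  have hfin2 := mul_nonneg hC1 hfin
  have key : 0 ≤ Cn * (cx w y α β (tau w y 2) φ γ t t + ∑ j ∈ univ.erase t,
      (cx w y α β (tau w y 2) φ γ t j + cx w y α β (tau w y 2) φ γ j t)) := by
    rw [mul_add, htt]
    refine le_trans hfin2 ?_
    refine le_trans (le_of_eq ?_) (add_le_add_right hS _)
    ring
  exact nonneg_of_mul_nonneg_right key hCn0

/-- (A'') for `c = 2`, two even legs -/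
theorem cross_two (h : Hyp w y) {a b : ℕ} (ha : Odd a) (hb : Odd b)
    (J : List ℕ) {γ : Fin q → ℝ} (hγ : Cone w γ) :
    y * l w y (1 + 1) * E w (fun i => th w y (a + 1) (b + 1) i * hat w (st w y (R J)).p i) *
        E w (fun i => th w y (1 + 1) (a + b + 3) i * γ i) ≤
      E w (fun i => γ i * hat w (psi w y (1 + 1)) i * (w i * th w y (a + 1) (b + 1) i)) *
        E w (fun i => th w y (1 + 1) (a + b + 3) i * hat w (st w y (R J)).p i) := by
  obtain ⟨lam, hp⟩ := exists_perA h
  obtain ⟨t, ht⟩ := exists_top h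
  have hst := st_nonneg h.nn h.hy.le (R J)
  have hφ := Cone.hat h.nn hst.2
  have e3 : a + b + 3 = a + 1 + (b + 1) + 1 := by ring
  have hT := top_part2 h hp ht (a := a + 1) (b := b + 1) ha.add_one (by omega)
    hb.add_one (by omega) hφ hγ
  have key := cross_of_top h t (fun i => tau w y (a + 1) i * tau w y (b + 1) i)
    (tau w y 2) (tau w y (a + 1 + (b + 1) + 1)) (hat w (st w y (R J)).p) γ
    (fun i => mul_nonneg (tau_nn h _ i) (tau_nn h _ i)) (tau_nn h _) (sum_tau_le h _)
    (tau_nn h _) (fun i j hij => tau_mono h _ hij) hφ hγ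
    (fun i j hit hji => cnd_mid h a b 2 (a + 1 + (b + 1) + 1) hit ht hji) hT
  rw [e3, show 1 + 1 = 2 from rfl, E_th h, E_th h, E_th h, E_wth h]
  have hC : 0 ≤ l w y (a + 1) * l w y (b + 1) * l w y 2 *
      (l w y 2 * l w y (a + 1 + (b + 1) + 1)) :=
    (mul_pos (mul_pos (mul_pos (l_pos h _) (l_pos h _)) (l_pos h _))
      (mul_pos (l_pos h _) (l_pos h _))).le
  have := mul_le_mul_of_nonneg_left key hC
  calc _ = l w y (a + 1) * l w y (b + 1) * l w y 2 *
      (l w y 2 * l w y (a + 1 + (b + 1) + 1)) *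
      (y * (∑ i, vv w y i * (tau w y (a + 1) i * tau w y (b + 1) i) *
        hat w (st w y (R J)).p i) *
        ∑ i, vv w y i * (tau w y 2 i * tau w y (a + 1 + (b + 1) + 1) i) * γ i) := by ring
    _ ≤ _ := this
    _ = _ := by ring

/-- a leg of size two at `g`, two legs of `w` of even size, any other legs;
entry `j` is a leg with `j + 1` vertices -/
theorem leg_two' (h : Hyp w y) {a b : ℕ} (ha : Odd a) (hb : Odd b) (J : List ℕ) :
    Imp w y (.cons (R (a :: b :: J)) (R [1])) := by
  have hst := st_nonneg h.nn h.hy.le (R J)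
  have hφ := Cone.hat h.nn hst.2
  refine pair_MQ h a b 1 J (fun γ hγ => cross_two h ha hb J hγ) ?_
  have hA := A1_even h (a := a + 1) (b := b + 1) (c := 1 + 1) ha.add_one (by omega) hb.add_one
    (by omega) (by decide) (by omega)
  have := Bw_of_A1 h (a := a + 1) (b := b) (c := 1) ha.add_one hA hφ.nn hφ.anti
  rw [show a + b + 2 = a + 1 + (b + 1) by ring]
  exact this

end Pool.Agent.Helper66.SW
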